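import Pool.Agent.H.MP_59b15d_al.h95.Fd9h

/-!
# Folding of quadratic words, part 9, second relation
-/

set_option autoImplicit false

namespace Pool.MP_59b15d_al.H95

open Pool.MP_59b15d_al.H24T Pool.MP_59b15d_al.H76R Pool.MP_59b15d_al.H73E
open FreeGroup (of)

section

variable {n : ℕ} {G : Type*} [Group G] {a b : Fin (n + 1) → G}

variable (h : IsSurf a b) (j : Fin n)

theorem Db_rel_lt1 {k : Fin n} (hk : k < j) :
    (push stw_isQ (Sum.inr j, false) *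
      (Xh h (dl j) * Xh h (of (Sum.inl j)) * Xh h (of (Sum.inr j))) : MulAut (Fr n))
      (of (Sum.inl k)) =
    (MulAut.conj ((dl n)⁻¹ * (dl j * of (Sum.inl j) * of (Sum.inr j) * (of (Sum.inl j))⁻¹ *
      (of (Sum.inr j))⁻¹ * (of (Sum.inl j))⁻¹ * (dl j)⁻¹) * dl n *
      (dl j * of (Sum.inl j) * of (Sum.inr j) * (of (Sum.inl j))⁻¹ * (of (Sum.inr j))⁻¹ *
      (of (Sum.inl j))⁻¹ * (dl j)⁻¹)⁻¹) *
      (Xh h (dl j) * Xh h (of (Sum.inl j)) * Xh h (of (Sum.inr j)) * Xh h (of (Sum.inl j))) : MulAut (Fr n))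
      (of (Sum.inl k)) := by
  have hjn : (j : ℕ) ≤ n := j.2.le
  have d1 := (push_inr j).1
  have d2 := (push_inr j).2 (Sum.inl j) (by simp)
  have sj := Xh_dl_ge h hjn (k := j) le_rfl
  have e1 := Db_ne j hk.ne
  have e2 := Xh_dl_lt h hjn (k := k) (by exact hk)
  have e3 := Ya_lt h j hk
  have e4 := Yb_lt h j hk
  simp only [MulAut.mul_apply, MulAut.conj_apply]
  simp only [map_mul, map_inv, e1.1, e1.2, e2.1, e2.2,
    e3.1, e3.2, e4.1, e4.2, Db_c]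
  group

theorem Db_rel_lt2 {k : Fin n} (hk : k < j) :
    (push stw_isQ (Sum.inr j, false) *
      (Xh h (dl j) * Xh h (of (Sum.inl j)) * Xh h (of (Sum.inr j))) : MulAut (Fr n))
      (of (Sum.inr k)) =
    (MulAut.conj ((dl n)⁻¹ * (dl j * of (Sum.inl j) * of (Sum.inr j) * (of (Sum.inl j))⁻¹ *
      (of (Sum.inr j))⁻¹ * (of (Sum.inl j))⁻¹ * (dl j)⁻¹) * dl n *
      (dl j * of (Sum.inl j) * of (Sum.inr j) * (of (Sum.inl j))⁻¹ * (of (Sum.inr j))⁻¹ *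
      (of (Sum.inl j))⁻¹ * (dl j)⁻¹)⁻¹) *
      (Xh h (dl j) * Xh h (of (Sum.inl j)) * Xh h (of (Sum.inr j)) * Xh h (of (Sum.inl j))) : MulAut (Fr n))
      (of (Sum.inr k)) := by
  have hjn : (j : ℕ) ≤ n := j.2.le
  have d1 := (push_inr j).1
  have d2 := (push_inr j).2 (Sum.inl j) (by simp)
  have sj := Xh_dl_ge h hjn (k := j) le_rfl
  have e1 := Db_ne j hk.ne
  have e2 := Xh_dl_lt h hjn (k := k) (by exact hk)
  have e3 := Ya_lt h j hk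
  have e4 := Yb_lt h j hk
  simp only [MulAut.mul_apply, MulAut.conj_apply]
  simp only [map_mul, map_inv, e1.1, e1.2, e2.1, e2.2,
    e3.1, e3.2, e4.1, e4.2, Db_c]
  group

theorem Db_rel_eq1 :
    (push stw_isQ (Sum.inr j, false) *
      (Xh h (dl j) * Xh h (of (Sum.inl j)) * Xh h (of (Sum.inr j))) : MulAut (Fr n))
      (of (Sum.inl j)) =
    (MulAut.conj ((dl n)⁻¹ * (dl j * of (Sum.inl j) * of (Sum.inr j) * (of (Sum.inl j))⁻¹ *
      (of (Sum.inr j))⁻¹ * (of (Sum.inl j))⁻¹ * (dl j)⁻¹) * dl n *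
      (dl j * of (Sum.inl j) * of (Sum.inr j) * (of (Sum.inl j))⁻¹ * (of (Sum.inr j))⁻¹ *
      (of (Sum.inl j))⁻¹ * (dl j)⁻¹)⁻¹) *
      (Xh h (dl j) * Xh h (of (Sum.inl j)) * Xh h (of (Sum.inr j)) * Xh h (of (Sum.inl j))) : MulAut (Fr n))
      (of (Sum.inl j)) := by
  have hjn : (j : ℕ) ≤ n := j.2.le
  have d1 := (push_inr j).1
  have d2 := (push_inr j).2 (Sum.inl j) (by simp)
  have sj := Xh_dl_ge h hjn (k := j) le_rfl
  simp only [MulAut.mul_apply, MulAut.conj_apply]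
  simp only [map_mul, map_inv, Ya_a, Ya_b, Yb_a, Yb_b,
    Ya_c, Yb_c, sj.1, sj.2, Ys_c h hjn, Db_c, Db_s, d1, d2]
  group

theorem Db_rel_eq2 :
    (push stw_isQ (Sum.inr j, false) *
      (Xh h (dl j) * Xh h (of (Sum.inl j)) * Xh h (of (Sum.inr j))) : MulAut (Fr n))
      (of (Sum.inr j)) =
    (MulAut.conj ((dl n)⁻¹ * (dl j * of (Sum.inl j) * of (Sum.inr j) * (of (Sum.inl j))⁻¹ *
      (of (Sum.inr j))⁻¹ * (of (Sum.inl j))⁻¹ * (dl j)⁻¹) * dl n *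
      (dl j * of (Sum.inl j) * of (Sum.inr j) * (of (Sum.inl j))⁻¹ * (of (Sum.inr j))⁻¹ *
      (of (Sum.inl j))⁻¹ * (dl j)⁻¹)⁻¹) *
      (Xh h (dl j) * Xh h (of (Sum.inl j)) * Xh h (of (Sum.inr j)) * Xh h (of (Sum.inl j))) : MulAut (Fr n))
      (of (Sum.inr j)) := by
  have hjn : (j : ℕ) ≤ n := j.2.le
  have d1 := (push_inr j).1
  have d2 := (push_inr j).2 (Sum.inl j) (by simp)
  have sj := Xh_dl_ge h hjn (k := j) le_rfl
  simp only [MulAut.mul_apply, MulAut.conj_apply]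
  simp only [map_mul, map_inv, Ya_a, Ya_b, Yb_a, Yb_b,
    Ya_c, Yb_c, sj.1, sj.2, Ys_c h hjn, Db_c, Db_s, d1, d2]
  group

theorem Db_rel_gt1 {k : Fin n} (hk : j < k) :
    (push stw_isQ (Sum.inr j, false) *
      (Xh h (dl j) * Xh h (of (Sum.inl j)) * Xh h (of (Sum.inr j))) : MulAut (Fr n))
      (of (Sum.inl k)) =
    (MulAut.conj ((dl n)⁻¹ * (dl j * of (Sum.inl j) * of (Sum.inr j) * (of (Sum.inl j))⁻¹ *
      (of (Sum.inr j))⁻¹ * (of (Sum.inl j))⁻¹ * (dl j)⁻¹) * dl n *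
      (dl j * of (Sum.inl j) * of (Sum.inr j) * (of (Sum.inl j))⁻¹ * (of (Sum.inr j))⁻¹ *
      (of (Sum.inl j))⁻¹ * (dl j)⁻¹)⁻¹) *
      (Xh h (dl j) * Xh h (of (Sum.inl j)) * Xh h (of (Sum.inr j)) * Xh h (of (Sum.inl j))) : MulAut (Fr n))
      (of (Sum.inl k)) := by
  have hjn : (j : ℕ) ≤ n := j.2.le
  have d1 := (push_inr j).1
  have d2 := (push_inr j).2 (Sum.inl j) (by simp)
  have sj := Xh_dl_ge h hjn (k := j) le_rfl
  have e1 := Db_ne j hk.ne'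
  have e2 := Xh_dl_ge h hjn (k := k) (by exact hk.le)
  have e3 := Ya_gt h j hk
  have e4 := Yb_gt h j hk
  simp only [MulAut.mul_apply, MulAut.conj_apply]
  simp only [map_mul, map_inv, e1.1, e1.2, e2.1, e2.2,
    e3.1, e3.2, e4.1, e4.2, Ya_a, Ya_b, Yb_a, Yb_b,
    Ya_c, Yb_c, sj.1, sj.2, Ys_c h hjn, Db_c, Db_s, d1, d2]
  group

theorem Db_rel_gt2 {k : Fin n} (hk : j < k) :
    (push stw_isQ (Sum.inr j, false) *
      (Xh h (dl j) * Xh h (of (Sum.inl j)) * Xh h (of (Sum.inr j))) : MulAut (Fr n))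
      (of (Sum.inr k)) =
    (MulAut.conj ((dl n)⁻¹ * (dl j * of (Sum.inl j) * of (Sum.inr j) * (of (Sum.inl j))⁻¹ *
      (of (Sum.inr j))⁻¹ * (of (Sum.inl j))⁻¹ * (dl j)⁻¹) * dl n *
      (dl j * of (Sum.inl j) * of (Sum.inr j) * (of (Sum.inl j))⁻¹ * (of (Sum.inr j))⁻¹ *
      (of (Sum.inl j))⁻¹ * (dl j)⁻¹)⁻¹) *
      (Xh h (dl j) * Xh h (of (Sum.inl j)) * Xh h (of (Sum.inr j)) * Xh h (of (Sum.inl j))) : MulAut (Fr n))
      (of (Sum.inr k)) := by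
  have hjn : (j : ℕ) ≤ n := j.2.le
  have d1 := (push_inr j).1
  have d2 := (push_inr j).2 (Sum.inl j) (by simp)
  have sj := Xh_dl_ge h hjn (k := j) le_rfl
  have e1 := Db_ne j hk.ne'
  have e2 := Xh_dl_ge h hjn (k := k) (by exact hk.le)
  have e3 := Ya_gt h j hk
  have e4 := Yb_gt h j hk
  simp only [MulAut.mul_apply, MulAut.conj_apply]
  simp only [map_mul, map_inv, e1.1, e1.2, e2.1, e2.2,
    e3.1, e3.2, e4.1, e4.2, Ya_a, Ya_b, Yb_a, Yb_b,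
    Ya_c, Yb_c, sj.1, sj.2, Ys_c h hjn, Db_c, Db_s, d1, d2]
  group

/-- The push of the word across `b j ⁻¹` and the surface pushes. -/
theorem Db_rel : push stw_isQ (Sum.inr j, false) *
      (Xh h (dl j) * Xh h (of (Sum.inl j)) * Xh h (of (Sum.inr j))) =
    MulAut.conj ((dl n)⁻¹ * (dl j * of (Sum.inl j) * of (Sum.inr j) * (of (Sum.inl j))⁻¹ *
      (of (Sum.inr j))⁻¹ * (of (Sum.inl j))⁻¹ * (dl j)⁻¹) * dl n *
      (dl j * of (Sum.inl j) * of (Sum.inr j) * (of (Sum.inl j))⁻¹ * (of (Sum.inr j))⁻¹ *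
      (of (Sum.inl j))⁻¹ * (dl j)⁻¹)⁻¹) *
      (Xh h (dl j) * Xh h (of (Sum.inl j)) * Xh h (of (Sum.inr j)) * Xh h (of (Sum.inl j))) := by
  apply aut_ext_fr
  intro k
  rcases lt_trichotomy k j with hk | rfl | hk
  · exact ⟨Db_rel_lt1 h j hk, Db_rel_lt2 h j hk⟩
  · exact ⟨Db_rel_eq1 h k, Db_rel_eq2 h k⟩
  · exact ⟨Db_rel_gt1 h j hk, Db_rel_gt2 h j hk⟩

end

end Pool.MP_59b15d_al.H95
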