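import Pool.Agent.H.MP_59b15d_al.h95.Fd9a
import Pool.Agent.H.MP_59b15d_al.h95.Fd9b
import Pool.Agent.H.MP_59b15d_al.h73e.Cm

/-!
# Folding of quadratic words, part 10: all automorphisms fixing the boundary

For every automorphism `f` of the free group fixing the boundary `dl n`,
`f * Xh h u * f⁻¹` and `Xh h (f u)` differ by an inner automorphism.
-/

set_option autoImplicit false

namespace Pool.MP_59b15d_al.H95

open Pool.MP_59b15d_al.H24T Pool.MP_59b15d_al.H76R Pool.MP_59b15d_al.H73E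
open FreeGroup (of)

section

variable {n : ℕ} {G : Type*} [Group G] {a b : Fin (n + 1) → G}

/-- Pairs `(conj w * Xh h u, u)`. -/
def RX (h : IsSurf a b) : Subgroup (MulAut (Fr n) × Fr n) where
  carrier := {p | ∃ w, p.1 = MulAut.conj w * Xh h p.2}
  one_mem' := ⟨1, by simp⟩
  mul_mem' := by
    rintro ⟨D, u⟩ ⟨D', u'⟩ ⟨w, hw⟩ ⟨w', hw'⟩
    refine ⟨w * Xh h u w', ?_⟩
    change D = _ at hw
    change D' = _ at hw'
    change D * D' = MulAut.conj (w * Xh h u w') * Xh h (u * u')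
    rw [hw, hw', map_mul, map_mul, ← Cm_conj]
    group
  inv_mem' := by
    rintro ⟨D, u⟩ ⟨w, hw⟩
    refine ⟨Xh h u⁻¹ w⁻¹, ?_⟩
    change D = _ at hw
    change D⁻¹ = MulAut.conj (Xh h u⁻¹ w⁻¹) * Xh h u⁻¹
    rw [hw, ← Cm_conj', mul_inv_rev, map_inv, map_inv]

theorem mem_RX (h : IsSurf a b) {D : MulAut (Fr n)} {u : Fr n} :
    (D, u) ∈ RX h ↔ ∃ w, D = MulAut.conj w * Xh h u := Iff.rfl

theorem push_false_RX (h : IsSurf a b) (j : Fin n) :
    (push stw_isQ (Sum.inl j, false), hh (stw n) flp lt (Sum.inl j, false)) ∈ RX h ∧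
    (push stw_isQ (Sum.inr j, false), hh (stw n) flp lt (Sum.inr j, false)) ∈ RX h := by
  have hd := (stw_isQ (n := n)).isD
  have e1 := hd.hh_inv (i := (Sum.inl j, true)) (stw_all _)
  have e2 := hd.hh_inv (i := (Sum.inr j, true)) (stw_all _)
  change hh (stw n) flp lt (Sum.inl j, false) = _ at e1
  change hh (stw n) flp lt (Sum.inr j, false) = _ at e2
  constructor
  · rw [mem_RX]
    have h1 := Da_rel h j
    rw [← eq_mul_inv_iff_mul_eq] at h1
    obtain ⟨W, hW⟩ : ∃ W, push stw_isQ (Sum.inl j, false) = MulAut.conj W *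
      (Xh h (dl j) * Xh h (of (Sum.inl j))) *
      (Xh h (dl j) * Xh h (of (Sum.inl j)) * Xh h (of (Sum.inr j)))⁻¹ := ⟨_, h1⟩
    refine ⟨W, ?_⟩
    rw [hW, mul_assoc]
    congr 1
    rw [e1, (hh_stw j).1]
    simp only [map_mul, map_inv]
    group
  · rw [mem_RX]
    have h1 := Db_rel h j
    rw [← eq_mul_inv_iff_mul_eq] at h1
    obtain ⟨W, hW⟩ : ∃ W, push stw_isQ (Sum.inr j, false) = MulAut.conj W *
      (Xh h (dl j) * Xh h (of (Sum.inl j)) * Xh h (of (Sum.inr j)) * Xh h (of (Sum.inl j))) *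
      (Xh h (dl j) * Xh h (of (Sum.inl j)) * Xh h (of (Sum.inr j)))⁻¹ := ⟨_, h1⟩
    refine ⟨W, ?_⟩
    rw [hW, mul_assoc]
    congr 1
    rw [e2, (hh_stw j).2]
    simp only [map_mul, map_inv]
    group

theorem push_flp {X : Type*} [DecidableEq X] {L : List (X × Bool)} (hq : IsQ L) (z : X × Bool) :
    push hq (flp z) = (push hq z)⁻¹ := by
  apply MulEquiv.ext
  intro x
  rw [eq_comm, MulAut.inv_apply]
  rfl

theorem PP_le_RX (h : IsSurf a b) : PP (stw_isQ (n := n)) ≤ RX h := by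
  unfold PP
  rw [Subgroup.closure_le]
  rintro _ ⟨z, rfl⟩
  have hd := (stw_isQ (n := n)).isD
  have key : ∀ z : (Fin n ⊕ Fin n) × Bool,
      (push stw_isQ z, hh (stw n) flp lt z) ∈ RX h →
      (push stw_isQ (flp z), hh (stw n) flp lt (flp z)) ∈ RX h := by
    intro z hz
    rw [push_flp, hd.hh_inv (stw_all z)]
    exact (RX h).inv_mem hz
  obtain ⟨x, b⟩ := z
  rcases x with j | j <;> cases b
  · exact (push_false_RX h j).1
  · exact key _ (push_false_RX h j).1
  · exact (push_false_RX h j).2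
  · exact key _ (push_false_RX h j).2

/-- **The pushes are normalised by all automorphisms fixing the boundary.** -/
theorem Xh_all (h : IsSurf a b) {f : MulAut (Fr n)} (hf : f (dl n) = dl n) (u : Fr n) :
    ∃ w, f * Xh h u * f⁻¹ = MulAut.conj w * Xh h (f u) := by
  obtain ⟨D, hD⟩ := PP_surj stw_isQ stw_gen u
  have h1 := PP_inv stw_isQ stw_gen (f := f) (by rw [mk_stw, hf]) hD
  obtain ⟨w, hw⟩ := (mem_RX h).1 (PP_le_RX h hD)
  obtain ⟨w', hw'⟩ := (mem_RX h).1 (PP_le_RX h h1)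
  refine ⟨f w⁻¹ * w', ?_⟩
  rw [map_mul MulAut.conj, mul_assoc (MulAut.conj (f w⁻¹)), ← hw', hw, ← Cm_conj, map_inv]
  group

end

end Pool.MP_59b15d_al.H95
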