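import Pool.Agent.H.MP_59b15d_al.h95.Mf9

/-!
# The closed surface group
-/

set_option autoImplicit false

namespace Pool.MP_59b15d_al.H95

open Pool.MP_59b15d_al.Sym

variable {N : ℕ}

/-- Representatives of the faces. -/
theorem exists_reps (K : Subgroup (FF N)) (hK : K.Normal) (hKf : K.FiniteIndex) :
    ∃ (g₀ : FF N) (s : ℕ) (g : Fin s → FF N),
      (∀ z : FF N, (∃ a : ℤ, z * xn N ^ a * g₀⁻¹ ∈ K) ∨
        ∃ i, ∃ a : ℤ, z * xn N ^ a * (g i)⁻¹ ∈ K) ∧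
      (∀ i, ∀ a : ℤ, g i * xn N ^ a * g₀⁻¹ ∉ K) ∧
      (∀ i j, i ≠ j → ∀ a : ℤ, g i * xn N ^ a * (g j)⁻¹ ∉ K) := by
  classical
  haveI := hK
  haveI := hKf
  haveI : Finite (FF N ⧸ K) := Subgroup.finite_quotient_of_finiteIndex
  set C : Subgroup (FF N ⧸ K) := Subgroup.zpowers ((xn N : FF N) : FF N ⧸ K) with hC
  haveI : Finite ((FF N ⧸ K) ⧸ C) := inferInstance
  haveI : Fintype ((FF N ⧸ K) ⧸ C) := Fintype.ofFinite _
  obtain ⟨s, hs⟩ : ∃ s, Fintype.card ((FF N ⧸ K) ⧸ C) = s + 1 :=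
    ⟨Fintype.card ((FF N ⧸ K) ⧸ C) - 1, by
      have := Fintype.card_pos (α := (FF N ⧸ K) ⧸ C)
      omega⟩
  set E : (FF N ⧸ K) ⧸ C ≃ Fin (s + 1) := Fintype.equivFinOfCardEq hs with hE
  have hrep : ∀ i : Fin (s + 1), ∃ z : FF N, E (((z : FF N ⧸ K)) : (FF N ⧸ K) ⧸ C) = i := by
    intro i
    obtain ⟨y, hy⟩ := QuotientGroup.mk_surjective (E.symm i)
    obtain ⟨z, rfl⟩ := QuotientGroup.mk_surjective y
    exact ⟨z, by rw [hy, Equiv.apply_symm_apply]⟩
  choose r hr using hrep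
  have hiff : ∀ x y : FF N, E (((x : FF N ⧸ K)) : (FF N ⧸ K) ⧸ C) =
      E (((y : FF N ⧸ K)) : (FF N ⧸ K) ⧸ C) ↔ ∃ a : ℤ, x * xn N ^ a * y⁻¹ ∈ K := by
    intro x y
    rw [E.apply_eq_iff_eq, QuotientGroup.eq, hC, Subgroup.mem_zpowers_iff]
    refine exists_congr fun a => ?_
    rw [← QuotientGroup.mk_zpow, ← QuotientGroup.mk_inv, ← QuotientGroup.mk_mul, QuotientGroup.eq,
      ← hK.mem_comm_iff]
    constructor
    · intro h
      have h1 := K.inv_mem h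
      have h2 := hK.conj_mem _ h1 y
      have e1 : y * (x⁻¹ * y * (xn N ^ a)⁻¹)⁻¹ * y⁻¹ = y * (xn N ^ a * y⁻¹ * x) * y⁻¹ := by group
      rw [e1] at h2
      have h3 := hK.conj_mem _ h2 (x * y⁻¹)
      have e2 : x * y⁻¹ * (y * (xn N ^ a * y⁻¹ * x) * y⁻¹) * (x * y⁻¹)⁻¹ =
          x * xn N ^ a * y⁻¹ := by group
      rwa [e2] at h3
    · intro h
      have h3 := hK.conj_mem _ (K.inv_mem h) x⁻¹
      have e2 : x⁻¹ * (x * xn N ^ a * y⁻¹)⁻¹ * x⁻¹⁻¹ = x⁻¹ * y * (xn N ^ a)⁻¹ := by group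
      rwa [e2] at h3
  refine ⟨r 0, s, fun i => r i.succ, ?_, ?_, ?_⟩
  · intro z
    rcases Fin.eq_zero_or_eq_succ (E (((z : FF N ⧸ K)) : (FF N ⧸ K) ⧸ C)) with h | ⟨i, h⟩
    · left
      exact (hiff _ _).1 (by rw [h, hr])
    · right
      exact ⟨i, (hiff _ _).1 (by rw [h, hr])⟩
  · intro i a ha
    have h1 := (hiff _ _).2 ⟨a, ha⟩
    rw [hr, hr] at h1
    exact Fin.succ_ne_zero i h1
  · intro i j hij a ha
    have h1 := (hiff _ _).2 ⟨a, ha⟩
    rw [hr, hr] at h1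
    exact hij (Fin.succ_injective _ h1)

theorem mfClosed (hN : 0 < N) (e : Fin N → ℕ) (he : ∀ j, 1 ≤ e j) (K : Subgroup (FF N))
    (hK : K.Normal) (hKf : K.FiniteIndex) (h1 : ∀ j, FreeGroup.of j ^ e j ∈ K)
    (o1 : ∀ j (k : ℕ), FreeGroup.of j ^ k ∈ K → e j ∣ k) (m : ℕ) (hm : 1 ≤ m) (h2 : xn N ^ m ∈ K)
    (o2 : ∀ k : ℕ, xn N ^ k ∈ K → m ∣ k) {G : Type*} [Group G] (q : ↥K →* G)
    (hq : Function.Surjective q)
    (hk : ∀ z : ↥K, q z = 1 ↔ (z : FF N) ∈ Sym.Rel (Fin.lastCases m e : Fin (N + 1) → ℕ)) :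
    ∃ (p : ℕ) (a b : Fin p → G), Pool.MP_59b15d_al.H76.StdGen a b ∧
      (2 * p - 2 : ℚ) = K.index * (N - 1 - ∑ j, (1 / e j : ℚ) - 1 / m) := by
  obtain ⟨g₀, s, g, hg, hg₀, hgg⟩ := exists_reps K hK hKf
  obtain ⟨p, J, j1, j2, j3, j4, j5⟩ :=
    mfFull hN e he K hK hKf h1 o1 m hm h2 o2 g₀ s g hg hg₀ hgg
  have hRR : Rel' e ≤ Sym.Rel (Fin.lastCases m e : Fin (N + 1) → ℕ) := by
    apply Subgroup.normalClosure_mono
    rintro _ ⟨j, rfl⟩
    exact ⟨j.castSucc, by simp only [per_castSucc, Fin.lastCases_castSucc]⟩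
  have hxm : ∀ h : FF N, h * xn N ^ m * h⁻¹ ∈ Sym.Rel (Fin.lastCases m e : Fin (N + 1) → ℕ) := by
    intro h
    have hn : (Sym.Rel (Fin.lastCases m e : Fin (N + 1) → ℕ)).Normal := Subgroup.normalClosure_normal
    refine hn.conj_mem _ (Subgroup.subset_normalClosure ⟨Fin.last N, ?_⟩) h
    simp only [per_last, Fin.lastCases_last]
  -- the map `q'`
  have hfac : J.ker ≤ q.ker := by
    intro z hz
    rw [MonoidHom.mem_ker] at hz ⊢
    exact (hk z).2 (hRR ((j2 z).1 hz))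
  obtain ⟨q', hq'⟩ : ∃ q' : Gg p s →* G, ∀ z, q' (J z) = q z := by
    obtain ⟨sec, hsec⟩ := j1.hasRightInverse
    refine ⟨J.liftOfRightInverse sec hsec ⟨q, hfac⟩, fun z => ?_⟩
    exact J.liftOfRightInverse_comp_apply sec hsec ⟨q, hfac⟩ z
  have hd : ∀ i : Fin s, q' (FreeGroup.of (Sum.inr i)) = 1 := by
    intro i
    have h3 : g i * xn N ^ m * (g i)⁻¹ ∈ K := hK.conj_mem _ h2 _
    obtain ⟨w, hw⟩ := j4 i ⟨_, h3⟩ rfl
    have h4 := hq' ⟨_, h3⟩
    rw [(hk _).2 (hxm (g i)), hw, map_mul, map_mul, map_inv] at h4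
    have e1 : q' (FreeGroup.of (Sum.inr i)) =
        (q' w)⁻¹ * (q' w * q' (FreeGroup.of (Sum.inr i)) * (q' w)⁻¹) * q' w := by group
    rw [e1, h4]
    group
  have hc : q' (cW p s) = 1 := by
    have h3 : g₀ * xn N ^ m * g₀⁻¹ ∈ K := hK.conj_mem _ h2 _
    have h4 := hq' ⟨_, h3⟩
    rw [(hk _).2 (hxm g₀), j3 ⟨_, h3⟩ rfl, map_inv, inv_eq_one] at h4
    exact h4
  set rels : Set (FreeGroup (Fin p ⊕ Fin p)) := {(List.ofFn (fun i : Fin p =>
            FreeGroup.of (Sum.inl i : Fin p ⊕ Fin p) *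
            FreeGroup.of (Sum.inr i : Fin p ⊕ Fin p) *
            (FreeGroup.of (Sum.inl i : Fin p ⊕ Fin p))⁻¹ *
            (FreeGroup.of (Sum.inr i : Fin p ⊕ Fin p))⁻¹)).prod} with hrels
  set Q := PresentedGroup rels with hQ
  -- the map `π'`
  set π' : Gg p s →* Q := FreeGroup.lift (fun x => match x with
    | Sum.inl (Sum.inl i) => (PresentedGroup.of (Sum.inl i) : Q)
    | Sum.inl (Sum.inr i) => (PresentedGroup.of (Sum.inr i) : Q)
    | Sum.inr _ => 1) with hπ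
  have π1 : ∀ i, π' (FreeGroup.of (Sum.inl (Sum.inl i))) = PresentedGroup.of (Sum.inl i) := by
    intro i; rw [hπ, FreeGroup.lift_apply_of]
  have π2 : ∀ i, π' (FreeGroup.of (Sum.inl (Sum.inr i))) = PresentedGroup.of (Sum.inr i) := by
    intro i; rw [hπ, FreeGroup.lift_apply_of]
  have π3 : ∀ i, π' (FreeGroup.of (Sum.inr i)) = 1 := by
    intro i; rw [hπ, FreeGroup.lift_apply_of]
  have hπc : π' (cW p s) = 1 := by
    rw [cW, map_mul, map_list_prod, map_list_prod]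
    have e1 : (List.map (⇑π') (List.ofFn fun i : Fin s =>
        FreeGroup.of (Sum.inr i : (Fin p ⊕ Fin p) ⊕ Fin s))).prod = 1 := by
      apply List.prod_eq_one
      intro x hx
      rw [List.map_ofFn, List.mem_ofFn] at hx
      obtain ⟨i, rfl⟩ := hx
      exact π3 i
    rw [e1, mul_one, List.map_ofFn]
    have e2 : (PresentedGroup.mk rels) (List.ofFn (fun i : Fin p =>
            FreeGroup.of (Sum.inl i : Fin p ⊕ Fin p) *
            FreeGroup.of (Sum.inr i : Fin p ⊕ Fin p) *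
            (FreeGroup.of (Sum.inl i : Fin p ⊕ Fin p))⁻¹ *
            (FreeGroup.of (Sum.inr i : Fin p ⊕ Fin p))⁻¹)).prod = 1 :=
      PresentedGroup.one_of_mem (by rw [hrels]; exact Set.mem_singleton _)
    rw [← e2, map_list_prod, List.map_ofFn]
    congr 1
  -- the map `Ψ`
  have hrel : ∀ r ∈ rels, FreeGroup.lift (Sum.elim
      (fun i => q' (FreeGroup.of (Sum.inl (Sum.inl i))))
      (fun i => q' (FreeGroup.of (Sum.inl (Sum.inr i))))) r = 1 := by
    intro r hr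
    rw [hrels, Set.mem_singleton_iff] at hr
    subst hr
    have h3 := hc
    rw [cW, map_mul, map_list_prod, map_list_prod] at h3
    have e1 : (List.map (⇑q') (List.ofFn fun i : Fin s =>
        FreeGroup.of (Sum.inr i : (Fin p ⊕ Fin p) ⊕ Fin s))).prod = 1 := by
      apply List.prod_eq_one
      intro x hx
      rw [List.map_ofFn, List.mem_ofFn] at hx
      obtain ⟨i, rfl⟩ := hx
      exact hd i
    rw [e1, mul_one, List.map_ofFn] at h3
    rw [← h3, map_list_prod, List.map_ofFn]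
    congr 1
    congr 1
    funext i
    simp
  set Ψ : Q →* G := PresentedGroup.toGroup hrel with hΨ
  have Ψ1 : ∀ i, Ψ (PresentedGroup.of (Sum.inl i)) = q' (FreeGroup.of (Sum.inl (Sum.inl i))) := by
    intro i; rw [hΨ, PresentedGroup.toGroup.of]; rfl
  have Ψ2 : ∀ i, Ψ (PresentedGroup.of (Sum.inr i)) = q' (FreeGroup.of (Sum.inl (Sum.inr i))) := by
    intro i; rw [hΨ, PresentedGroup.toGroup.of]; rfl
  have hΨπ : ∀ x, Ψ (π' x) = q' x := by
    intro x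
    have h3 : Ψ.comp π' = q' := by
      ext y
      rcases y with (i | i) | i
      · simp [π1, Ψ1]
      · simp [π2, Ψ2]
      · simp [π3, hd]
    exact congrArg (fun f => f x) h3
  have hπs : Function.Surjective π' := by
    rw [← MonoidHom.range_eq_top, ← top_le_iff, ← PresentedGroup.closure_range_of rels,
      Subgroup.closure_le]
    rintro _ ⟨i | i, rfl⟩
    · exact ⟨_, π1 i⟩
    · exact ⟨_, π2 i⟩
  -- the kernel
  have hkill : ∀ z : ↥K, (z : FF N) ∈ Sym.Rel (Fin.lastCases m e : Fin (N + 1) → ℕ) →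
      π' (J z) = 1 := by
    have hle : Sym.Rel (Fin.lastCases m e : Fin (N + 1) → ℕ) ≤ (π'.comp J).ker.map K.subtype := by
      unfold Sym.Rel
      rw [Subgroup.normalClosure, Subgroup.closure_le]
      intro x hx
      rw [Group.mem_conjugatesOfSet_iff] at hx
      obtain ⟨y, ⟨j, rfl⟩, hxy⟩ := hx
      obtain ⟨h, rfl⟩ := isConj_iff.1 hxy
      induction j using Fin.lastCases with
      | last =>
        simp only [Fin.lastCases_last, per_last]
        have h3 : h * xn N ^ m * h⁻¹ ∈ K := hK.conj_mem _ h2 _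
        refine ⟨⟨_, h3⟩, ?_, rfl⟩
        rw [SetLike.mem_coe, MonoidHom.mem_ker]
        change π' (J _) = 1
        rcases hg h with ⟨a, ha⟩ | ⟨i, a, ha⟩
        · have h4 : g₀ * xn N ^ m * g₀⁻¹ ∈ K := hK.conj_mem _ h2 _
          have e1 : (⟨_, h3⟩ : ↥K) = ⟨_, ha⟩ * ⟨_, h4⟩ * (⟨_, ha⟩ : ↥K)⁻¹ := by
            apply Subtype.ext
            change h * xn N ^ m * h⁻¹ = h * xn N ^ a * g₀⁻¹ * (g₀ * xn N ^ m * g₀⁻¹) *
              (h * xn N ^ a * g₀⁻¹)⁻¹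
            have e2 : h * xn N ^ a * g₀⁻¹ * (g₀ * xn N ^ m * g₀⁻¹) * (h * xn N ^ a * g₀⁻¹)⁻¹ =
                h * (xn N ^ a * xn N ^ m * (xn N ^ a)⁻¹) * h⁻¹ := by group
            have e3 : xn N ^ a * xn N ^ m * (xn N ^ a)⁻¹ = xn N ^ m := by
              rw [← zpow_natCast, ← zpow_add, add_comm, zpow_add, mul_inv_cancel_right]
            rw [e2, e3]
          rw [e1, map_mul, map_mul, map_inv, map_mul, map_mul, map_inv, j3 ⟨_, h4⟩ rfl, map_inv,
            hπc]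
          group
        · have h4 : g i * xn N ^ m * (g i)⁻¹ ∈ K := hK.conj_mem _ h2 _
          obtain ⟨w, hw⟩ := j4 i ⟨_, h4⟩ rfl
          have e1 : (⟨_, h3⟩ : ↥K) = ⟨_, ha⟩ * ⟨_, h4⟩ * (⟨_, ha⟩ : ↥K)⁻¹ := by
            apply Subtype.ext
            change h * xn N ^ m * h⁻¹ = h * xn N ^ a * (g i)⁻¹ * (g i * xn N ^ m * (g i)⁻¹) *
              (h * xn N ^ a * (g i)⁻¹)⁻¹
            have e2 : h * xn N ^ a * (g i)⁻¹ * (g i * xn N ^ m * (g i)⁻¹) *
                (h * xn N ^ a * (g i)⁻¹)⁻¹ =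
                h * (xn N ^ a * xn N ^ m * (xn N ^ a)⁻¹) * h⁻¹ := by group
            have e3 : xn N ^ a * xn N ^ m * (xn N ^ a)⁻¹ = xn N ^ m := by
              rw [← zpow_natCast, ← zpow_add, add_comm, zpow_add, mul_inv_cancel_right]
            rw [e2, e3]
          rw [e1, map_mul, map_mul, map_inv, map_mul, map_mul, map_inv, hw, map_mul, map_mul,
            map_inv, π3]
          group
      | cast j =>
        simp only [Fin.lastCases_castSucc, per_castSucc]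
        have h3 : h * FreeGroup.of j ^ e j * h⁻¹ ∈ K := hK.conj_mem _ (h1 j) _
        refine ⟨⟨_, h3⟩, ?_, rfl⟩
        rw [SetLike.mem_coe, MonoidHom.mem_ker]
        change π' (J _) = 1
        have h4 : h * FreeGroup.of j ^ e j * h⁻¹ ∈ Rel' e := by
          have hn : (Rel' e).Normal := Subgroup.normalClosure_normal
          exact hn.conj_mem _ (Subgroup.subset_normalClosure ⟨j, rfl⟩) h
        rw [(j2 ⟨_, h3⟩).2 h4, map_one]
    intro z hz
    obtain ⟨z', h3, h4⟩ := hle hz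
    have h5 : z' = z := Subtype.ext h4
    subst h5
    exact h3
  have hinj : Function.Injective Ψ := by
    rw [injective_iff_map_eq_one]
    intro y hy
    obtain ⟨x, rfl⟩ := hπs y
    obtain ⟨z, rfl⟩ := j1 x
    rw [hΨπ, hq'] at hy
    exact hkill z ((hk z).1 hy)
  have hsur : Function.Surjective Ψ := by
    intro y
    obtain ⟨z, rfl⟩ := hq y
    exact ⟨π' (J z), by rw [hΨπ, hq']⟩
  exact ⟨p, fun i => Ψ (PresentedGroup.of (Sum.inl i)), fun i => Ψ (PresentedGroup.of (Sum.inr i)),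
    ⟨MulEquiv.ofBijective Ψ ⟨hinj, hsur⟩, fun i => ⟨rfl, rfl⟩⟩, j5⟩

end Pool.MP_59b15d_al.H95
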