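import Mathlib

/-!
# Folding of quadratic words, part 1: prefixes of lists without repetition

`vl φ l` is the product of the values of `φ` along the list `l`, `pre L i` the prefix of `L` before `i`.
-/

set_option autoImplicit false

namespace Pool.MP_59b15d_al.H95

variable {I F : Type*} [DecidableEq I] [Group F]

/-- Product of the values of `φ` along a list. -/
def vl (φ : I → F) (l : List I) : F := (l.map φ).prod

omit [DecidableEq I] in
@[simp] theorem vl_nil (φ : I → F) : vl φ [] = 1 := by simp [vl]

omit [DecidableEq I] in
@[simp] theorem vl_cons (φ : I → F) (i : I) (l : List I) : vl φ (i :: l) = φ i * vl φ l := by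
  simp [vl]

omit [DecidableEq I] in
@[simp] theorem vl_append (φ : I → F) (l l' : List I) : vl φ (l ++ l') = vl φ l * vl φ l' := by
  simp [vl]

omit [DecidableEq I] in
theorem vl_one {φ : I → F} {l : List I} (h : ∀ j ∈ l, φ j = 1) : vl φ l = 1 := by
  induction l with
  | nil => simp
  | cons a l ih =>
    rw [vl_cons, h a (List.mem_cons_self), one_mul]
    exact ih fun j hj => h j (List.mem_cons_of_mem _ hj)

omit [DecidableEq I] in
theorem vl_congr {φ ψ : I → F} {l : List I} (h : ∀ j ∈ l, φ j = ψ j) : vl φ l = vl ψ l := by
  induction l with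
  | nil => simp
  | cons a l ih =>
    rw [vl_cons, vl_cons, h a (List.mem_cons_self),
      ih fun j hj => h j (List.mem_cons_of_mem _ hj)]

omit [DecidableEq I] in
theorem vl_map {J : Type*} (φ : I → F) (g : J → I) (l : List J) : vl φ (l.map g) = vl (φ ∘ g) l := by
  simp [vl]

omit [DecidableEq I] in
theorem map_vl {H : Type*} [Group H] (f : F →* H) (φ : I → F) (l : List I) :
    f (vl φ l) = vl (fun i => f (φ i)) l := by
  induction l with
  | nil => simp
  | cons a l ih => rw [vl_cons, vl_cons, map_mul, ih]

omit [DecidableEq I] in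
theorem vl_flatMap {J : Type*} (φ : I → F) (g : J → List I) (l : List J) :
    vl φ (l.flatMap g) = vl (fun j => vl φ (g j)) l := by
  induction l with
  | nil => simp
  | cons a l ih => rw [List.flatMap_cons, vl_append, vl_cons, ih]

/-- The prefix of `L` before `i`. -/
def pre (L : List I) (i : I) : List I := L.takeWhile fun j => decide (j ≠ i)

@[simp] theorem pre_nil (i : I) : pre [] i = [] := rfl

theorem pre_cons_self (L : List I) (i : I) : pre (i :: L) i = [] := by
  simp [pre]

theorem pre_cons_ne (L : List I) {i j : I} (h : j ≠ i) : pre (j :: L) i = j :: pre L i := by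
  simp [pre, h]

theorem pre_append_mem {A : List I} (B : List I) {i : I} (h : i ∈ A) :
    pre (A ++ B) i = pre A i := by
  induction A with
  | nil => simp at h
  | cons a A ih =>
    rw [List.cons_append]
    by_cases ha : a = i
    · subst ha
      rw [pre_cons_self, pre_cons_self]
    · rw [pre_cons_ne _ ha, pre_cons_ne _ ha, ih (by simpa [Ne.symm ha] using h)]

theorem pre_append_notMem {A : List I} (B : List I) {i : I} (h : i ∉ A) :
    pre (A ++ B) i = A ++ pre B i := by
  induction A with
  | nil => simp
  | cons a A ih =>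
    simp only [List.mem_cons, not_or] at h
    rw [List.cons_append, pre_cons_ne _ (Ne.symm h.1), ih h.2, List.cons_append]

theorem notMem_pre (L : List I) (i : I) : i ∉ pre L i := by
  intro h
  have := List.mem_takeWhile_imp h
  simp at this

theorem pre_split {L : List I} {i : I} (h : i ∈ L) : ∃ B, L = pre L i ++ i :: B := by
  induction L with
  | nil => simp at h
  | cons a L ih =>
    by_cases ha : a = i
    · subst ha
      exact ⟨L, by rw [pre_cons_self, List.nil_append]⟩
    · obtain ⟨B, hB⟩ := ih (by simpa [Ne.symm ha] using h)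
      exact ⟨B, by rw [pre_cons_ne _ ha, List.cons_append, ← hB]⟩

theorem mem_pre {L : List I} {i j : I} (h : j ∈ pre L i) : j ∈ L :=
  (List.takeWhile_sublist _).subset h

theorem pre_eq_of_split {A B : List I} {i : I} (h : (A ++ i :: B).Nodup) :
    pre (A ++ i :: B) i = A := by
  have h1 : i ∉ A := by
    intro hi
    rw [List.nodup_append] at h
    exact h.2.2 i hi i (List.mem_cons_self) rfl
  rw [pre_append_notMem _ h1, pre_cons_self, List.append_nil]

theorem pre_of_prefix {L l : List I} {j : I} (hL : L.Nodup) (h : l ++ [j] <+: L) :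
    pre L j = l := by
  obtain ⟨R, hR⟩ := h
  rw [← hR, List.append_assoc, List.singleton_append] at hL ⊢
  exact pre_eq_of_split hL

theorem pre_prefix (L : List I) (i : I) : pre L i <+: L := List.takeWhile_prefix _

theorem preq_prefix {L : List I} {i : I} (h : i ∈ L) : pre L i ++ [i] <+: L := by
  obtain ⟨B, hB⟩ := pre_split h
  exact ⟨B, by rw [List.append_assoc, List.singleton_append, ← hB]⟩

omit [DecidableEq I] in
/-- A function on prefixes is determined by its jumps. -/
theorem prefix_ind {L : List I} {N : List I → F} {ψ : I → F} (h0 : N [] = 1)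
    (hs : ∀ l j, l ++ [j] <+: L → N (l ++ [j]) = N l * ψ j) : ∀ l, l <+: L → N l = vl ψ l := by
  intro l
  induction l using List.reverseRecOn with
  | nil => intro _; rw [h0, vl_nil]
  | append_singleton l j ih =>
    intro h
    rw [hs l j h, ih ((List.prefix_append l [j]).trans h), vl_append, vl_cons, vl_nil, mul_one]

/-- Deleting two adjacent elements with inverse values. -/
theorem vl_pre_del {A B : List I} {k k' j : I} {φ : I → F} (hφ : φ k * φ k' = 1)
    (hk : j ≠ k) (hk' : j ≠ k') :
    vl φ (pre (A ++ k :: k' :: B) j) = vl φ (pre (A ++ B) j) := by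
  by_cases h : j ∈ A
  · rw [pre_append_mem _ h, pre_append_mem _ h]
  · rw [pre_append_notMem _ h, pre_append_notMem _ h, pre_cons_ne _ (Ne.symm hk),
      pre_cons_ne _ (Ne.symm hk'), vl_append, vl_cons, vl_cons, vl_append, ← mul_assoc (φ k), hφ,
      one_mul]

omit [DecidableEq I] in
theorem vl_del {A B : List I} {k k' : I} {φ : I → F} (hφ : φ k * φ k' = 1) :
    vl φ (A ++ k :: k' :: B) = vl φ (A ++ B) := by
  rw [vl_append, vl_cons, vl_cons, vl_append, ← mul_assoc (φ k), hφ, one_mul]

end Pool.MP_59b15d_al.H95
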