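import Pool.Agent.H.MP_59b15d_al.h95.Fd1

/-!
# Folding of quadratic words, part 2: diagrams and push automorphisms

A diagram is a list `L` of positions with a pairing `σ` and steps `ε` in a group, paired steps inverse to
each other.  `hh i` are the side pairing elements and `jmp i` the jumps of the push across `i`.
-/

set_option autoImplicit false

namespace Pool.MP_59b15d_al.H95

variable {I F : Type*} [DecidableEq I] [Group F]

/-- Diagrams. -/
structure IsD (L : List I) (σ : I → I) (ε : I → F) (c : F) : Prop where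
  nd : L.Nodup
  mem : ∀ i ∈ L, σ i ∈ L
  inv : ∀ i ∈ L, σ (σ i) = i
  ne : ∀ i ∈ L, σ i ≠ i
  eps : ∀ i ∈ L, ε (σ i) = (ε i)⁻¹
  val : vl ε L = c

/-- The side pairing element of the position `i`. -/
def hh (L : List I) (σ : I → I) (ε : I → F) (i : I) : F :=
  vl ε (pre L (σ i)) * (vl ε (pre L i) * ε i)⁻¹

/-- The jumps of the push across `i`. -/
def jmp (c : F) (σ : I → I) (h : I → F) (i j : I) : F :=
  if j = i then (h i)⁻¹ * c * h i else if j = σ i then c⁻¹ else 1

/-- `D` moves the path of the diagram by the function `M` of prefixes. -/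
structure RelM (L : List I) (σ : I → I) (ε : I → F) (c : F) (D : F →* F) (M : List I → F) :
    Prop where
  rel : ∀ j ∈ L, D (hh L σ ε j) = M (pre L (σ j) ++ [σ j]) * hh L σ ε j * (M (pre L j))⁻¹
  rel_c : D c = M L * c

/-- `D` is a push across `i`. -/
def Rel (L : List I) (σ : I → I) (ε : I → F) (c : F) (i : I) (D : F →* F) : Prop :=
  RelM L σ ε c D (vl (jmp c σ (hh L σ ε) i))

variable {L : List I} {σ : I → I} {ε : I → F} {c : F}

theorem IsD.hh_inv (hd : IsD L σ ε c) {i : I} (hi : i ∈ L) :
    hh L σ ε (σ i) = (hh L σ ε i)⁻¹ := by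
  unfold hh
  rw [hd.inv i hi, hd.eps i hi]
  group

theorem IsD.hh_inv' (hd : IsD L σ ε c) {i : I} (hi : i ∈ L) :
    hh L σ ε i = (hh L σ ε (σ i))⁻¹ := by
  rw [hd.hh_inv hi, inv_inv]

theorem jmp_self (h : I → F) (i : I) : jmp c σ h i i = (h i)⁻¹ * c * h i := by
  simp [jmp]

theorem jmp_sig (h : I → F) {i : I} (hi : σ i ≠ i) : jmp c σ h i (σ i) = c⁻¹ := by
  simp [jmp, hi]

theorem jmp_ne (h : I → F) {i j : I} (h1 : j ≠ i) (h2 : j ≠ σ i) : jmp c σ h i j = 1 := by
  simp [jmp, h1, h2]

/-- The second form of the relation. -/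
theorem RelM.rel' (hd : IsD L σ ε c) {D : F →* F} {M : List I → F} (h : RelM L σ ε c D M) {j : I}
    (hj : j ∈ L) :
    D (hh L σ ε j) = M (pre L (σ j)) * hh L σ ε j * (M (pre L j ++ [j]))⁻¹ := by
  have h1 := h.rel (σ j) (hd.mem j hj)
  rw [hd.inv j hj, hd.hh_inv hj, map_inv] at h1
  rw [← inv_inv (D (hh L σ ε j)), h1]
  group

/-- The product of the jumps of the push across `i`, seen from `i`. -/
theorem star (hd : IsD L σ ε c) {i : I} (hi : i ∈ L) (h : I → F) :
    (vl (jmp c σ h i) (pre L i))⁻¹ * (vl (jmp c σ h i) L * c) * vl (jmp c σ h i) (pre L i) =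
      (h i)⁻¹ * c * h i := by
  have hnd := hd.nd
  have hne := hd.ne i hi
  obtain ⟨B, hB⟩ := pre_split hi
  have hiA : i ∉ pre L i := notMem_pre L i
  generalize pre L i = A at hB hiA ⊢
  subst hB
  have hiB : i ∉ B := by
    intro h
    have := (List.nodup_append.1 hnd).2.1
    exact (List.nodup_cons.1 this).1 h
  have hmem := hd.mem i hi
  rcases List.mem_append.1 hmem with hs | hs
  · -- `σ i` before `i`
    obtain ⟨B', hB'⟩ := pre_split hs
    have h1 : vl (jmp c σ h i) A = c⁻¹ := by
      rw [hB', vl_append, vl_cons, jmp_sig h hne, vl_one, vl_one, one_mul, mul_one]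
      · intro j hj
        refine jmp_ne h ?_ ?_
        · rintro rfl
          exact hiA (by rw [hB']; simp [hj])
        · rintro rfl
          have h2 := (List.nodup_append.1 hnd).1
          rw [hB'] at h2
          exact (List.nodup_cons.1 (List.nodup_append.1 h2).2.1).1 hj
      · intro j hj
        refine jmp_ne h ?_ ?_
        · rintro rfl
          exact hiA (by rw [hB']; simp [hj])
        · rintro rfl
          exact notMem_pre A _ hj
    have h2 : vl (jmp c σ h i) B = 1 := by
      refine vl_one fun j hj => jmp_ne h ?_ ?_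
      · rintro rfl
        exact hiB hj
      · rintro rfl
        exact (List.nodup_append.1 hnd).2.2 _ hs _ (List.mem_cons_of_mem _ hj) rfl
    rw [vl_append, vl_cons, h1, h2, jmp_self]
    group
  · have hs' : σ i ∈ B := by
      rcases List.mem_cons.1 hs with h' | h'
      · exact absurd h' hne
      · exact h'
    obtain ⟨B', hB'⟩ := pre_split hs'
    have hnB : B.Nodup := (List.nodup_cons.1 (List.nodup_append.1 hnd).2.1).2
    have h1 : vl (jmp c σ h i) A = 1 := by
      refine vl_one fun j hj => jmp_ne h ?_ ?_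
      · rintro rfl
        exact hiA hj
      · rintro rfl
        exact (List.nodup_append.1 hnd).2.2 _ hj _ (List.mem_cons_of_mem _ hs') rfl
    have h2 : vl (jmp c σ h i) B = c⁻¹ := by
      rw [hB', vl_append, vl_cons, jmp_sig h hne, vl_one, vl_one, one_mul, mul_one]
      · intro j hj
        refine jmp_ne h ?_ ?_
        · rintro rfl
          exact hiB (by rw [hB']; simp [hj])
        · rintro rfl
          rw [hB'] at hnB
          exact (List.nodup_cons.1 (List.nodup_append.1 hnB).2.1).1 hj
      · intro j hj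
        refine jmp_ne h ?_ ?_
        · rintro rfl
          exact hiB (by rw [hB']; simp [hj])
        · rintro rfl
          exact notMem_pre B _ hj
    rw [vl_append, vl_cons, h1, h2, jmp_self]
    group

/-- Composition. -/
theorem RelM.comp {D₁ D₂ : F →* F} {M₁ M₂ : List I → F} (h1 : RelM L σ ε c D₁ M₁)
    (h2 : RelM L σ ε c D₂ M₂) : RelM L σ ε c (D₁.comp D₂) fun l => D₁ (M₂ l) * M₁ l := by
  constructor
  · intro j hj
    rw [MonoidHom.comp_apply, h2.rel j hj, map_mul, map_mul, h1.rel j hj, map_inv]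
    group
  · rw [MonoidHom.comp_apply, h2.rel_c, map_mul, h1.rel_c]
    group

theorem RelM.congr (hd : IsD L σ ε c) {D : F →* F} {M M' : List I → F}
    (h : RelM L σ ε c D M) (h' : ∀ l, l <+: L → M l = M' l) : RelM L σ ε c D M' := by
  constructor
  · intro j hj
    rw [h.rel j hj, h' _ (preq_prefix (hd.mem j hj)), h' _ (pre_prefix L j)]
  · rw [h.rel_c, h' L (List.prefix_refl L)]

omit [DecidableEq I] in
theorem Fd2_aux {x y a b : F} (h : x = a⁻¹ * y * b) : y = a * x * b⁻¹ := by
  rw [h]
  group

/-- Inverse of an automorphism. -/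
theorem RelM.symm {D : MulAut F} {M M' : List I → F} (hd : IsD L σ ε c)
    (h : RelM L σ ε c D.toMonoidHom M) (h' : ∀ l, l <+: L → D (M' l) * M l = 1) :
    RelM L σ ε c (D⁻¹ : MulAut F).toMonoidHom M' := by
  have key : ∀ l, l <+: L → (D⁻¹ : MulAut F) (M l) = (M' l)⁻¹ := by
    intro l hl
    have h1 := h' l hl
    rw [← inv_eq_iff_mul_eq_one] at h1
    rw [← h1, map_inv, MulAut.inv_apply_self]
  constructor
  · intro j hj
    have h1 := h.rel j hj
    have h2 := congrArg (D⁻¹ : MulAut F) h1
    change (D⁻¹ : MulAut F) (D (hh L σ ε j)) = _ at h2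
    rw [MulAut.inv_apply_self, map_mul, map_mul, map_inv, key _ (preq_prefix (hd.mem j hj)),
      key _ (pre_prefix L j), inv_inv] at h2
    exact Fd2_aux h2
  · have h1 := congrArg (D⁻¹ : MulAut F) h.rel_c
    change (D⁻¹ : MulAut F) (D c) = _ at h1
    rw [MulAut.inv_apply_self, map_mul, key _ (List.prefix_refl L)] at h1
    exact (mul_eq_of_eq_inv_mul h1).symm

/-- The pushes across `i` and `σ i` are inverse to each other: the key computation. -/
theorem Rel.cancel (hd : IsD L σ ε c) {i : I} (hi : i ∈ L) {D : F →* F} (h : Rel L σ ε c i D) :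
    ∀ l, l <+: L → D (vl (jmp c σ (hh L σ ε) (σ i)) l) * vl (jmp c σ (hh L σ ε) i) l = 1 := by
  have hne := hd.ne i hi
  set H := hh L σ ε with hH
  have hst := star hd hi H
  have key := prefix_ind (L := L)
    (N := fun l => D (vl (jmp c σ H (σ i)) l) * vl (jmp c σ H i) l) (ψ := fun _ => (1 : F))
    (by simp) ?_
  · intro l hl
    rw [key l hl]
    exact vl_one fun _ _ => rfl
  · intro l j hl
    have hpre := pre_of_prefix hd.nd hl
    simp only [vl_append, vl_cons, vl_nil, mul_one, map_mul]
    by_cases hji : j = i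
    · subst hji
      have h1 : jmp c σ H (σ j) j = c⁻¹ := by
        have h2 := jmp_sig (c := c) (σ := σ) H (i := σ j) (by rw [hd.inv j hi]; exact hne.symm)
        rwa [hd.inv j hi] at h2
      have h3 := h.rel_c
      rw [← hH] at h3
      rw [h1, jmp_self, map_inv, h3, ← hst, hpre]
      group
    · by_cases hjs : j = σ i
      · subst hjs
        rw [jmp_self, jmp_sig H hne]
        have h1 : H (σ i) = (H i)⁻¹ := hd.hh_inv hi
        have h2 := h.rel i hi
        rw [← hH] at h2
        have h3 := h.rel_c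
        rw [← hH] at h3
        rw [h1, inv_inv, map_mul, map_mul, map_inv, h2, h3]
        have h4 : vl (jmp c σ H i) (pre L (σ i) ++ [σ i]) = vl (jmp c σ H i) l * c⁻¹ := by
          rw [hpre, vl_append, vl_cons, vl_nil, mul_one, jmp_sig H hne]
        rw [h4]
        have h5 : vl (jmp c σ H i) L * c = vl (jmp c σ H i) (pre L i) * ((H i)⁻¹ * c * H i) *
            (vl (jmp c σ H i) (pre L i))⁻¹ := by
          rw [← hst]
          group
        rw [h5]
        group
      · rw [jmp_ne H hji hjs, jmp_ne H hjs (by rw [hd.inv i hi]; exact hji), map_one, mul_one,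
          mul_one]

/-- The inverse of a push across `i` is a push across `σ i`. -/
theorem Rel.symm (hd : IsD L σ ε c) {i : I} (hi : i ∈ L) {D : MulAut F}
    (h : Rel L σ ε c i D.toMonoidHom) : Rel L σ ε c (σ i) (D⁻¹ : MulAut F).toMonoidHom :=
  RelM.symm hd h fun l hl => Rel.cancel hd hi h l hl

end Pool.MP_59b15d_al.H95
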