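import Pool.Agent.H.MP_59b15d_al.h95.Fd2

/-!
# Folding of quadratic words, part 3: deleting two adjacent positions with inverse steps
-/

set_option autoImplicit false

namespace Pool.MP_59b15d_al.H95

variable {I F : Type*} [DecidableEq I] [Group F]

/-- The pairing after a fold: `a` and `b` are paired. -/
def fsig (σ : I → I) (a b : I) (j : I) : I := if j = a then b else if j = b then a else σ j

theorem fsig_a (σ : I → I) (a b : I) : fsig σ a b a = b := by simp [fsig]

theorem fsig_b (σ : I → I) {a b : I} (h : a ≠ b) : fsig σ a b b = a := by simp [fsig, h.symm]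

theorem fsig_ne (σ : I → I) {a b j : I} (h1 : j ≠ a) (h2 : j ≠ b) : fsig σ a b j = σ j := by
  simp [fsig, h1, h2]

omit [DecidableEq I] in
theorem mem_del {A B : List I} {k k' j : I} (h : j ∈ A ++ k :: k' :: B) (h1 : j ≠ k)
    (h2 : j ≠ k') : j ∈ A ++ B := by
  simp only [List.mem_append, List.mem_cons] at h ⊢
  tauto

omit [DecidableEq I] in
theorem mem_of_del {A B : List I} {k k' j : I} (h : j ∈ A ++ B) : j ∈ A ++ k :: k' :: B := by
  simp only [List.mem_append, List.mem_cons] at h ⊢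
  tauto

omit [DecidableEq I] in
theorem del_facts {A B : List I} {k k' : I} (h : (A ++ k :: k' :: B).Nodup) :
    (A ++ B).Nodup ∧ k ∉ A ++ B ∧ k' ∉ A ++ B ∧ k ≠ k' := by
  rw [List.nodup_append, List.nodup_cons, List.nodup_cons] at h
  obtain ⟨h1, ⟨h2, h3, h4⟩, h5⟩ := h
  refine ⟨?_, ?_, ?_, ?_⟩
  · rw [List.nodup_append]
    exact ⟨h1, h4, fun x hx y hy => h5 x hx y (by simp [hy])⟩
  · intro h
    rcases List.mem_append.1 h with h | h
    · exact h5 k h k (by simp) rfl
    · exact h2 (by simp [h])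
  · intro h
    rcases List.mem_append.1 h with h | h
    · exact h5 k' h k' (by simp) rfl
    · exact h3 h
  · rintro rfl
    exact h2 (by simp)

variable {A B : List I} {k k' : I} {σ : I → I} {ε : I → F} {c : F}

set_option linter.unusedSectionVars false

/-- Data of a fold. -/
structure IsFold (A B : List I) (k k' : I) (σ : I → I) (ε : I → F) (c : F) : Prop where
  hd : IsD (A ++ k :: k' :: B) σ ε c
  step : ε k * ε k' = 1
  ne : σ k ≠ k'

theorem IsFold.mem_k (_h : IsFold A B k k' σ ε c) : k ∈ A ++ k :: k' :: B := by simp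

theorem IsFold.mem_k' (_h : IsFold A B k k' σ ε c) : k' ∈ A ++ k :: k' :: B := by simp

theorem IsFold.a_ne (h : IsFold A B k k' σ ε c) : σ k ≠ k := h.hd.ne k h.mem_k

theorem IsFold.b_ne' (h : IsFold A B k k' σ ε c) : σ k' ≠ k' := h.hd.ne k' h.mem_k'

theorem IsFold.b_ne (h : IsFold A B k k' σ ε c) : σ k' ≠ k := by
  intro hb
  apply h.ne
  rw [← hb, h.hd.inv k' h.mem_k']

theorem IsFold.kk (h : IsFold A B k k' σ ε c) : k ≠ k' := (del_facts h.hd.nd).2.2.2

theorem IsFold.ab (h : IsFold A B k k' σ ε c) : σ k ≠ σ k' := by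
  intro hab
  apply h.kk
  rw [← h.hd.inv k h.mem_k, hab, h.hd.inv k' h.mem_k']

theorem IsFold.sa (h : IsFold A B k k' σ ε c) : σ (σ k) = k := h.hd.inv k h.mem_k

theorem IsFold.sb (h : IsFold A B k k' σ ε c) : σ (σ k') = k' := h.hd.inv k' h.mem_k'

theorem IsFold.a_mem (h : IsFold A B k k' σ ε c) : σ k ∈ A ++ B :=
  mem_del (h.hd.mem k h.mem_k) h.a_ne h.ne

theorem IsFold.b_mem (h : IsFold A B k k' σ ε c) : σ k' ∈ A ++ B :=
  mem_del (h.hd.mem k' h.mem_k') h.b_ne h.b_ne'

theorem IsFold.ne_k (h : IsFold A B k k' σ ε c) {j : I} (hj : j ∈ A ++ B) : j ≠ k := by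
  rintro rfl
  exact (del_facts h.hd.nd).2.1 hj

theorem IsFold.ne_k' (h : IsFold A B k k' σ ε c) {j : I} (hj : j ∈ A ++ B) : j ≠ k' := by
  rintro rfl
  exact (del_facts h.hd.nd).2.2.1 hj

theorem IsFold.s_ne_k (h : IsFold A B k k' σ ε c) {j : I} (hj : j ∈ A ++ B) (h1 : j ≠ σ k) :
    σ j ≠ k := by
  intro h2
  apply h1
  rw [← h2, h.hd.inv j (mem_of_del hj)]

theorem IsFold.s_ne_k' (h : IsFold A B k k' σ ε c) {j : I} (hj : j ∈ A ++ B) (h1 : j ≠ σ k') :
    σ j ≠ k' := by
  intro h2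
  apply h1
  rw [← h2, h.hd.inv j (mem_of_del hj)]

theorem IsFold.s_mem (h : IsFold A B k k' σ ε c) {j : I} (hj : j ∈ A ++ B) (h1 : j ≠ σ k)
    (h2 : j ≠ σ k') : σ j ∈ A ++ B :=
  mem_del (h.hd.mem j (mem_of_del hj)) (h.s_ne_k hj h1) (h.s_ne_k' hj h2)

/-- The folded diagram. -/
theorem IsFold.isD (h : IsFold A B k k' σ ε c) : IsD (A ++ B) (fsig σ (σ k) (σ k')) ε c := by
  have hab := h.ab
  refine ⟨(del_facts h.hd.nd).1, ?_, ?_, ?_, ?_, ?_⟩
  · intro j hj
    by_cases h1 : j = σ k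
    · rw [h1, fsig_a]
      exact h.b_mem
    · by_cases h2 : j = σ k'
      · rw [h2, fsig_b _ hab]
        exact h.a_mem
      · rw [fsig_ne _ h1 h2]
        exact h.s_mem hj h1 h2
  · intro j hj
    by_cases h1 : j = σ k
    · rw [h1, fsig_a, fsig_b _ hab]
    · by_cases h2 : j = σ k'
      · rw [h2, fsig_b _ hab, fsig_a]
      · rw [fsig_ne _ h1 h2, fsig_ne, h.hd.inv j (mem_of_del hj)]
        · intro h3
          apply h.ne_k hj
          rw [← h.hd.inv j (mem_of_del hj), h3, h.sa]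
        · intro h3
          apply h.ne_k' hj
          rw [← h.hd.inv j (mem_of_del hj), h3, h.sb]
  · intro j hj
    by_cases h1 : j = σ k
    · rw [h1, fsig_a]
      exact hab.symm
    · by_cases h2 : j = σ k'
      · rw [h2, fsig_b _ hab]
        exact hab
      · rw [fsig_ne _ h1 h2]
        exact h.hd.ne j (mem_of_del hj)
  · have e1 := h.hd.eps k h.mem_k
    have e2 := h.hd.eps k' h.mem_k'
    have e3 : ε k' = (ε k)⁻¹ := (inv_eq_of_mul_eq_one_right h.step).symm
    intro j hj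
    by_cases h1 : j = σ k
    · rw [h1, fsig_a, e1, e2, e3]
    · by_cases h2 : j = σ k'
      · rw [h2, fsig_b _ hab, e1, e2, e3, inv_inv]
      · rw [fsig_ne _ h1 h2]
        exact h.hd.eps j (mem_of_del hj)
  · rw [← h.hd.val, vl_del h.step]

theorem IsFold.pre_k (h : IsFold A B k k' σ ε c) : pre (A ++ k :: k' :: B) k = A :=
  pre_eq_of_split h.hd.nd

theorem IsFold.pre_k' (h : IsFold A B k k' σ ε c) : pre (A ++ k :: k' :: B) k' = A ++ [k] := by
  have h1 : A ++ k :: k' :: B = (A ++ [k]) ++ k' :: B := by simp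
  have h2 := h.hd.nd
  rw [h1] at h2 ⊢
  exact pre_eq_of_split h2

theorem IsFold.hh_ne (h : IsFold A B k k' σ ε c) {j : I} (hj : j ∈ A ++ B) (h1 : j ≠ σ k)
    (h2 : j ≠ σ k') :
    hh (A ++ B) (fsig σ (σ k) (σ k')) ε j = hh (A ++ k :: k' :: B) σ ε j := by
  unfold hh
  rw [fsig_ne _ h1 h2, vl_pre_del h.step (h.ne_k hj) (h.ne_k' hj),
    vl_pre_del h.step (h.s_ne_k hj h1) (h.s_ne_k' hj h2)]

theorem IsFold.hh_a (h : IsFold A B k k' σ ε c) :
    hh (A ++ B) (fsig σ (σ k) (σ k')) ε (σ k) =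
      hh (A ++ k :: k' :: B) σ ε k' * hh (A ++ k :: k' :: B) σ ε (σ k) := by
  have e1 := h.hd.eps k h.mem_k
  have e3 : ε k' = (ε k)⁻¹ := (inv_eq_of_mul_eq_one_right h.step).symm
  unfold hh
  rw [fsig_a, h.sa, h.pre_k, h.pre_k', e1, vl_append, vl_cons, vl_nil, e3,
    vl_pre_del h.step h.b_ne h.b_ne', vl_pre_del h.step h.a_ne h.ne]
  group

/-- A relation whose function has trivial total jump at `k, k'` descends to the folded diagram. -/
theorem IsFold.relM (h : IsFold A B k k' σ ε c) {D : F →* F} {ψ : I → F} (hψ : ψ k * ψ k' = 1)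
    (hr : RelM (A ++ k :: k' :: B) σ ε c D (vl ψ)) :
    RelM (A ++ B) (fsig σ (σ k) (σ k')) ε c D (vl ψ) := by
  have hab := h.ab
  have hq : ∀ j, j ≠ k → j ≠ k' → vl ψ (pre (A ++ k :: k' :: B) j ++ [j]) =
      vl ψ (pre (A ++ B) j ++ [j]) := by
    intro j h1 h2
    rw [vl_append, vl_append, vl_pre_del hψ h1 h2]
  constructor
  · intro j hj
    by_cases h1 : j = σ k
    · -- `j = a`
      subst h1
      have r1 := hr.rel k' h.mem_k'
      have r2 := hr.rel (σ k) (mem_of_del h.a_mem)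
      rw [h.sa] at r2
      rw [h.hh_a, map_mul, r1, r2, fsig_a, h.pre_k, h.pre_k', ← hq _ h.b_ne h.b_ne',
        ← vl_pre_del (A := A) (B := B) hψ h.a_ne h.ne]
      group
    · by_cases h2 : j = σ k'
      · subst h2
        have r1 := hr.rel k h.mem_k
        have r2 := hr.rel (σ k') (mem_of_del h.b_mem)
        rw [h.sb] at r2
        have e1 : hh (A ++ B) (fsig σ (σ k) (σ k')) ε (σ k') =
            hh (A ++ k :: k' :: B) σ ε k * hh (A ++ k :: k' :: B) σ ε (σ k') := by
          have h3 := h.isD.hh_inv h.a_mem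
          rw [fsig_a] at h3
          rw [h3, h.hh_a, h.hd.hh_inv h.mem_k, h.hd.hh_inv h.mem_k']
          group
        rw [e1, map_mul, r1, r2, fsig_b _ hab, h.pre_k, h.pre_k', ← hq _ h.a_ne h.ne,
          ← vl_pre_del (A := A) (B := B) hψ h.b_ne h.b_ne']
        have e2 : vl ψ (A ++ [k] ++ [k']) = vl ψ A := by
          rw [vl_append, vl_append, vl_cons, vl_cons, vl_nil, mul_one, mul_one, mul_assoc, hψ,
            mul_one]
        rw [e2]
        group
      · rw [h.hh_ne hj h1 h2, hr.rel j (mem_of_del hj), fsig_ne _ h1 h2,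
          hq _ (h.s_ne_k hj h1) (h.s_ne_k' hj h2), vl_pre_del hψ (h.ne_k hj) (h.ne_k' hj)]
  · rw [hr.rel_c, vl_del hψ]

/-- Pushes across the other positions descend. -/
theorem IsFold.rel_ne (h : IsFold A B k k' σ ε c) {i : I} (hi : i ∈ A ++ B) (h1 : i ≠ σ k)
    (h2 : i ≠ σ k') {D : F →* F} (hr : Rel (A ++ k :: k' :: B) σ ε c i D) :
    Rel (A ++ B) (fsig σ (σ k) (σ k')) ε c i D := by
  unfold Rel at hr ⊢
  have e1 : jmp c σ (hh (A ++ k :: k' :: B) σ ε) i =
      jmp c (fsig σ (σ k) (σ k')) (hh (A ++ B) (fsig σ (σ k) (σ k')) ε) i := by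
    funext j
    unfold jmp
    rw [h.hh_ne hi h1 h2, fsig_ne _ h1 h2]
  rw [← e1]
  refine h.relM ?_ hr
  rw [jmp_ne _ (h.ne_k hi).symm (h.s_ne_k hi h1).symm, jmp_ne _ (h.ne_k' hi).symm
    (h.s_ne_k' hi h2).symm, one_mul]

/-- The jumps of the composite push. -/
def cjmp (c : F) (σ : I → I) (H : I → F) (k k' : I) (j : I) : F :=
  if j = σ k then (H k' * H (σ k))⁻¹ * c * (H k' * H (σ k)) else if j = σ k' then c⁻¹ else
    if j = k then ((H k')⁻¹ * c * H k')⁻¹ else if j = k' then (H k')⁻¹ * c * H k' else 1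

/-- The new push. -/
theorem IsFold.rel_a (h : IsFold A B k k' σ ε c) {D₁ D₂ : F →* F}
    (hr₁ : Rel (A ++ k :: k' :: B) σ ε c k' D₁) (hr₂ : Rel (A ++ k :: k' :: B) σ ε c (σ k) D₂) :
    Rel (A ++ B) (fsig σ (σ k) (σ k')) ε c (σ k) (D₁.comp D₂) := by
  have hab := h.ab
  have hd := h.hd
  have pk := h.pre_k
  have pk' := h.pre_k'
  have mk := h.mem_k
  have mk' := h.mem_k'
  have hkk := h.kk
  have hne := h.ne
  have hane := h.a_ne
  have hbne := h.b_ne
  have hbne' := h.b_ne'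
  have hsa := h.sa
  have hha := h.hh_a
  set L := A ++ k :: k' :: B with hL
  set H := hh L σ ε with hH
  have hst := star hd mk' H
  rw [pk'] at hst
  have hrel : RelM L σ ε c (D₁.comp D₂)
      fun l => D₁ (vl (jmp c σ H (σ k)) l) * vl (jmp c σ H k') l := RelM.comp hr₁ hr₂
  have hrc := hr₁.rel_c
  rw [← hH] at hrc
  have hrel2 : RelM L σ ε c (D₁.comp D₂) (vl (cjmp c σ H k k')) := by
    refine RelM.congr hd hrel (prefix_ind (by simp) ?_)
    intro l j hl
    have hpre := pre_of_prefix hd.nd hl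
    have hj : j ∈ L := hl.subset (by simp)
    simp only [vl_append, vl_cons, vl_nil, mul_one, map_mul]
    have hc : D₁ c = vl (jmp c σ H k') (A ++ [k]) * ((H k')⁻¹ * c * H k') *
        (vl (jmp c σ H k') (A ++ [k]))⁻¹ := by
      rw [hrc, ← hst]
      group
    by_cases h1 : j = σ k
    · -- `j = a`
      subst h1
      rw [jmp_self, jmp_ne (i := k') H hne hab]
      have e1 : cjmp c σ H k k' (σ k) = (H k' * H (σ k))⁻¹ * c * (H k' * H (σ k)) := by
        simp [cjmp]
      have r1 := hr₁.rel (σ k) hj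
      rw [← hH, hsa, pk, hpre] at r1
      rw [e1, map_mul, map_mul, map_inv, r1, hc]
      group
    · by_cases h2 : j = σ k'
      · subst h2
        have e1 : cjmp c σ H k k' (σ k') = c⁻¹ := by
          simp [cjmp, hab.symm]
        rw [e1, jmp_sig H hbne', jmp_ne (i := σ k) H hab.symm (by rw [hsa]; exact hbne), map_one]
        group
      · by_cases h3 : j = k
        · subst h3
          have e1 : cjmp c σ H j k' j = ((H k')⁻¹ * c * H k')⁻¹ := by
            simp [cjmp, hane.symm, hbne.symm]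
          have e2 : jmp c σ H (σ j) j = c⁻¹ := by
            have e3 := jmp_sig (c := c) (σ := σ) H (i := σ j) (by rw [hsa]; exact hane.symm)
            rwa [hsa] at e3
          rw [e1, e2, jmp_ne (i := k') H hkk hbne.symm, map_inv, hc]
          have e4 : vl (jmp c σ H k') (A ++ [j]) = vl (jmp c σ H k') l := by
            rw [← hpre, pk, vl_append, vl_cons, vl_nil, jmp_ne (i := k') H hkk hbne.symm, mul_one,
              mul_one]
          rw [e4]
          group
        · by_cases h4 : j = k'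
          · subst h4
            have e1 : cjmp c σ H k j j = (H j)⁻¹ * c * H j := by
              simp [cjmp, hne.symm, hbne'.symm, hkk.symm]
            rw [e1, jmp_self, jmp_ne (i := σ k) H hne.symm (by rw [hsa]; exact hkk.symm), map_one]
            group
          · have e1 : cjmp c σ H k k' j = 1 := by
              simp [cjmp, h1, h2, h3, h4]
            rw [e1, jmp_ne (i := σ k) H h1 (by rw [hsa]; exact h3), jmp_ne (i := k') H h4 h2, map_one]
            group
  have hψ : cjmp c σ H k k' k * cjmp c σ H k k' k' = 1 := by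
    simp [cjmp, hane.symm, hbne.symm, hne.symm, hbne'.symm, hkk.symm]
    group
  have hrel3 := h.relM hψ hrel2
  refine RelM.congr h.isD hrel3 fun l hl => vl_congr fun j hj => ?_
  have hj' : j ∈ A ++ B := hl.subset hj
  unfold cjmp jmp
  rw [hha, fsig_a]
  simp [h.ne_k hj', h.ne_k' hj']

omit [DecidableEq I] in
/-- The leaf case: `k` and `k'` are paired with each other. -/
theorem leaf_isD (hd : IsD (A ++ k :: k' :: B) σ ε c) (hs : σ k = k') : IsD (A ++ B) σ ε c := by
  have mk : k ∈ A ++ k :: k' :: B := by simp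
  have mk' : k' ∈ A ++ k :: k' :: B := by simp
  have hf := del_facts hd.nd
  have hs' : σ k' = k := by rw [← hs, hd.inv k mk]
  have hstep : ε k * ε k' = 1 := by rw [← hs, hd.eps k mk, mul_inv_cancel]
  refine ⟨hf.1, ?_, fun j hj => hd.inv j (mem_of_del hj), fun j hj => hd.ne j (mem_of_del hj),
    fun j hj => hd.eps j (mem_of_del hj), ?_⟩
  · intro j hj
    refine mem_del (hd.mem j (mem_of_del hj)) ?_ ?_
    · intro h1
      apply hf.2.2.1
      rw [← hs, ← h1, hd.inv j (mem_of_del hj)]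
      exact hj
    · intro h1
      apply hf.2.1
      rw [← hs', ← h1, hd.inv j (mem_of_del hj)]
      exact hj
  · rw [← hd.val, vl_del hstep]

theorem leaf_hh (hd : IsD (A ++ k :: k' :: B) σ ε c) (hs : σ k = k') {j : I} (hj : j ∈ A ++ B) :
    hh (A ++ B) σ ε j = hh (A ++ k :: k' :: B) σ ε j := by
  have mk : k ∈ A ++ k :: k' :: B := by simp
  have hf := del_facts hd.nd
  have hstep : ε k * ε k' = 1 := by rw [← hs, hd.eps k mk, mul_inv_cancel]
  have n1 : ∀ j ∈ A ++ B, j ≠ k := by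
    rintro j hj rfl
    exact hf.2.1 hj
  have n2 : ∀ j ∈ A ++ B, j ≠ k' := by
    rintro j hj rfl
    exact hf.2.2.1 hj
  have hj' := (leaf_isD hd hs).mem j hj
  unfold hh
  rw [vl_pre_del hstep (n1 _ hj) (n2 _ hj), vl_pre_del hstep (n1 _ hj') (n2 _ hj')]

theorem leaf_rel (hd : IsD (A ++ k :: k' :: B) σ ε c) (hs : σ k = k') {i : I} (hi : i ∈ A ++ B)
    {D : F →* F} (hr : Rel (A ++ k :: k' :: B) σ ε c i D) : Rel (A ++ B) σ ε c i D := by
  have mk : k ∈ A ++ k :: k' :: B := by simp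
  have mk' : k' ∈ A ++ k :: k' :: B := by simp
  have hf := del_facts hd.nd
  have hs' : σ k' = k := by rw [← hs, hd.inv k mk]
  have hstep : ε k * ε k' = 1 := by rw [← hs, hd.eps k mk, mul_inv_cancel]
  have n1 : ∀ j ∈ A ++ B, j ≠ k := by
    rintro j hj rfl
    exact hf.2.1 hj
  have n2 : ∀ j ∈ A ++ B, j ≠ k' := by
    rintro j hj rfl
    exact hf.2.2.1 hj
  have hd' := leaf_isD hd hs
  have e1 : ∀ j ∈ A ++ B, hh (A ++ B) σ ε j = hh (A ++ k :: k' :: B) σ ε j := by
    intro j hj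
    have hj' := hd'.mem j hj
    unfold hh
    rw [vl_pre_del hstep (n1 _ hj) (n2 _ hj), vl_pre_del hstep (n1 _ hj') (n2 _ hj')]
  have hψ : jmp c σ (hh (A ++ k :: k' :: B) σ ε) i k *
      jmp c σ (hh (A ++ k :: k' :: B) σ ε) i k' = 1 := by
    have hi' := hd'.mem i hi
    rw [jmp_ne _ (n1 _ hi).symm (n1 _ hi').symm, jmp_ne _ (n2 _ hi).symm (n2 _ hi').symm, one_mul]
  have e2 : ∀ j, jmp c σ (hh (A ++ B) σ ε) i j = jmp c σ (hh (A ++ k :: k' :: B) σ ε) i j := by
    intro j
    unfold jmp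
    rw [e1 i hi]
  have e3 : ∀ l, vl (jmp c σ (hh (A ++ B) σ ε) i) l =
      vl (jmp c σ (hh (A ++ k :: k' :: B) σ ε) i) l := fun l => vl_congr fun j _ => e2 j
  constructor
  · intro j hj
    have hj' := hd'.mem j hj
    rw [e1 j hj, hr.rel j (mem_of_del hj), e3, e3, vl_append, vl_append,
      vl_pre_del hψ (n1 _ hj) (n2 _ hj), vl_pre_del hψ (n1 _ hj') (n2 _ hj')]
  · rw [hr.rel_c, e3, vl_del hψ]

end Pool.MP_59b15d_al.H95
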