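import Pool.Agent.H.MP_59b15d_al.h95.Fd3

/-!
# Folding of quadratic words, part 4: folding until the path is reduced

The pushes are followed together with their side pairing elements: `K` is a subgroup of
`MulAut F × F`.
-/

set_option autoImplicit false

namespace Pool.MP_59b15d_al.H95

variable {I F : Type*} [DecidableEq I] [Group F] {σ : I → I} {ε : I → F} {c : F}

/-- The pushes of the diagram lie in `K`, together with their side pairing elements. -/
def InK (K : Subgroup (MulAut F × F)) (L : List I) (σ : I → I) (ε : I → F) (c : F) : Prop :=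
  ∀ i ∈ L, ∃ D : MulAut F, (D, hh L σ ε i) ∈ K ∧ Rel L σ ε c i D.toMonoidHom

/-- One fold. -/
theorem fold_step {K : Subgroup (MulAut F × F)} {A B : List I} {k k' : I}
    (hd : IsD (A ++ k :: k' :: B) σ ε c) (hs : ε k * ε k' = 1)
    (hK : InK K (A ++ k :: k' :: B) σ ε c) :
    ∃ σ' : I → I, IsD (A ++ B) σ' ε c ∧ InK K (A ++ B) σ' ε c := by
  by_cases hk : σ k = k'
  · refine ⟨σ, leaf_isD hd hk, fun i hi => ?_⟩
    obtain ⟨D, hD, hr⟩ := hK i (mem_of_del hi)
    refine ⟨D, ?_, leaf_rel hd hk hi hr⟩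
    rwa [leaf_hh hd hk hi]
  · have h : IsFold A B k k' σ ε c := ⟨hd, hs, hk⟩
    have key : ∃ D : MulAut F, (D, hh (A ++ B) (fsig σ (σ k) (σ k')) ε (σ k)) ∈ K ∧
        Rel (A ++ B) (fsig σ (σ k) (σ k')) ε c (σ k) D.toMonoidHom := by
      obtain ⟨D₁, h1, r1⟩ := hK k' h.mem_k'
      obtain ⟨D₂, h2, r2⟩ := hK (σ k) (mem_of_del h.a_mem)
      refine ⟨D₁ * D₂, ?_, h.rel_a r1 r2⟩
      rw [h.hh_a]
      exact K.mul_mem h1 h2
    refine ⟨fsig σ (σ k) (σ k'), h.isD, fun i hi => ?_⟩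
    by_cases h1 : i = σ k
    · subst h1
      exact key
    · by_cases h2 : i = σ k'
      · subst h2
        obtain ⟨D, hD, hr⟩ := key
        have h3 := Rel.symm h.isD h.a_mem hr
        have h4 := h.isD.hh_inv h.a_mem
        rw [fsig_a] at h3 h4
        refine ⟨D⁻¹, ?_, h3⟩
        rw [h4]
        exact K.inv_mem hD
      · obtain ⟨D, hD, hr⟩ := hK i (mem_of_del hi)
        refine ⟨D, ?_, h.rel_ne hi h1 h2 hr⟩
        rwa [h.hh_ne hi h1 h2]

/-- Folding until no two adjacent steps cancel. -/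
theorem fold_all {K : Subgroup (MulAut F × F)} (n : ℕ) : ∀ (L : List I) (σ : I → I), L.length = n →
    IsD L σ ε c → InK K L σ ε c →
    ∃ (L' : List I) (σ' : I → I), IsD L' σ' ε c ∧ InK K L' σ' ε c ∧
      (∀ i ∈ L', i ∈ L) ∧ ∀ A k k' B, L' = A ++ k :: k' :: B → ε k * ε k' ≠ 1 := by
  induction n using Nat.strong_induction_on with
  | _ n ih =>
    intro L σ hn hd hK
    by_cases h : ∀ A k k' B, L = A ++ k :: k' :: B → ε k * ε k' ≠ 1
    · exact ⟨L, σ, hd, hK, fun i hi => hi, h⟩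
    · push Not at h
      obtain ⟨A, k, k', B, rfl, hs⟩ := h
      obtain ⟨σ', hd', hK'⟩ := fold_step hd hs hK
      have hlt : (A ++ B).length < n := by
        rw [← hn]
        simp
      obtain ⟨L', σ'', h1, h2, h3, h4⟩ := ih (A ++ B).length hlt (A ++ B) σ' rfl hd' hK'
      exact ⟨L', σ'', h1, h2, fun i hi => mem_of_del (h3 i hi), h4⟩

end Pool.MP_59b15d_al.H95
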