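import Pool.Agent.H.MP_59b15d_al.h95.Fd2

/-!
# Folding of quadratic words, part 5: the subdivided diagram of an automorphism fixing `c`

`L` is a diagram for `c`, `f` an automorphism with `f c = c` and `w z` a list of elements with product
`f (ε z)`, inverse lists for paired positions.  The subdivided diagram has positions `(z, t)`.
-/

set_option autoImplicit false
set_option linter.unusedSectionVars false

namespace Pool.MP_59b15d_al.H95

section Range

variable {F : Type*} [Group F]

theorem vl_range_jump {g : ℕ → F} {s : ℕ} (hg : ∀ r, r ≠ s → g r = 1) (t : ℕ) :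
    vl g (List.range t) = if s < t then g s else 1 := by
  induction t with
  | zero => simp
  | succ t ih =>
    rw [List.range_succ, vl_append, vl_cons, vl_nil, mul_one, ih]
    by_cases h1 : s < t
    · rw [if_pos h1, if_pos (by omega), hg t (by omega), mul_one]
    · by_cases h2 : s = t
      · subst h2
        rw [if_neg h1, if_pos (by omega), one_mul]
      · rw [if_neg h1, if_neg (by omega), hg t (by omega), mul_one]

theorem vl_range_getD (l : List F) (t : ℕ) (ht : t ≤ l.length) :
    vl (fun s => l.getD s 1) (List.range t) = (l.take t).prod := by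
  induction t with
  | zero => simp
  | succ t ih =>
    rw [List.range_succ, vl_append, vl_cons, vl_nil, mul_one, ih (by omega), List.take_add_one,
      List.prod_append]
    congr 1
    have h : t < l.length := by omega
    simp [List.getD, List.getElem?_eq_getElem h]

end Range

variable {Z F : Type*} [DecidableEq Z] [Group F]

/-- The block of positions over `z`. -/
def blk (w : Z → List F) (z : Z) : List (Z × ℕ) := (List.range (w z).length).map fun t => (z, t)

/-- The subdivided list. -/
def sub (w : Z → List F) (L : List Z) : List (Z × ℕ) := L.flatMap (blk w)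

/-- The pairing of the subdivided list. -/
def ssig (w : Z → List F) (σ : Z → Z) (p : Z × ℕ) : Z × ℕ := (σ p.1, (w p.1).length - 1 - p.2)

/-- The steps of the subdivided list. -/
def seps (w : Z → List F) (p : Z × ℕ) : F := (w p.1).getD p.2 1

omit [DecidableEq Z] in
theorem mem_sub {w : Z → List F} {L : List Z} {z : Z} {t : ℕ} :
    (z, t) ∈ sub w L ↔ z ∈ L ∧ t < (w z).length := by
  simp only [sub, blk, List.mem_flatMap, List.mem_map, List.mem_range, Prod.mk.injEq]
  constructor
  · rintro ⟨a, ha, s, hs, h1, h2⟩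
    subst h1 h2
    exact ⟨ha, hs⟩
  · rintro ⟨h1, h2⟩
    exact ⟨z, h1, t, h2, rfl, rfl⟩

omit [DecidableEq Z] in
theorem nodup_sub {w : Z → List F} {L : List Z} (h : L.Nodup) : (sub w L).Nodup := by
  unfold sub
  rw [List.nodup_flatMap]
  refine ⟨fun z _ => ?_, ?_⟩
  · unfold blk
    exact List.nodup_range.map fun a b hab => (Prod.mk.injEq _ _ _ _ ▸ hab).2
  · refine h.imp fun {a b} hab => ?_
    rw [Function.onFun, List.disjoint_left]
    rintro ⟨z, t⟩ h1 h2
    simp only [blk, List.mem_map, List.mem_range, Prod.mk.injEq] at h1 h2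
    obtain ⟨_, _, h3, _⟩ := h1
    obtain ⟨_, _, h4, _⟩ := h2
    exact hab (h3.trans h4.symm)

theorem pre_sub {w : Z → List F} {L : List Z} (h : L.Nodup) {z : Z} {t : ℕ} (hz : z ∈ L)
    (ht : t < (w z).length) :
    pre (sub w L) (z, t) = sub w (pre L z) ++ (List.range t).map fun s => (z, s) := by
  obtain ⟨B, hB⟩ := pre_split hz
  obtain ⟨m, hm⟩ : ∃ m, (w z).length = t + (1 + m) := ⟨(w z).length - t - 1, by omega⟩
  have h1 : blk w z = (List.range t).map (fun s => (z, s)) ++
      (z, t) :: (List.range m).map (fun s => (z, t + 1 + s)) := by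
    unfold blk
    rw [hm, List.range_add, List.map_append, List.range_add]
    simp [List.range_succ, Function.comp_def, add_assoc]
  have h2 : sub w L = (sub w (pre L z) ++ (List.range t).map fun s => (z, s)) ++
      (z, t) :: ((List.range m).map (fun s => (z, t + 1 + s)) ++ sub w B) := by
    conv_lhs => rw [hB]
    unfold sub
    rw [List.flatMap_append, List.flatMap_cons, h1]
    simp [List.append_assoc]
  have h3 := nodup_sub (w := w) h
  rw [h2] at h3 ⊢
  exact pre_eq_of_split h3

/-- Hypotheses on the words. -/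
structure IsSub (L : List Z) (σ : Z → Z) (ε : Z → F) (c : F) (f : MulAut F) (w : Z → List F) :
    Prop where
  hd : IsD L σ ε c
  fc : f c = c
  prod : ∀ z ∈ L, (w z).prod = f (ε z)
  rev : ∀ z ∈ L, w (σ z) = ((w z).map fun x => x⁻¹).reverse

variable {L : List Z} {σ : Z → Z} {ε : Z → F} {c : F} {f : MulAut F} {w : Z → List F}

omit [DecidableEq Z] in
theorem IsSub.len (h : IsSub L σ ε c f w) {z : Z} (hz : z ∈ L) :
    (w (σ z)).length = (w z).length := by
  rw [h.rev z hz]
  simp

theorem vl_sub (w : Z → List F) (φ : Z × ℕ → F) (l : List Z) :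
    vl φ (sub w l) = vl (fun z => vl (fun t => φ (z, t)) (List.range (w z).length)) l := by
  unfold sub
  rw [vl_flatMap]
  refine vl_congr fun z _ => ?_
  unfold blk
  rw [vl_map]
  rfl

theorem vl_seps_block (h : IsSub L σ ε c f w) {z : Z} (hz : z ∈ L) :
    vl (fun t => seps w (z, t)) (List.range (w z).length) = f (ε z) := by
  rw [← h.prod z hz]
  have h1 := vl_range_getD (w z) (w z).length le_rfl
  rw [List.take_length] at h1
  exact h1

theorem vl_seps_sub (h : IsSub L σ ε c f w) {l : List Z} (hl : ∀ z ∈ l, z ∈ L) :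
    vl (seps w) (sub w l) = f (vl ε l) := by
  rw [vl_sub]
  have h1 := map_vl f.toMonoidHom ε l
  change f (vl ε l) = _ at h1
  rw [h1]
  exact vl_congr fun z hz => vl_seps_block h (hl z hz)

theorem vl_seps_pre (h : IsSub L σ ε c f w) {z : Z} {t : ℕ} (hz : z ∈ L)
    (ht : t < (w z).length) :
    vl (seps w) (pre (sub w L) (z, t)) = f (vl ε (pre L z)) * ((w z).take t).prod := by
  rw [pre_sub h.hd.nd hz ht, vl_append, vl_seps_sub h fun x hx => mem_pre hx, vl_map]
  congr 1
  exact vl_range_getD (w z) t ht.le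

/-- The subdivided diagram is a diagram. -/
theorem IsSub.isD (h : IsSub L σ ε c f w) : IsD (sub w L) (ssig w σ) (seps w) c := by
  refine ⟨nodup_sub h.hd.nd, ?_, ?_, ?_, ?_, ?_⟩
  · rintro ⟨z, t⟩ hz
    rw [mem_sub] at hz
    simp only [ssig]
    rw [mem_sub, h.len hz.1]
    exact ⟨h.hd.mem z hz.1, by omega⟩
  · rintro ⟨z, t⟩ hz
    rw [mem_sub] at hz
    simp only [ssig]
    rw [h.len hz.1, h.hd.inv z hz.1]
    congr 1
    omega
  · rintro ⟨z, t⟩ hz h1
    rw [mem_sub] at hz
    simp only [ssig, Prod.mk.injEq] at h1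
    exact h.hd.ne z hz.1 h1.1
  · rintro ⟨z, t⟩ hz
    rw [mem_sub] at hz
    simp only [ssig, seps]
    rw [h.rev z hz.1]
    have h1 : (w z).length - 1 - t < ((w z).map fun x => x⁻¹).reverse.length := by
      simp
      omega
    have h3 : t < (w z).length := hz.2
    rw [List.getD_eq_getElem _ _ h1, List.getD_eq_getElem _ _ h3, List.getElem_reverse,
      List.getElem_map]
    congr 2
    simp
    omega
  · rw [vl_seps_sub h fun z hz => hz, h.hd.val, h.fc]

/-- The side pairing elements of the subdivided diagram. -/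
theorem IsSub.hh_eq (h : IsSub L σ ε c f w) {z : Z} {t : ℕ} (hz : z ∈ L)
    (ht : t < (w z).length) :
    hh (sub w L) (ssig w σ) (seps w) (z, t) = f (hh L σ ε z) := by
  unfold hh
  have hlen := h.len hz
  simp only [ssig]
  rw [vl_seps_pre h (h.hd.mem z hz) (by rw [hlen]; omega), vl_seps_pre h hz ht, map_mul, map_inv,
    map_mul]
  have h1 : ((w z).take t).prod * seps w (z, t) = ((w z).take (t + 1)).prod := by
    rw [List.take_add_one, List.prod_append]
    congr 1
    simp [seps, List.getD, List.getElem?_eq_getElem ht]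
  rw [mul_assoc (f (vl ε (pre L z))), h1]
  have h2 : ((w (σ z)).take ((w z).length - 1 - t)).prod = (((w z).drop (t + 1)).prod)⁻¹ := by
    rw [h.rev z hz, List.take_reverse, List.length_map, List.prod_inv_reverse, ← List.map_drop]
    have h3 : (w z).length - ((w z).length - 1 - t) = t + 1 := by omega
    rw [h3]
  have h4 : ((w z).take (t + 1)).prod * ((w z).drop (t + 1)).prod = f (ε z) := by
    rw [← List.prod_append, List.take_append_drop, h.prod z hz]
  rw [h2, ← h4]
  group

theorem IsSub.jmp_block (h : IsSub L σ ε c f w) {z₀ z : Z} {t₀ : ℕ} (hz₀ : z₀ ∈ L)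
    (ht₀ : t₀ < (w z₀).length) (t : ℕ) :
    vl (fun s => jmp c (ssig w σ) (hh (sub w L) (ssig w σ) (seps w)) (z₀, t₀) (z, s))
      (List.range t) =
      if z = z₀ then (if t₀ < t then f ((hh L σ ε z₀)⁻¹ * c * hh L σ ε z₀) else 1) else
        if z = σ z₀ then (if (w z₀).length - 1 - t₀ < t then c⁻¹ else 1) else 1 := by
  have hJ : (hh (sub w L) (ssig w σ) (seps w) (z₀, t₀))⁻¹ * c *
      hh (sub w L) (ssig w σ) (seps w) (z₀, t₀) = f ((hh L σ ε z₀)⁻¹ * c * hh L σ ε z₀) := by
    rw [h.hh_eq hz₀ ht₀, map_mul, map_mul, map_inv, h.fc]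
  by_cases h1 : z = z₀
  · subst h1
    rw [if_pos rfl, vl_range_jump (s := t₀)]
    · rw [jmp_self, hJ]
    · intro r hr
      refine jmp_ne _ ?_ ?_
      · intro h2
        exact hr (Prod.mk.injEq _ _ _ _ ▸ h2).2
      · intro h2
        simp only [ssig, Prod.mk.injEq] at h2
        exact h.hd.ne z hz₀ h2.1.symm
  · rw [if_neg h1]
    by_cases h2 : z = σ z₀
    · rw [if_pos h2, vl_range_jump (s := (w z₀).length - 1 - t₀)]
      · have h3 : ((z, (w z₀).length - 1 - t₀) : Z × ℕ) = ssig w σ (z₀, t₀) := by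
          simp [ssig, h2]
        rw [h3, jmp_sig]
        intro h4
        simp only [ssig, Prod.mk.injEq] at h4
        exact h.hd.ne z₀ hz₀ h4.1
      · intro r hr
        refine jmp_ne _ ?_ ?_
        · intro h3
          exact h1 (Prod.mk.injEq _ _ _ _ ▸ h3).1
        · intro h3
          simp only [ssig, Prod.mk.injEq] at h3
          exact hr h3.2
    · rw [if_neg h2]
      refine vl_one fun s _ => jmp_ne _ ?_ ?_
      · intro h3
        exact h1 (Prod.mk.injEq _ _ _ _ ▸ h3).1
      · intro h3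
        simp only [ssig, Prod.mk.injEq] at h3
        exact h2 h3.1

theorem IsSub.jmp_sub (h : IsSub L σ ε c f w) {z₀ : Z} {t₀ : ℕ} (hz₀ : z₀ ∈ L)
    (ht₀ : t₀ < (w z₀).length) (l : List Z) :
    vl (jmp c (ssig w σ) (hh (sub w L) (ssig w σ) (seps w)) (z₀, t₀)) (sub w l) =
      f (vl (jmp c σ (hh L σ ε) z₀) l) := by
  rw [vl_sub]
  have h1 := map_vl f.toMonoidHom (jmp c σ (hh L σ ε) z₀) l
  change f _ = _ at h1
  rw [h1]
  refine vl_congr fun z _ => ?_
  rw [h.jmp_block hz₀ ht₀]
  change _ = f (jmp c σ (hh L σ ε) z₀ z)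
  by_cases h2 : z = z₀
  · subst h2
    rw [if_pos rfl, if_pos ht₀, jmp_self]
  · rw [if_neg h2]
    by_cases h3 : z = σ z₀
    · rw [h3, if_pos rfl, if_pos (by rw [h.len hz₀]; omega), jmp_sig _ (h.hd.ne z₀ hz₀), map_inv,
        h.fc]
    · rw [if_neg h3, jmp_ne _ h2 h3, map_one]

theorem IsSub.jmp_pre (h : IsSub L σ ε c f w) {z₀ z : Z} {t₀ t : ℕ} (hz₀ : z₀ ∈ L)
    (ht₀ : t₀ < (w z₀).length) (hz : z ∈ L) (ht : t < (w z).length) :
    vl (jmp c (ssig w σ) (hh (sub w L) (ssig w σ) (seps w)) (z₀, t₀)) (pre (sub w L) (z, t)) =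
      f (vl (jmp c σ (hh L σ ε) z₀) (pre L z)) *
      (if z = z₀ then (if t₀ < t then f ((hh L σ ε z₀)⁻¹ * c * hh L σ ε z₀) else 1) else
        if z = σ z₀ then (if (w z₀).length - 1 - t₀ < t then c⁻¹ else 1) else 1) := by
  rw [pre_sub h.hd.nd hz ht, vl_append, h.jmp_sub hz₀ ht₀, vl_map, ← h.jmp_block hz₀ ht₀]
  rfl

theorem IsSub.jmp_preq (h : IsSub L σ ε c f w) {z₀ z : Z} {t₀ t : ℕ} (hz₀ : z₀ ∈ L)
    (ht₀ : t₀ < (w z₀).length) (hz : z ∈ L) (ht : t < (w z).length) :
    vl (jmp c (ssig w σ) (hh (sub w L) (ssig w σ) (seps w)) (z₀, t₀))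
      (pre (sub w L) (z, t) ++ [(z, t)]) =
      f (vl (jmp c σ (hh L σ ε) z₀) (pre L z)) *
      (if z = z₀ then (if t₀ < t + 1 then f ((hh L σ ε z₀)⁻¹ * c * hh L σ ε z₀) else 1) else
        if z = σ z₀ then (if (w z₀).length - 1 - t₀ < t + 1 then c⁻¹ else 1) else 1) := by
  have h1 : pre (sub w L) (z, t) ++ [(z, t)] =
      sub w (pre L z) ++ (List.range (t + 1)).map fun s => (z, s) := by
    rw [pre_sub h.hd.nd hz ht, List.range_succ, List.map_append, List.append_assoc]
    rfl
  rw [h1, vl_append, h.jmp_sub hz₀ ht₀, vl_map, ← h.jmp_block hz₀ ht₀]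
  rfl

/-- The conjugate by `f` of a push is a push for the subdivided diagram. -/
theorem IsSub.rel (h : IsSub L σ ε c f w) {z₀ : Z} {t₀ : ℕ} (hz₀ : z₀ ∈ L)
    (ht₀ : t₀ < (w z₀).length) {D : MulAut F} (hr : Rel L σ ε c z₀ D.toMonoidHom) :
    Rel (sub w L) (ssig w σ) (seps w) c (z₀, t₀) (f * D * f⁻¹ : MulAut F).toMonoidHom := by
  have hconj : ∀ x, (f * D * f⁻¹ : MulAut F).toMonoidHom (f x) = f (D x) := by
    intro x
    change f (D (f⁻¹ (f x))) = f (D x)
    rw [MulAut.inv_apply_self]
  constructor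
  · rintro ⟨z, t⟩ hj
    rw [mem_sub] at hj
    obtain ⟨hz, ht⟩ := hj
    have hsz := h.hd.mem z hz
    have hsz₀ := h.hd.mem z₀ hz₀
    have hlen := h.len hz
    have hne := h.hd.ne z₀ hz₀
    have e0 : ssig w σ (z, t) = (σ z, (w z).length - 1 - t) := rfl
    rw [h.hh_eq hz ht, hconj, e0, h.jmp_preq hz₀ ht₀ hsz (by rw [hlen]; omega),
      h.jmp_pre hz₀ ht₀ hz ht]
    have r1 := congrArg f (hr.rel z hz)
    have r2 := congrArg f (RelM.rel' h.hd hr hz)
    change f (D (hh L σ ε z)) = _ at r1
    change f (D (hh L σ ε z)) = _ at r2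
    rw [map_mul, map_mul, map_inv, vl_append, vl_cons, vl_nil, mul_one, map_mul] at r1
    rw [map_mul, map_mul, map_inv, vl_append, vl_cons, vl_nil, mul_one, map_mul] at r2
    by_cases h1 : z = z₀
    · subst h1
      rw [jmp_sig _ hne, map_inv, h.fc] at r1
      rw [jmp_self] at r2
      rw [if_neg hne, if_pos rfl, if_pos rfl]
      by_cases h2 : t₀ < t
      · rw [if_neg (by omega), if_pos h2, r2]
        group
      · rw [if_pos (by omega), if_neg h2, r1]
        group
    · by_cases h2 : z = σ z₀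
      · subst h2
        have e1 := h.hd.inv z₀ hz₀
        have hl0 := h.len hz₀
        rw [e1] at r1 r2 ⊢
        rw [jmp_self] at r1
        rw [jmp_sig _ hne, map_inv, h.fc] at r2
        rw [if_pos rfl, if_neg hne, if_pos rfl]
        by_cases h3 : (w z₀).length - 1 - t₀ < t
        · rw [if_neg (by rw [hl0]; omega), if_pos h3, r2]
          group
        · rw [if_pos (by rw [hl0]; omega), if_neg h3, r1]
          group
      · have h3 : σ z ≠ z₀ := by
          intro h4
          apply h2
          rw [← h4, h.hd.inv z hz]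
        have h4 : σ z ≠ σ z₀ := by
          intro h5
          apply h1
          rw [← h.hd.inv z hz, h5, h.hd.inv z₀ hz₀]
        rw [jmp_ne _ h3 h4, map_one] at r1
        rw [if_neg h3, if_neg h4, if_neg h1, if_neg h2, r1]
        group
  · have r := congrArg f hr.rel_c
    change f (D c) = _ at r
    have h1 : (f * D * f⁻¹ : MulAut F).toMonoidHom c = f (D c) := by
      conv_lhs => rw [← h.fc]
      exact hconj c
    rw [h1, r, map_mul, h.fc, h.jmp_sub hz₀ ht₀]

end Pool.MP_59b15d_al.H95
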