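import Pool.Agent.H.MP_59b15d_al.h95.Fd4
import Pool.Agent.H.MP_59b15d_al.h95.Fd5

/-!
# Folding of quadratic words, part 6: automorphisms of a free group fixing a quadratic word
-/

set_option autoImplicit false

namespace Pool.MP_59b15d_al.H95

variable {X : Type*} [DecidableEq X]

/-- The inverse letter. -/
def flp (z : X × Bool) : X × Bool := (z.1, !z.2)

omit [DecidableEq X] in
theorem flp_flp (z : X × Bool) : flp (flp z) = z := by simp [flp]

omit [DecidableEq X] in
theorem flp_ne (z : X × Bool) : flp z ≠ z := by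
  obtain ⟨x, b⟩ := z
  cases b <;> simp [flp]

/-- The value of a letter. -/
def lt (z : X × Bool) : FreeGroup X := FreeGroup.mk [z]

omit [DecidableEq X] in
theorem lt_flp (z : X × Bool) : lt (flp z) = (lt z)⁻¹ := by
  unfold lt flp
  rw [FreeGroup.inv_mk]
  rfl

omit [DecidableEq X] in
theorem vl_lt (l : List (X × Bool)) : vl lt l = FreeGroup.mk l := by
  induction l with
  | nil => rw [vl_nil]; rfl
  | cons a l ih =>
    rw [vl_cons, ih]
    unfold lt
    rw [FreeGroup.mul_mk]
    rfl

theorem lt_inj {z z' : X × Bool} (h : lt z = lt z') : z = z' := by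
  have h1 := congrArg FreeGroup.toWord h
  unfold lt at h1
  rw [FreeGroup.toWord_mk, FreeGroup.toWord_mk] at h1
  simpa [FreeGroup.reduce] using h1

/-- Quadratic words containing all letters. -/
structure IsQ (L : List (X × Bool)) : Prop where
  nd : L.Nodup
  all : ∀ z, z ∈ L
  red : FreeGroup.IsReduced L

variable {L : List (X × Bool)}

omit [DecidableEq X] in
theorem IsQ.isD (h : IsQ L) : IsD L flp lt (FreeGroup.mk L) :=
  ⟨h.nd, fun _ _ => h.all _, fun i _ => flp_flp i, fun i _ => flp_ne i, fun i _ => lt_flp i,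
    vl_lt L⟩

/-- `z ↦ z * (rotation of the word starting at the inverse of z)`. -/
def rotn (L : List (X × Bool)) (z : X × Bool) : FreeGroup X :=
  (vl lt (pre L z))⁻¹ * FreeGroup.mk L * vl lt (pre L z)

/-- The push across the position `z`. -/
def pushHom (L : List (X × Bool)) (z : X × Bool) : FreeGroup X →* FreeGroup X :=
  FreeGroup.lift fun x => if x = z.1 then
    (if z.2 then FreeGroup.of x * rotn L (flp z) else (rotn L (flp z))⁻¹ * FreeGroup.of x)
    else FreeGroup.of x

theorem pushHom_self (L : List (X × Bool)) (z : X × Bool) :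
    pushHom L z (lt z) = lt z * rotn L (flp z) := by
  obtain ⟨x, b⟩ := z
  cases b
  · have h : lt (x, false) = (FreeGroup.of x)⁻¹ := rfl
    rw [h, map_inv, pushHom, FreeGroup.lift_apply_of]
    simp
  · have h : lt (x, true) = FreeGroup.of x := rfl
    rw [h, pushHom, FreeGroup.lift_apply_of]
    simp

theorem pushHom_flp (L : List (X × Bool)) (z : X × Bool) :
    pushHom L z (lt (flp z)) = (rotn L (flp z))⁻¹ * lt (flp z) := by
  rw [lt_flp, map_inv, pushHom_self, mul_inv_rev]

theorem pushHom_ne (L : List (X × Bool)) {z z' : X × Bool} (h1 : z' ≠ z) (h2 : z' ≠ flp z) :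
    pushHom L z (lt z') = lt z' := by
  have hx : z'.1 ≠ z.1 := by
    intro h
    obtain ⟨x, b⟩ := z
    obtain ⟨x', b'⟩ := z'
    simp only at h
    subst h
    cases b <;> cases b' <;> simp [flp] at h1 h2
  obtain ⟨x', b'⟩ := z'
  cases b'
  · have h : lt (x', false) = (FreeGroup.of x')⁻¹ := rfl
    rw [h, map_inv, pushHom, FreeGroup.lift_apply_of, if_neg hx]
  · have h : lt (x', true) = FreeGroup.of x' := rfl
    rw [h, pushHom, FreeGroup.lift_apply_of, if_neg hx]

/-- The push moves the prefixes of the word. -/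
theorem pushHom_vl (hq : IsQ L) (z : X × Bool) : ∀ l, l <+: L →
    pushHom L z (vl lt l) = vl (jmp (FreeGroup.mk L) flp (hh L flp lt) z) l * vl lt l := by
  have key := prefix_ind (L := L) (N := fun l => pushHom L z (vl lt l) * (vl lt l)⁻¹)
    (ψ := jmp (FreeGroup.mk L) flp (hh L flp lt) z) (by simp) ?_
  · intro l hl
    rw [← key l hl]
    group
  · intro l j hl
    have hpre := pre_of_prefix hq.nd hl
    simp only [vl_append, vl_cons, vl_nil, mul_one, map_mul]
    by_cases h1 : j = z
    · subst h1
      rw [pushHom_self, jmp_self]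
      unfold hh rotn
      rw [hpre]
      group
    · by_cases h2 : j = flp z
      · subst h2
        rw [pushHom_flp, jmp_sig _ (flp_ne z)]
        unfold rotn
        rw [hpre]
        group
      · rw [pushHom_ne L h1 h2, jmp_ne _ h1 h2]
        group

theorem pushHom_rel (hq : IsQ L) (z : X × Bool) :
    Rel L flp lt (FreeGroup.mk L) z (pushHom L z) := by
  have hd := hq.isD
  have h1 : ∀ j, pushHom L z (hh L flp lt j) =
      vl (jmp (FreeGroup.mk L) flp (hh L flp lt) z) (pre L (flp j)) * hh L flp lt j *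
        (vl (jmp (FreeGroup.mk L) flp (hh L flp lt) z) (pre L j ++ [j]))⁻¹ := by
    intro j
    have h2 : vl lt (pre L j) * lt j = vl lt (pre L j ++ [j]) := by
      rw [vl_append, vl_cons, vl_nil, mul_one]
    have h3 : hh L flp lt j = vl lt (pre L (flp j)) * (vl lt (pre L j ++ [j]))⁻¹ := by
      rw [← h2]
      rfl
    conv_lhs => rw [h3]
    rw [map_mul, map_inv, pushHom_vl hq z _ (pre_prefix L _),
      pushHom_vl hq z _ (preq_prefix (hq.all j)), h3]
    group
  constructor
  · intro j _
    have h2 := h1 (flp j)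
    rw [flp_flp, hd.hh_inv (hq.all j), map_inv] at h2
    rw [← inv_inv (pushHom L z (hh L flp lt j)), h2]
    group
  · have h2 := pushHom_vl hq z L (List.prefix_refl L)
    rwa [vl_lt] at h2

theorem lt_eq_pre (L : List (X × Bool)) (z : X × Bool) :
    lt z = (vl lt (pre L z))⁻¹ * vl lt (pre L z ++ [z]) := by
  rw [vl_append, vl_cons, vl_nil, mul_one, inv_mul_cancel_left]

theorem pushHom_comp (hq : IsQ L) (z : X × Bool) :
    (pushHom L z).comp (pushHom L (flp z)) = MonoidHom.id _ := by
  have hd := hq.isD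
  have h1 : ∀ l, l <+: L → pushHom L z (pushHom L (flp z) (vl lt l)) = vl lt l := by
    intro l hl
    rw [pushHom_vl hq (flp z) l hl, map_mul, pushHom_vl hq z l hl, ← mul_assoc,
      Rel.cancel hd (hq.all z) (pushHom_rel hq z) l hl, one_mul]
  ext x
  have h2 : FreeGroup.of x = lt (x, true) := rfl
  rw [h2, lt_eq_pre L]
  simp only [MonoidHom.comp_apply, MonoidHom.id_apply, map_mul, map_inv]
  rw [h1 _ (pre_prefix L _), h1 _ (preq_prefix (hq.all _))]

/-- The push across the position `z` as an automorphism. -/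
def push (hq : IsQ L) (z : X × Bool) : MulAut (FreeGroup X) :=
  MonoidHom.toMulEquiv (pushHom L z) (pushHom L (flp z))
    (by
      have h := pushHom_comp hq (flp z)
      rwa [flp_flp] at h)
    (pushHom_comp hq z)

theorem push_rel (hq : IsQ L) (z : X × Bool) :
    Rel L flp lt (FreeGroup.mk L) z (push hq z).toMonoidHom :=
  pushHom_rel hq z

/-- Pushes are unique. -/
theorem Rel.unique (hq : IsQ L) (hgen : Subgroup.closure (Set.range (hh L flp lt)) = ⊤)
    {z : X × Bool} {D D' : MulAut (FreeGroup X)}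
    (h : Rel L flp lt (FreeGroup.mk L) z D.toMonoidHom)
    (h' : Rel L flp lt (FreeGroup.mk L) z D'.toMonoidHom) : D = D' := by
  have h1 : D.toMonoidHom = D'.toMonoidHom := by
    refine MonoidHom.eq_of_eqOn_dense hgen ?_
    rintro _ ⟨j, rfl⟩
    rw [h.rel j (hq.all j), h'.rel j (hq.all j)]
  ext x
  exact congrArg (fun k : FreeGroup X →* FreeGroup X => k x) h1

/-- The words of an automorphism. -/
def wrd (f : MulAut (FreeGroup X)) (z : X × Bool) : List (FreeGroup X) :=
  (f (lt z)).toWord.map lt

theorem wrd_isSub (hq : IsQ L) {f : MulAut (FreeGroup X)} (hf : f (FreeGroup.mk L) = FreeGroup.mk L) :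
    IsSub L flp lt (FreeGroup.mk L) f (wrd f) := by
  refine ⟨hq.isD, hf, fun z _ => ?_, fun z _ => ?_⟩
  · have h1 : (wrd f z).prod = vl lt (f (lt z)).toWord := rfl
    rw [h1, vl_lt, FreeGroup.mk_toWord]
  · unfold wrd
    rw [lt_flp, map_inv, FreeGroup.toWord_inv, FreeGroup.invRev, List.map_reverse, List.map_map,
      List.map_map]
    congr 1

/-- The label of a position of the subdivided diagram. -/
def lab (f : MulAut (FreeGroup X)) (p : (X × Bool) × ℕ) : X × Bool :=
  (f (lt p.1)).toWord.getD p.2 p.1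

theorem seps_eq (f : MulAut (FreeGroup X)) {p : (X × Bool) × ℕ}
    (hp : p ∈ sub (wrd f) L) : seps (wrd f) p = lt (lab f p) := by
  obtain ⟨z, t⟩ := p
  rw [mem_sub] at hp
  have h1 : t < (f (lt z)).toWord.length := by
    have := hp.2
    unfold wrd at this
    rwa [List.length_map] at this
  unfold seps lab
  rw [List.getD_eq_getElem _ _ hp.2, List.getD_eq_getElem _ _ h1]
  unfold wrd
  rw [List.getElem_map]

/-- **Folding theorem.**  For every automorphism `f` of the free group fixing the quadratic word,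
the pushes, together with their side pairing elements, are products of their images under `f`. -/
theorem fold_pair (hq : IsQ L) (hgen : Subgroup.closure (Set.range (hh L flp lt)) = ⊤)
    {f : MulAut (FreeGroup X)} (hf : f (FreeGroup.mk L) = FreeGroup.mk L) (z : X × Bool) :
    ((push hq z, hh L flp lt z) : MulAut (FreeGroup X) × FreeGroup X) ∈
      Subgroup.closure (Set.range fun y => (f * push hq y * f⁻¹, f (hh L flp lt y))) := by
  classical
  set K := Subgroup.closure (Set.range fun y =>
    ((f * push hq y * f⁻¹, f (hh L flp lt y)) : MulAut (FreeGroup X) × FreeGroup X)) with hK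
  have hs := wrd_isSub hq hf
  obtain ⟨L', σ', hd', hK', hsub, hred⟩ := fold_all (K := K) _ (sub (wrd f) L)
    (ssig (wrd f) flp) rfl hs.isD (by
      rintro ⟨z, t⟩ hzt
      rw [mem_sub] at hzt
      refine ⟨f * push hq z * f⁻¹, ?_, hs.rel hzt.1 hzt.2 (push_rel hq z)⟩
      rw [hs.hh_eq hzt.1 hzt.2]
      exact Subgroup.subset_closure ⟨z, rfl⟩)
  -- labels
  have hε : ∀ p ∈ L', seps (wrd f) p = lt (lab f p) := fun p hp => seps_eq f (hsub p hp)
  have hmap : L'.map (lab f) = L := by
    have h1 : FreeGroup.mk (L'.map (lab f)) = FreeGroup.mk L := by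
      rw [← vl_lt, vl_map, ← hd'.val]
      exact vl_congr fun p hp => (hε p hp).symm
    have h2 : FreeGroup.IsReduced (L'.map (lab f)) := by
      rw [FreeGroup.isReduced_iff_not_step]
      intro L₂ hstep
      generalize hW : L'.map (lab f) = W at hstep
      obtain @⟨L₁, L₃, x, b⟩ := hstep
      obtain ⟨A, R, h4, h5, h6⟩ := List.map_eq_append_iff.1 hW
      obtain ⟨k, R', rfl, h7, h8⟩ := List.map_eq_cons_iff.1 h6
      obtain ⟨k', B, rfl, h9, h10⟩ := List.map_eq_cons_iff.1 h8
      refine hred A k k' B h4 ?_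
      rw [hε k (by rw [h4]; simp), hε k' (by rw [h4]; simp), h7, h9]
      have h11 := lt_flp (x, b)
      change lt (x, !b) = _ at h11
      rw [h11, mul_inv_cancel]
    have h3 := congrArg FreeGroup.toWord h1
    rwa [FreeGroup.toWord_mk, FreeGroup.toWord_mk, h2.reduce_eq, hq.red.reduce_eq] at h3
  have hinj : ∀ p ∈ L', ∀ q ∈ L', lab f p = lab f q → p = q := by
    intro p hp q hq' h1
    have h2 : (L'.map (lab f)).Nodup := by rw [hmap]; exact hq.nd
    exact List.inj_on_of_nodup_map h2 hp hq' h1
  have hσ : ∀ p ∈ L', lab f (σ' p) = flp (lab f p) := by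
    intro p hp
    apply lt_inj
    rw [← hε _ (hd'.mem p hp), hd'.eps p hp, hε p hp, lt_flp]
  have hpre : ∀ p ∈ L', (pre L' p).map (lab f) = pre L (lab f p) := by
    intro p hp
    obtain ⟨B, hB⟩ := pre_split hp
    have h1 : L = (pre L' p).map (lab f) ++ lab f p :: B.map (lab f) := by
      rw [← hmap]
      conv_lhs => rw [hB]
      simp
    have h2 := hq.nd
    rw [h1] at h2
    have h3 := pre_eq_of_split h2
    rw [← h1] at h3
    exact h3.symm
  have hvl : ∀ l, (∀ p ∈ l, p ∈ L') → vl (seps (wrd f)) l = vl lt (l.map (lab f)) := by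
    intro l hl
    rw [vl_map]
    exact vl_congr fun p hp => hε p (hl p hp)
  have hhh : ∀ p ∈ L', hh L' σ' (seps (wrd f)) p = hh L flp lt (lab f p) := by
    intro p hp
    have hp' := hd'.mem p hp
    unfold hh
    rw [hvl _ fun q hq => mem_pre hq, hvl _ fun q hq => mem_pre hq, hpre p hp, hpre _ hp',
      hσ p hp, hε p hp]
  have hj : ∀ p ∈ L', ∀ l, (∀ q ∈ l, q ∈ L') →
      vl (jmp (FreeGroup.mk L) σ' (hh L' σ' (seps (wrd f))) p) l =
        vl (jmp (FreeGroup.mk L) flp (hh L flp lt) (lab f p)) (l.map (lab f)) := by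
    intro p hp l hl
    rw [vl_map]
    refine vl_congr fun q hq' => ?_
    have hql := hl q hq'
    change jmp (FreeGroup.mk L) σ' (hh L' σ' (seps (wrd f))) p q =
      jmp (FreeGroup.mk L) flp (hh L flp lt) (lab f p) (lab f q)
    by_cases h1 : q = p
    · subst h1
      rw [jmp_self, jmp_self, hhh q hp]
    · by_cases h2 : q = σ' p
      · subst h2
        rw [jmp_sig _ (hd'.ne p hp), hσ p hp, jmp_sig _ (flp_ne _)]
      · rw [jmp_ne _ h1 h2, jmp_ne]
        · intro h3
          exact h1 (hinj q hql p hp h3)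
        · intro h3
          rw [← hσ p hp] at h3
          exact h2 (hinj q hql _ (hd'.mem p hp) h3)
  -- the position labelled `z`
  obtain ⟨p, hp, hpz⟩ : ∃ p ∈ L', lab f p = z := by
    have h1 : z ∈ L'.map (lab f) := by rw [hmap]; exact hq.all z
    exact List.mem_map.1 h1
  obtain ⟨D, hD, hr⟩ := hK' p hp
  have hr' : Rel L flp lt (FreeGroup.mk L) z D.toMonoidHom := by
    subst hpz
    constructor
    · intro j _
      obtain ⟨q, hql, hqj⟩ : ∃ q ∈ L', lab f q = j := by
        have h1 : j ∈ L'.map (lab f) := by rw [hmap]; exact hq.all j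
        exact List.mem_map.1 h1
      subst hqj
      have hq' := hd'.mem q hql
      have h1 := hr.rel q hql
      rw [hj p hp _ fun x hx => (preq_prefix hq').subset hx, hj p hp _ fun x hx => mem_pre hx,
        List.map_append, hpre _ hq', hpre _ hql, hhh q hql, List.map_cons, List.map_nil,
        hσ q hql] at h1
      exact h1
    · have h1 := hr.rel_c
      rw [hj p hp _ fun x hx => hx, hmap] at h1
      exact h1
  rw [Rel.unique hq hgen (push_rel hq z) hr']
  rw [hhh p hp, hpz] at hD
  exact hD

/-- The pushes of a quadratic word and their images under an automorphism fixing the word. -/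
theorem fold_thm (hq : IsQ L) (hgen : Subgroup.closure (Set.range (hh L flp lt)) = ⊤)
    {f : MulAut (FreeGroup X)} (hf : f (FreeGroup.mk L) = FreeGroup.mk L) (z : X × Bool) :
    push hq z ∈ Subgroup.closure (Set.range fun y => f * push hq y * f⁻¹) := by
  have h1 := Subgroup.mem_map_of_mem (MonoidHom.fst (MulAut (FreeGroup X)) (FreeGroup X))
    (fold_pair hq hgen hf z)
  rw [MonoidHom.map_closure, ← Set.range_comp] at h1
  exact h1

/-- The group of pushes with their side pairing elements. -/
def PP (hq : IsQ L) : Subgroup (MulAut (FreeGroup X) × FreeGroup X) :=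
  Subgroup.closure (Set.range fun y => (push hq y, hh L flp lt y))

/-- The action of an automorphism. -/
def acp (f : MulAut (FreeGroup X)) :
    MulAut (FreeGroup X) × FreeGroup X →* MulAut (FreeGroup X) × FreeGroup X :=
  MonoidHom.prodMap (MulAut.conj f).toMonoidHom f.toMonoidHom

omit [DecidableEq X] in
theorem acp_apply (f D : MulAut (FreeGroup X)) (u : FreeGroup X) :
    acp f (D, u) = (f * D * f⁻¹, f u) := rfl

/-- **Equivariance.**  The group of pushes with their side pairing elements is invariant under all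
automorphisms of the free group fixing the word. -/
theorem PP_inv (hq : IsQ L) (hgen : Subgroup.closure (Set.range (hh L flp lt)) = ⊤)
    {f : MulAut (FreeGroup X)} (hf : f (FreeGroup.mk L) = FreeGroup.mk L)
    {D : MulAut (FreeGroup X)} {u : FreeGroup X} (h : (D, u) ∈ PP hq) :
    (f * D * f⁻¹, f u) ∈ PP hq := by
  have hf' : f⁻¹ (FreeGroup.mk L) = FreeGroup.mk L := by
    conv_lhs => rw [← hf]
    rw [MulAut.inv_apply_self]
  have h1 : PP hq ≤ (PP hq).map (acp f⁻¹) := by
    unfold PP
    rw [MonoidHom.map_closure, ← Set.range_comp, Subgroup.closure_le]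
    rintro _ ⟨z, rfl⟩
    exact fold_pair hq hgen hf' z
  obtain ⟨⟨D', u'⟩, h2, h3⟩ := Subgroup.mem_map.1 (h1 h)
  rw [acp_apply, Prod.mk.injEq, inv_inv] at h3
  rw [← h3.1, ← h3.2]
  have h4 : f * (f⁻¹ * D' * f) * f⁻¹ = D' := by group
  rw [h4, MulAut.apply_inv_self]
  exact h2

/-- Every element is the side pairing element of a push. -/
theorem PP_surj (hq : IsQ L) (hgen : Subgroup.closure (Set.range (hh L flp lt)) = ⊤)
    (u : FreeGroup X) : ∃ D, (D, u) ∈ PP hq := by
  have h1 : (PP hq).map (MonoidHom.snd _ _) = ⊤ := by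
    unfold PP
    rw [MonoidHom.map_closure, ← Set.range_comp]
    exact hgen
  have h2 : u ∈ (PP hq).map (MonoidHom.snd _ _) := by rw [h1]; trivial
  obtain ⟨⟨D, u'⟩, h3, h4⟩ := Subgroup.mem_map.1 h2
  refine ⟨D, ?_⟩
  have h5 : u' = u := h4
  rwa [h5] at h3

end Pool.MP_59b15d_al.H95
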