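import Pool.Agent.H.MP_59b15d_al.h95.Fd6
import Pool.Agent.H.MP_59b15d_al.h76r.Rl

/-!
# Folding of quadratic words, part 7: the product of commutators
-/

set_option autoImplicit false

namespace Pool.MP_59b15d_al.H95

open Pool.MP_59b15d_al.H76R
open FreeGroup (of)

variable {n : ℕ}

/-- The four letters of a handle. -/
def hb (i : Fin n) : List ((Fin n ⊕ Fin n) × Bool) :=
  [(Sum.inl i, true), (Sum.inr i, true), (Sum.inl i, false), (Sum.inr i, false)]

/-- The product of commutators as a word. -/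
def stw (n : ℕ) : List ((Fin n ⊕ Fin n) × Bool) := (List.finRange n).flatMap hb

theorem mem_hb {i : Fin n} {z : (Fin n ⊕ Fin n) × Bool} :
    z ∈ hb i ↔ z.1 = Sum.inl i ∨ z.1 = Sum.inr i := by
  obtain ⟨x, b⟩ := z
  cases b <;> rcases x with k | k <;> simp [hb]

theorem stw_all (z : (Fin n ⊕ Fin n) × Bool) : z ∈ stw n := by
  unfold stw
  rw [List.mem_flatMap]
  obtain ⟨x, b⟩ := z
  rcases x with k | k
  · exact ⟨k, List.mem_finRange k, mem_hb.2 (Or.inl rfl)⟩
  · exact ⟨k, List.mem_finRange k, mem_hb.2 (Or.inr rfl)⟩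

theorem stw_nodup : (stw n).Nodup := by
  unfold stw
  rw [List.nodup_flatMap]
  refine ⟨fun i _ => by simp [hb], ?_⟩
  refine (List.nodup_finRange n).imp fun {a b} hab => ?_
  rw [Function.onFun, List.disjoint_left]
  intro z h1 h2
  rw [mem_hb] at h1 h2
  rcases h1 with h1 | h1 <;> rcases h2 with h2 | h2 <;> rw [h1] at h2 <;> simp at h2
  · exact hab h2
  · exact hab h2

theorem stw_red_aux (l : List (Fin n)) : FreeGroup.IsReduced (l.flatMap hb) := by
  induction l with
  | nil => exact FreeGroup.IsReduced.nil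
  | cons i l ih =>
    rw [List.flatMap_cons]
    unfold FreeGroup.IsReduced at ih ⊢
    simp only [hb, List.cons_append, List.nil_append, List.isChain_cons_cons]
    refine ⟨by simp, by simp, by simp, ?_⟩
    cases l with
    | nil => simp
    | cons j l =>
      rw [List.flatMap_cons] at ih ⊢
      simp only [hb, List.cons_append, List.nil_append, List.isChain_cons_cons] at ih ⊢
      exact ⟨by simp, ih⟩

theorem stw_isQ : IsQ (stw n) := ⟨stw_nodup, stw_all, stw_red_aux _⟩

theorem vl_hb (i : Fin n) : vl lt (hb i) = kk i := by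
  simp only [hb, vl_cons, vl_nil, mul_one]
  have h1 : ∀ x : Fin n ⊕ Fin n, lt (x, true) = of x := fun x => rfl
  have h2 : ∀ x : Fin n ⊕ Fin n, lt (x, false) = (of x)⁻¹ := fun x => rfl
  rw [h1, h1, h2, h2, kk]
  group

theorem vl_take (m : ℕ) (hm : m ≤ n) :
    vl lt (((List.finRange n).take m).flatMap hb) = dl m := by
  induction m with
  | zero => simp [dl]
  | succ m ih =>
    have hm' : m < n := hm
    have h1 : (List.finRange n).take (m + 1) = (List.finRange n).take m ++ [⟨m, hm'⟩] := by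
      rw [List.take_add_one]
      congr 1
      simp [hm']
    rw [h1, List.flatMap_append, vl_append, ih (by omega), dl_succ m hm']
    simp only [List.flatMap_cons, List.flatMap_nil, List.append_nil]
    rw [vl_hb]

theorem mk_stw : FreeGroup.mk (stw n) = dl n := by
  rw [← vl_lt, ← vl_take n le_rfl]
  congr 1
  unfold stw
  rw [List.take_of_length_le]
  simp

theorem stw_split (i : Fin n) : ∃ B, stw n =
    ((List.finRange n).take i).flatMap hb ++ (hb i ++ B) := by
  refine ⟨((List.finRange n).drop (i + 1)).flatMap hb, ?_⟩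
  unfold stw
  have h1 : List.finRange n = (List.finRange n).take i ++ i :: (List.finRange n).drop (i + 1) := by
    conv_lhs => rw [← List.take_append_drop i (List.finRange n)]
    congr 1
    rw [List.drop_eq_getElem_cons (by simp)]
    congr 1
    simp
  conv_lhs => rw [h1]
  rw [List.flatMap_append, List.flatMap_cons]

/-- Values of the prefixes. -/
theorem vl_pre_stw (i : Fin n) :
    vl lt (pre (stw n) (Sum.inl i, true)) = dl i ∧
    vl lt (pre (stw n) (Sum.inr i, true)) = dl i * of (Sum.inl i) ∧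
    vl lt (pre (stw n) (Sum.inl i, false)) = dl i * of (Sum.inl i) * of (Sum.inr i) ∧
    vl lt (pre (stw n) (Sum.inr i, false)) =
      dl i * of (Sum.inl i) * of (Sum.inr i) * (of (Sum.inl i))⁻¹ := by
  obtain ⟨B, hB⟩ := stw_split i
  have h1 : ∀ x : Fin n ⊕ Fin n, lt (x, true) = of x := fun x => rfl
  have h2 : ∀ x : Fin n ⊕ Fin n, lt (x, false) = (of x)⁻¹ := fun x => rfl
  have hnd : (stw n).Nodup := stw_nodup
  have hd := vl_take (n := n) i i.2.le
  refine ⟨?_, ?_, ?_, ?_⟩
  · have e : stw n = ((List.finRange n).take i).flatMap hb ++ (Sum.inl i, true) ::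
      ([(Sum.inr i, true), (Sum.inl i, false), (Sum.inr i, false)] ++ B) := by
      rw [hB]; simp [hb]
    rw [e] at hnd ⊢
    rw [pre_eq_of_split hnd, hd]
  · have e : stw n = (((List.finRange n).take i).flatMap hb ++ [(Sum.inl i, true)]) ++
      (Sum.inr i, true) :: ([(Sum.inl i, false), (Sum.inr i, false)] ++ B) := by
      rw [hB]; simp [hb]
    rw [e] at hnd ⊢
    rw [pre_eq_of_split hnd, vl_append, hd, vl_cons, vl_nil, mul_one, h1]
  · have e : stw n = (((List.finRange n).take i).flatMap hb ++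
      [(Sum.inl i, true), (Sum.inr i, true)]) ++
      (Sum.inl i, false) :: ([(Sum.inr i, false)] ++ B) := by
      rw [hB]; simp [hb]
    rw [e] at hnd ⊢
    rw [pre_eq_of_split hnd, vl_append, hd, vl_cons, vl_cons, vl_nil, mul_one, h1, h1, mul_assoc]
  · have e : stw n = (((List.finRange n).take i).flatMap hb ++
      [(Sum.inl i, true), (Sum.inr i, true), (Sum.inl i, false)]) ++
      (Sum.inr i, false) :: B := by
      rw [hB]; simp [hb]
    rw [e] at hnd ⊢
    rw [pre_eq_of_split hnd, vl_append, hd, vl_cons, vl_cons, vl_cons, vl_nil, mul_one, h1, h1, h2,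
      mul_assoc, mul_assoc]

/-- Side pairing elements. -/
theorem hh_stw (i : Fin n) :
    hh (stw n) flp lt (Sum.inl i, true) =
      dl i * of (Sum.inl i) * of (Sum.inr i) * (of (Sum.inl i))⁻¹ * (dl i)⁻¹ ∧
    hh (stw n) flp lt (Sum.inr i, true) =
      dl i * of (Sum.inl i) * of (Sum.inr i) * (of (Sum.inl i))⁻¹ * (of (Sum.inr i))⁻¹ *
        (of (Sum.inl i))⁻¹ * (dl i)⁻¹ := by
  obtain ⟨p1, p2, p3, p4⟩ := vl_pre_stw i
  have h1 : ∀ x : Fin n ⊕ Fin n, lt (x, true) = of x := fun x => rfl
  have f1 : ∀ x : Fin n ⊕ Fin n, flp (x, true) = (x, false) := fun x => rfl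
  constructor
  · unfold hh
    rw [f1, p1, p3, h1]
    group
  · unfold hh
    rw [f1, p2, p4, h1]
    group

/-- The side pairing elements generate the free group. -/
theorem stw_gen : Subgroup.closure (Set.range (hh (stw n) flp lt)) = ⊤ := by
  set H := Subgroup.closure (Set.range (hh (stw n) flp lt)) with hH
  have hm : ∀ z, hh (stw n) flp lt z ∈ H := fun z => Subgroup.subset_closure ⟨z, rfl⟩
  have key : ∀ i : Fin n, (dl i : Fr n) ∈ H → of (Sum.inl i) ∈ H ∧ of (Sum.inr i) ∈ H := by
    intro i hi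
    have e1 := hm (Sum.inl i, true)
    have e2 := hm (Sum.inr i, true)
    rw [(hh_stw i).1] at e1
    rw [(hh_stw i).2] at e2
    have e3 := H.mul_mem (H.mul_mem (H.inv_mem hi) e1) hi
    have e4 := H.mul_mem (H.mul_mem (H.inv_mem hi) e2) hi
    -- `(a b)⁻¹ = (a b a⁻¹)⁻¹ (a b a⁻¹ b⁻¹ a⁻¹)`
    have e5 := H.inv_mem (H.mul_mem (H.inv_mem e3) e4)
    have h5 : (((dl i)⁻¹ * (dl i * of (Sum.inl i) * of (Sum.inr i) * (of (Sum.inl i))⁻¹ *
        (dl i)⁻¹) * dl i)⁻¹ * ((dl i)⁻¹ * (dl i * of (Sum.inl i) * of (Sum.inr i) *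
        (of (Sum.inl i))⁻¹ * (of (Sum.inr i))⁻¹ * (of (Sum.inl i))⁻¹ * (dl i)⁻¹) * dl i))⁻¹ =
        (of (Sum.inl i) * of (Sum.inr i) : Fr n) := by group
    rw [h5] at e5
    have e6 := H.mul_mem (H.inv_mem e3) e5
    have h6 : ((dl i)⁻¹ * (dl i * of (Sum.inl i) * of (Sum.inr i) * (of (Sum.inl i))⁻¹ *
        (dl i)⁻¹) * dl i)⁻¹ * (of (Sum.inl i) * of (Sum.inr i)) = (of (Sum.inl i) : Fr n) := by
      group
    rw [h6] at e6
    have e7 := H.mul_mem (H.inv_mem e6) e5
    have h7 : (of (Sum.inl i))⁻¹ * (of (Sum.inl i) * of (Sum.inr i)) = (of (Sum.inr i) : Fr n) := by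
      group
    rw [h7] at e7
    exact ⟨e6, e7⟩
  have hd : ∀ m, m ≤ n → (dl m : Fr n) ∈ H := by
    intro m
    induction m with
    | zero => intro _; rw [dl]; exact H.one_mem
    | succ m ih =>
      intro hmn
      have h1 := ih (by omega)
      obtain ⟨k1, k2⟩ := key ⟨m, hmn⟩ h1
      rw [dl_succ m hmn]
      refine H.mul_mem h1 ?_
      rw [kk]
      exact H.mul_mem (H.mul_mem (H.mul_mem k1 k2) (H.inv_mem k1)) (H.inv_mem k2)
  rw [eq_top_iff, ← FreeGroup.closure_range_of, Subgroup.closure_le]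
  rintro _ ⟨x, rfl⟩
  rcases x with i | i
  · exact (key i (hd i i.2.le)).1
  · exact (key i (hd i i.2.le)).2

/-- The push group of the standard word is normalised by all automorphisms fixing `dl n`. -/
theorem fold_stw {f : MulAut (Fr n)} (hf : f (dl n) = dl n) (z : (Fin n ⊕ Fin n) × Bool) :
    push stw_isQ z ∈ Subgroup.closure (Set.range fun y => f * push stw_isQ y * f⁻¹) :=
  fold_thm stw_isQ stw_gen (by rw [mk_stw, hf]) z

/-- Values of the pushes across the inverse letters. -/
theorem push_inl (i : Fin n) :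
    push stw_isQ (Sum.inl i, false) (of (Sum.inl i)) =
      (dl i)⁻¹ * (dl n)⁻¹ * dl i * of (Sum.inl i) ∧
    ∀ x, x ≠ Sum.inl i → push stw_isQ (Sum.inl i, false) (of x) = of x := by
  constructor
  · have h1 := pushHom_self (stw n) (Sum.inl i, false)
    have h2 := pushHom_flp (stw n) (Sum.inl i, false)
    change pushHom (stw n) (Sum.inl i, false) (of (Sum.inl i)) = _
    have h3 : lt (flp (Sum.inl i, false)) = (of (Sum.inl i) : Fr n) := rfl
    have h4 : flp (Sum.inl i, false) = ((Sum.inl i, true) : (Fin n ⊕ Fin n) × Bool) := rfl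
    rw [h3, h4] at h2
    rw [h2]
    unfold rotn
    rw [(vl_pre_stw i).1, mk_stw]
    group
  · intro x hx
    exact pushHom_ne (stw n) (z := (Sum.inl i, false)) (z' := (x, true)) (by simp)
      (by simp [flp, hx])

theorem push_inr (i : Fin n) :
    push stw_isQ (Sum.inr i, false) (of (Sum.inr i)) =
      (dl i * of (Sum.inl i))⁻¹ * (dl n)⁻¹ * (dl i * of (Sum.inl i)) * of (Sum.inr i) ∧
    ∀ x, x ≠ Sum.inr i → push stw_isQ (Sum.inr i, false) (of x) = of x := by
  constructor
  · have h2 := pushHom_flp (stw n) (Sum.inr i, false)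
    change pushHom (stw n) (Sum.inr i, false) (of (Sum.inr i)) = _
    have h3 : lt (flp (Sum.inr i, false)) = (of (Sum.inr i) : Fr n) := rfl
    have h4 : flp (Sum.inr i, false) = ((Sum.inr i, true) : (Fin n ⊕ Fin n) × Bool) := rfl
    rw [h3, h4] at h2
    rw [h2]
    unfold rotn
    rw [(vl_pre_stw i).2.1, mk_stw]
    group
  · intro x hx
    exact pushHom_ne (stw n) (z := (Sum.inr i, false)) (z' := (x, true)) (by simp)
      (by simp [flp, hx])

end Pool.MP_59b15d_al.H95
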