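import Pool.Agent.H.MP_59b15d_al.h73e.Htc

/-!
# Folding of quadratic words, part 8: the pushes of the word and the pushes of the surface
-/

set_option autoImplicit false

namespace Pool.MP_59b15d_al.H95

open Pool.MP_59b15d_al.H24T Pool.MP_59b15d_al.H76R Pool.MP_59b15d_al.H73E
open FreeGroup (of)

section

variable {n : ℕ} {G : Type*} [Group G] {a b : Fin (n + 1) → G}

/-- Value of the push automorphisms on the boundary. -/
theorem Xh_val_dl (h : IsSurf a b) (y : Fr n) (w : Fp n)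
    (hw : XX h y (a (Fin.last n)) = jA a b w) : Xh h y (dl n) = (pz n w)⁻¹ := by
  obtain ⟨w', h1, h2⟩ := (Xh_hat h y).fwd (of none)
  rw [jA_none, hw] at h1
  rw [jA_injective h h1, h2, pz_none, map_inv, inv_inv]

variable (h : IsSurf a b) (j : Fin n)

theorem Ya_c : Xh h (of (Sum.inl j)) (dl n) =
    dl n * (of (Sum.inl j))⁻¹ * dl n * of (Sum.inl j) * (dl n)⁻¹ := by
  rw [Xh_val_dl h (of (Sum.inl j)) ((of none)⁻¹ * (of (some (Sum.inl j)))⁻¹ * of none *
    of (some (Sum.inl j)) * of none)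
    (by rw [XX_a, Xa_al]; simp only [map_mul, map_inv, jA_none, jA_a])]
  simp only [map_mul, map_inv, pz_none, pz_some, inv_inv]
  group

theorem Yb_c : Xh h (of (Sum.inr j)) (dl n) =
    (of (Sum.inr j))⁻¹ * dl n * of (Sum.inr j) := by
  rw [Xh_val_dl h (of (Sum.inr j)) ((of (some (Sum.inr j)))⁻¹ * of none *
    of (some (Sum.inr j)))
    (by rw [XX_b, Xb_al]; simp only [map_mul, map_inv, jA_none, jA_b])]
  simp only [map_mul, map_inv, pz_none, pz_some]
  group

theorem Ya_lt {k : Fin n} (hk : k < j) :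
    Xh h (of (Sum.inl j)) (of (Sum.inl k)) = of (Sum.inl k) ∧
    Xh h (of (Sum.inl j)) (of (Sum.inr k)) = of (Sum.inr k) := by
  have hk' : k.castSucc < j.castSucc := hk
  constructor
  · rw [Xh_val h _ (of (Sum.inl k)) (of (some (Sum.inl k)))
      (by rw [jR_a, XX_a, Xa_a_lt h j hk', jA_a]), pz_some]
  · rw [Xh_val h _ (of (Sum.inr k)) (of (some (Sum.inr k)))
      (by rw [jR_b, XX_a, Xa_b_lt h j hk', jA_b]), pz_some]

theorem Yb_lt {k : Fin n} (hk : k < j) :
    Xh h (of (Sum.inr j)) (of (Sum.inl k)) = of (Sum.inl k) ∧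
    Xh h (of (Sum.inr j)) (of (Sum.inr k)) = of (Sum.inr k) := by
  have hk' : k.castSucc < j.castSucc := hk
  constructor
  · rw [Xh_val h _ (of (Sum.inl k)) (of (some (Sum.inl k)))
      (by rw [jR_a, XX_b, Xb_a_lt h j hk', jA_a]), pz_some]
  · rw [Xh_val h _ (of (Sum.inr k)) (of (some (Sum.inr k)))
      (by rw [jR_b, XX_b, Xb_b_lt h j hk', jA_b]), pz_some]

theorem Ya_a : Xh h (of (Sum.inl j)) (of (Sum.inl j)) =
    dl n * of (Sum.inl j) * (dl n)⁻¹ := by
  rw [Xh_val h _ (of (Sum.inl j)) ((of none)⁻¹ * of (some (Sum.inl j)) * of none)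
    (by rw [jR_a, XX_a, Xa_aj]; simp only [map_mul, map_inv, jA_none, jA_a])]
  simp only [map_mul, map_inv, pz_none, pz_some, inv_inv]

theorem Ya_b : Xh h (of (Sum.inl j)) (of (Sum.inr j)) =
    dl n * (of (Sum.inl j))⁻¹ * (dl n)⁻¹ * of (Sum.inl j) * of (Sum.inr j) * (dl n)⁻¹ := by
  rw [Xh_val h _ (of (Sum.inr j)) ((of none)⁻¹ * (of (some (Sum.inl j)))⁻¹ * of none *
    of (some (Sum.inl j)) * of (some (Sum.inr j)) * of none)
    (by rw [jR_b, XX_a, Xa_bj]; simp only [map_mul, map_inv, jA_none, jA_a, jA_b])]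
  simp only [map_mul, map_inv, pz_none, pz_some, inv_inv]

theorem Yb_a : Xh h (of (Sum.inr j)) (of (Sum.inl j)) =
    of (Sum.inl j) * (of (Sum.inr j))⁻¹ * dl n * of (Sum.inr j) := by
  rw [Xh_val h _ (of (Sum.inl j)) (of (some (Sum.inl j)) * ((of (some (Sum.inr j)))⁻¹ * of none *
    of (some (Sum.inr j)))⁻¹)
    (by rw [jR_a, XX_b, Xb_aj]; simp only [map_mul, map_inv, jA_none, jA_a, jA_b])]
  simp only [map_mul, map_inv, pz_none, pz_some, inv_inv]
  group

theorem Yb_b : Xh h (of (Sum.inr j)) (of (Sum.inr j)) =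
    (of (Sum.inr j))⁻¹ * (dl n)⁻¹ * of (Sum.inr j) * dl n * of (Sum.inr j) := by
  rw [Xh_val h _ (of (Sum.inr j)) (((of (some (Sum.inr j)))⁻¹ * of none * of (some (Sum.inr j))) *
    of (some (Sum.inr j)) * ((of (some (Sum.inr j)))⁻¹ * of none * of (some (Sum.inr j)))⁻¹)
    (by rw [jR_b, XX_b, Xb_bj]; simp only [map_mul, map_inv, jA_none, jA_b])]
  simp only [map_mul, map_inv, pz_none, pz_some, inv_inv]
  group

theorem Ya_gt {k : Fin n} (hk : j < k) :
    Xh h (of (Sum.inl j)) (of (Sum.inl k)) =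
      (dl n * (of (Sum.inl j))⁻¹ * (dl n)⁻¹ * of (Sum.inl j)) * of (Sum.inl k) *
      (dl n * (of (Sum.inl j))⁻¹ * (dl n)⁻¹ * of (Sum.inl j))⁻¹ ∧
    Xh h (of (Sum.inl j)) (of (Sum.inr k)) =
      (dl n * (of (Sum.inl j))⁻¹ * (dl n)⁻¹ * of (Sum.inl j)) * of (Sum.inr k) *
      (dl n * (of (Sum.inl j))⁻¹ * (dl n)⁻¹ * of (Sum.inl j))⁻¹ := by
  have hk' : j.castSucc < k.castSucc := hk
  have hk2 : k.castSucc < Fin.last n := Fin.castSucc_lt_last k
  constructor
  · rw [Xh_val h _ (of (Sum.inl k)) (((of none)⁻¹ * (of (some (Sum.inl j)))⁻¹ * of none *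
      of (some (Sum.inl j))) * of (some (Sum.inl k)) * ((of none)⁻¹ * (of (some (Sum.inl j)))⁻¹ *
      of none * of (some (Sum.inl j)))⁻¹)
      (by rw [jR_a, XX_a, Xa_a_mid h j hk' hk2]; simp only [map_mul, map_inv, jA_none, jA_a])]
    simp only [map_mul, map_inv, pz_none, pz_some, inv_inv]
  · rw [Xh_val h _ (of (Sum.inr k)) (((of none)⁻¹ * (of (some (Sum.inl j)))⁻¹ * of none *
      of (some (Sum.inl j))) * of (some (Sum.inr k)) * ((of none)⁻¹ * (of (some (Sum.inl j)))⁻¹ *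
      of none * of (some (Sum.inl j)))⁻¹)
      (by rw [jR_b, XX_a, Xa_b_mid h j hk' hk2]; simp only [map_mul, map_inv, jA_none, jA_a, jA_b])]
    simp only [map_mul, map_inv, pz_none, pz_some, inv_inv]

theorem Yb_gt {k : Fin n} (hk : j < k) :
    Xh h (of (Sum.inr j)) (of (Sum.inl k)) =
      ((of (Sum.inr j))⁻¹ * (dl n)⁻¹ * of (Sum.inr j) * dl n) * of (Sum.inl k) *
      ((of (Sum.inr j))⁻¹ * (dl n)⁻¹ * of (Sum.inr j) * dl n)⁻¹ ∧
    Xh h (of (Sum.inr j)) (of (Sum.inr k)) =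
      ((of (Sum.inr j))⁻¹ * (dl n)⁻¹ * of (Sum.inr j) * dl n) * of (Sum.inr k) *
      ((of (Sum.inr j))⁻¹ * (dl n)⁻¹ * of (Sum.inr j) * dl n)⁻¹ := by
  have hk' : j.castSucc < k.castSucc := hk
  have hk2 : k.castSucc < Fin.last n := Fin.castSucc_lt_last k
  constructor
  · rw [Xh_val h _ (of (Sum.inl k)) (((of (some (Sum.inr j)))⁻¹ * of none *
      of (some (Sum.inr j)) * (of none)⁻¹) * of (some (Sum.inl k)) * ((of (some (Sum.inr j)))⁻¹ *
      of none * of (some (Sum.inr j)) * (of none)⁻¹)⁻¹)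
      (by rw [jR_a, XX_b, Xb_a_mid h j hk' hk2]; simp only [map_mul, map_inv, jA_none, jA_a, jA_b])]
    simp only [map_mul, map_inv, pz_none, pz_some, inv_inv]
  · rw [Xh_val h _ (of (Sum.inr k)) (((of (some (Sum.inr j)))⁻¹ * of none *
      of (some (Sum.inr j)) * (of none)⁻¹) * of (some (Sum.inr k)) * ((of (some (Sum.inr j)))⁻¹ *
      of none * of (some (Sum.inr j)) * (of none)⁻¹)⁻¹)
      (by rw [jR_b, XX_b, Xb_b_mid h j hk' hk2]; simp only [map_mul, map_inv, jA_none, jA_b])]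
    simp only [map_mul, map_inv, pz_none, pz_some, inv_inv]

/-- The push around the first `m` handles on the boundary of these. -/
theorem Ys_s {m : ℕ} (hm : m ≤ n) : Xh h (dl m) (dl m) = dl n * dl m * (dl n)⁻¹ := by
  have key : ∀ l, l ≤ m → Xh h (dl m) (dl l) = dl n * dl l * (dl n)⁻¹ := by
    intro l
    induction l with
    | zero => intro _; rw [show (dl 0 : Fr n) = 1 from rfl, map_one]; group
    | succ l ih =>
      intro hl
      have hln : l < n := by omega
      have h1 := Xh_dl_lt h hm (k := ⟨l, hln⟩) (by simpa using hl)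
      rw [dl_succ l hln, map_mul, ih (by omega), kk]
      simp only [map_mul, map_inv, h1.1, h1.2]
      group
  exact key m le_rfl

theorem Ys_c {m : ℕ} (hm : m ≤ n) : Xh h (dl m) (dl n) =
    dl n * (dl m)⁻¹ * dl n * dl m * (dl n)⁻¹ := by
  have h0 := (Xdl h m hm).2.2.1
  rw [Xh_val_dl h (dl m) ((inc n (dl m) * of none)⁻¹ * of none * (inc n (dl m) * of none))
    (by rw [h0]; simp only [map_mul, map_inv, jA_none, jA_inc]; rfl)]
  simp only [map_mul, map_inv, pz_none, pz_inc]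
  group

/-- The pushes around the handle `j` fix the boundary of the first `j` handles. -/
theorem Yx_s (y : Fr n) (hy : ∀ k, k < j → Xh h y (of (Sum.inl k)) = of (Sum.inl k) ∧
    Xh h y (of (Sum.inr k)) = of (Sum.inr k)) : Xh h y (dl j) = dl j := by
  have key : ∀ l, l ≤ (j : ℕ) → Xh h y (dl l) = dl l := by
    intro l
    induction l with
    | zero => intro _; rw [show (dl 0 : Fr n) = 1 from rfl, map_one]
    | succ l ih =>
      intro hl
      have hln : l < n := by omega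
      have h1 := hy ⟨l, hln⟩ (by rw [Fin.lt_def]; exact hl)
      rw [dl_succ l hln, map_mul, ih (by omega), kk]
      simp only [map_mul, map_inv, h1.1, h1.2]
  exact key j le_rfl

theorem Ya_s : Xh h (of (Sum.inl j)) (dl j) = dl j := Yx_s h j _ fun k hk => Ya_lt h j hk
theorem Yb_s : Xh h (of (Sum.inr j)) (dl j) = dl j := Yx_s h j _ fun k hk => Yb_lt h j hk

/-- A homomorphism fixing the generators of all handles but `j`. -/
theorem fix_dl {F : Type*} [FunLike F (Fr n) (Fr n)] [MonoidHomClass F (Fr n) (Fr n)] (f : F)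
    (hf : ∀ k, k ≠ j → f (of (Sum.inl k)) = of (Sum.inl k) ∧ f (of (Sum.inr k)) = of (Sum.inr k)) :
    f (dl j) = dl j ∧ f (dl n) = dl j * f (kk j) * (kk j)⁻¹ * (dl j)⁻¹ * dl n := by
  have key : ∀ l, l ≤ (j : ℕ) → f (dl l) = dl l := by
    intro l
    induction l with
    | zero => intro _; rw [show (dl 0 : Fr n) = 1 from rfl, map_one]
    | succ l ih =>
      intro hl
      have hln : l < n := by omega
      have h1 := hf ⟨l, hln⟩ (by rw [Ne, Fin.ext_iff]; exact fun h => by simp at h; omega)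
      rw [dl_succ l hln, map_mul, ih (by omega), kk]
      simp only [map_mul, map_inv, h1.1, h1.2]
  have k1 := key j le_rfl
  refine ⟨k1, ?_⟩
  have key2 : ∀ l, (j : ℕ) + 1 ≤ l → l ≤ n →
      f (dl l) = dl j * f (kk j) * (kk j)⁻¹ * (dl j)⁻¹ * dl l := by
    intro l hl
    induction l, hl using Nat.le_induction with
    | base =>
      intro _
      rw [dl_succ (j : ℕ) j.2, map_mul, k1]
      group
    | succ l hl ih =>
      intro hln
      have h1 := hf ⟨l, hln⟩ (by rw [Ne, Fin.ext_iff]; exact fun h => by simp at h; omega)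
      rw [dl_succ l hln, map_mul, ih (by omega)]
      rw [show (kk ⟨l, hln⟩ : Fr n) = of (Sum.inl ⟨l, hln⟩) * of (Sum.inr ⟨l, hln⟩) *
        (of (Sum.inl ⟨l, hln⟩))⁻¹ * (of (Sum.inr ⟨l, hln⟩))⁻¹ from rfl]
      simp only [map_mul, map_inv, h1.1, h1.2]
      group
  exact key2 n j.2 le_rfl

end

end Pool.MP_59b15d_al.H95
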