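import Pool.Agent.H.MP_59b15d_al.h95.Fd9a
import Pool.Agent.H.MP_59b15d_al.h95.Fd9b

/-!
# Folding of quadratic words, part 9: the pushes of the word in terms of those of the surface
-/
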