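import Pool.Agent.H.MP_59b15d_al.h95.Fd7
import Pool.Agent.H.MP_59b15d_al.h95.Fd8

/-!
# Folding of quadratic words, part 9, preliminaries
-/

set_option autoImplicit false

namespace Pool.MP_59b15d_al.H95

open Pool.MP_59b15d_al.H24T Pool.MP_59b15d_al.H76R Pool.MP_59b15d_al.H73E
open FreeGroup (of)

section

variable {n : ℕ} {G : Type*} [Group G] {a b : Fin (n + 1) → G}

theorem aut_ext_fr {f g : MulAut (Fr n)} (h : ∀ k : Fin n, f (of (Sum.inl k)) = g (of (Sum.inl k)) ∧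
    f (of (Sum.inr k)) = g (of (Sum.inr k))) : f = g := by
  apply MulEquiv.ext
  intro z
  have h1 : f.toMonoidHom = g.toMonoidHom := by
    ext1 x
    rcases x with k | k
    · exact (h k).1
    · exact (h k).2
  exact DFunLike.congr_fun h1 z

variable (h : IsSurf a b) (j : Fin n)

/-- The push across `a j ⁻¹`. -/
theorem Da_ne {k : Fin n} (hk : k ≠ j) :
    push stw_isQ (Sum.inl j, false) (of (Sum.inl k)) = of (Sum.inl k) ∧
    push stw_isQ (Sum.inl j, false) (of (Sum.inr k)) = of (Sum.inr k) :=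
  ⟨(push_inl j).2 _ (by simpa using hk), (push_inl j).2 _ (by simp)⟩

theorem Db_ne {k : Fin n} (hk : k ≠ j) :
    push stw_isQ (Sum.inr j, false) (of (Sum.inl k)) = of (Sum.inl k) ∧
    push stw_isQ (Sum.inr j, false) (of (Sum.inr k)) = of (Sum.inr k) :=
  ⟨(push_inr j).2 _ (by simp), (push_inr j).2 _ (by simpa using hk)⟩

theorem Da_s : push stw_isQ (Sum.inl j, false) (dl j) = dl j :=
  (fix_dl j (push stw_isQ (Sum.inl j, false)) fun _ hk => Da_ne j hk).1

theorem Db_s : push stw_isQ (Sum.inr j, false) (dl j) = dl j :=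
  (fix_dl j (push stw_isQ (Sum.inr j, false)) fun _ hk => Db_ne j hk).1

theorem Da_c : push stw_isQ (Sum.inl j, false) (dl n) =
    (dl n)⁻¹ * (dl j * of (Sum.inl j) * of (Sum.inr j) * (of (Sum.inl j))⁻¹ * (dl j)⁻¹) * dl n *
      (dl j * of (Sum.inl j) * of (Sum.inr j) * (of (Sum.inl j))⁻¹ * (dl j)⁻¹)⁻¹ * dl n := by
  rw [(fix_dl j (push stw_isQ (Sum.inl j, false)) fun _ hk => Da_ne j hk).2, kk]
  have h1 := (push_inl j).1
  have h2 := (push_inl j).2 (Sum.inr j) (by simp)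
  simp only [map_mul, map_inv, h1, h2]
  group

theorem Db_c : push stw_isQ (Sum.inr j, false) (dl n) =
    (dl n)⁻¹ * (dl j * of (Sum.inl j) * of (Sum.inr j) * (of (Sum.inl j))⁻¹ * (of (Sum.inr j))⁻¹ *
      (of (Sum.inl j))⁻¹ * (dl j)⁻¹) * dl n *
      (dl j * of (Sum.inl j) * of (Sum.inr j) * (of (Sum.inl j))⁻¹ * (of (Sum.inr j))⁻¹ *
      (of (Sum.inl j))⁻¹ * (dl j)⁻¹)⁻¹ * dl n := by
  rw [(fix_dl j (push stw_isQ (Sum.inr j, false)) fun _ hk => Db_ne j hk).2, kk]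
  have h1 := (push_inr j).1
  have h2 := (push_inr j).2 (Sum.inl j) (by simp)
  simp only [map_mul, map_inv, h1, h2]
  group

end

end Pool.MP_59b15d_al.H95
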