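import Pool.Agent.H.MP_59b15d_al.h95.Nf3

/-!
# Merging of faces, part 1: walks modulo a subgroup
-/

set_option autoImplicit false

namespace Pool.MP_59b15d_al.H95

variable {I F : Type*} [Group F]

/-- `u` and `w` lie in the same right coset of `H`. -/
def Rl (H : Subgroup F) (u w : F) : Prop := u * w⁻¹ ∈ H

theorem Rl.refl (H : Subgroup F) (u : F) : Rl H u u := by
  unfold Rl
  rw [mul_inv_cancel]
  exact H.one_mem

theorem Rl.symm {H : Subgroup F} {u w : F} (h : Rl H u w) : Rl H w u := by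
  have h1 := H.inv_mem h
  unfold Rl
  rwa [mul_inv_rev, inv_inv] at h1

theorem Rl.trans {H : Subgroup F} {u v w : F} (h : Rl H u v) (h' : Rl H v w) : Rl H u w := by
  have h1 := H.mul_mem h h'
  unfold Rl
  have h2 : u * v⁻¹ * (v * w⁻¹) = u * w⁻¹ := by group
  rwa [h2] at h1

theorem Rl.mul {H : Subgroup F} {u w : F} (h : Rl H u w) (t : F) : Rl H (u * t) (w * t) := by
  unfold Rl at h ⊢
  have h2 : u * t * (w * t)⁻¹ = u * w⁻¹ := by group
  rwa [h2]

theorem Rl.of_mul {H : Subgroup F} {u w t : F} (h : Rl H (u * t) (w * t)) : Rl H u w := by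
  unfold Rl at h ⊢
  have h2 : u * t * (w * t)⁻¹ = u * w⁻¹ := by group
  rwa [h2] at h

theorem Rl.mem {H : Subgroup F} {u w : F} (h : Rl H u w) : u * w⁻¹ ∈ H := h

/-- `b` follows the walk `l` starting from `u`, modulo `H`. -/
def Wk (H : Subgroup F) (ε b : I → F) : F → List I → Prop
  | _, [] => True
  | u, p :: l => Rl H (b p) u ∧ Wk H ε b (u * ε p) l

section walk

variable {H : Subgroup F} {ε b : I → F}

theorem Wk_nil (u : F) : Wk H ε b u [] := trivial

theorem Wk_cons {u : F} {p : I} {l : List I} :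
    Wk H ε b u (p :: l) ↔ Rl H (b p) u ∧ Wk H ε b (u * ε p) l := Iff.rfl

theorem Wk_append {l l' : List I} : ∀ {u : F},
    Wk H ε b u (l ++ l') ↔ Wk H ε b u l ∧ Wk H ε b (u * vl ε l) l' := by
  induction l with
  | nil =>
    intro u
    rw [List.nil_append, vl_nil, mul_one]
    exact ⟨fun h => ⟨trivial, h⟩, fun h => h.2⟩
  | cons a l ih =>
    intro u
    rw [List.cons_append, Wk_cons, Wk_cons, ih, vl_cons, ← mul_assoc, and_assoc]

theorem Wk.congr {l : List I} : ∀ {u u' : F}, Wk H ε b u l → Rl H u u' → Wk H ε b u' l := by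
  induction l with
  | nil => intro u u' _ _; trivial
  | cons a l ih =>
    intro u u' h h'
    exact ⟨h.1.trans h', ih h.2 (h'.mul _)⟩

theorem Wk.congr_b {b' : I → F} {l : List I} : ∀ {u : F}, Wk H ε b u l → (∀ p ∈ l, b' p = b p) →
    Wk H ε b' u l := by
  induction l with
  | nil => intro u _ _; trivial
  | cons a l ih =>
    intro u h h'
    refine ⟨?_, ih h.2 fun p hp => h' p (List.mem_cons_of_mem _ hp)⟩
    rw [h' a List.mem_cons_self]
    exact h.1

theorem Wk.pre [DecidableEq I] {l : List I} : ∀ {u : F}, Wk H ε b u l → ∀ p ∈ l,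
    Rl H (b p) (u * vl ε (pre l p)) := by
  induction l with
  | nil => intro u _ p hp; simp at hp
  | cons a l ih =>
    intro u h p hp
    by_cases hap : a = p
    · subst hap
      rw [pre_cons_self, vl_nil, mul_one]
      exact h.1
    · rw [pre_cons_ne _ hap, vl_cons, ← mul_assoc]
      exact ih h.2 p (by simpa [Ne.symm hap] using hp)

theorem Wk.of_pre [DecidableEq I] {l : List I} (nd : l.Nodup) : ∀ {u : F},
    (∀ p ∈ l, Rl H (b p) (u * vl ε (Pool.MP_59b15d_al.H95.pre l p))) → Wk H ε b u l := by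
  induction l with
  | nil => intro u _; trivial
  | cons a l ih =>
    intro u h
    rw [List.nodup_cons] at nd
    refine ⟨?_, ih nd.2 ?_⟩
    · have h1 := h a List.mem_cons_self
      rwa [pre_cons_self, vl_nil, mul_one] at h1
    · intro p hp
      have hap : a ≠ p := fun hh => nd.1 (hh ▸ hp)
      have h1 := h p (List.mem_cons_of_mem _ hp)
      rwa [pre_cons_ne _ hap, vl_cons, ← mul_assoc] at h1

end walk

/-- The system of the boundary word `L` and of the faces `fc k`, `k ∈ R`, has a section modulo `H`. -/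
def Good {κ : Type*} (σ : I → I) (ε : I → F) (fc : κ → List I) (L : List I) (R : Finset κ)
    (H : Subgroup F) : Prop :=
  ∃ (b : I → F) (β : κ → F), Wk H ε b 1 L ∧ Rl H (vl ε L) 1 ∧
    (∀ k ∈ R, Rl H (β k * vl ε (fc k)) (β k) ∧ Wk H ε b (β k) (fc k)) ∧
    ∀ p, (p ∈ L ∨ ∃ k ∈ R, p ∈ fc k) → Rl H (b (σ p)) (b p * ε p)

end Pool.MP_59b15d_al.H95
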