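import Pool.Agent.H.MP_59b15d_al.h95.Mf1

/-!
# Merging of faces, part 2: the merging step
-/

set_option autoImplicit false

namespace Pool.MP_59b15d_al.H95

variable {I F : Type*} [DecidableEq I] [Group F] {κ : Type*} [DecidableEq κ] [Fintype κ]

/-- A system of faces: the base face `L₀` and the faces `fc k` with the punctures `y k`. -/
structure Sys (σ : I → I) (ε : I → F) (fc : κ → List I) (y : κ → I) (L₀ : List I) : Prop where
  inv : ∀ p, σ (σ p) = p
  eps : ∀ p, σ p ≠ p → ε (σ p) = (ε p)⁻¹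
  sy : ∀ k, σ (y k) = y k
  ey : ∀ k, ε (y k) = (vl ε (fc k))⁻¹
  nf : ∀ k, (fc k).Nodup
  dj : ∀ k k', k ≠ k' → ∀ p ∈ fc k, p ∉ fc k'
  nL : L₀.Nodup
  d0 : ∀ k, ∀ p ∈ fc k, p ∉ L₀
  fp : ∀ k, ∀ p ∈ fc k, σ p ≠ p
  fL : ∀ p ∈ L₀, σ p ≠ p
  yi : Function.Injective y
  cl : ∀ p, (p ∈ L₀ ∨ ∃ k, p ∈ fc k) → (σ p ∈ L₀ ∨ ∃ k, σ p ∈ fc k)
  gen : Subgroup.closure (ε '' {p | p ∈ L₀ ∨ ∃ k, p ∈ fc k}) = ⊤
  conn : ∀ R : Finset κ, R.Nonempty →
    ∃ p, (p ∈ L₀ ∨ ∃ k, k ∉ R ∧ p ∈ fc k) ∧ ∃ k ∈ R, σ p ∈ fc k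

/-- States of the merging process: `R` is the set of faces not yet merged. -/
structure Mst (σ : I → I) (ε : I → F) (fc : κ → List I) (y : κ → I) (L₀ : List I)
    (L : List I) (R : Finset κ) : Prop where
  nd : L.Nodup
  dj : ∀ k ∈ R, ∀ p ∈ fc k, p ∉ L
  pun : ∀ p ∈ L, σ p = p → ∃ k, k ∉ R ∧ p = y k
  yin : ∀ k, k ∉ R → y k ∈ L
  cl : ∀ p, (p ∈ L ∨ ∃ k ∈ R, p ∈ fc k) → (σ p ∈ L ∨ ∃ k ∈ R, σ p ∈ fc k)
  val : vl ε L = vl ε L₀
  gen : Subgroup.closure (ε '' {p | p ∈ L ∨ ∃ k ∈ R, p ∈ fc k}) = ⊤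
  len : L.length + ∑ k ∈ R, (fc k).length + Fintype.card κ =
    L₀.length + ∑ k, (fc k).length + R.card
  good : ∀ H, Good σ ε fc L R H ↔ Good σ ε fc L₀ Finset.univ H
  old : ∀ p, (p ∈ L₀ ∨ ∃ k, k ∉ R ∧ p ∈ fc k) → p ∈ L ∨ ∀ k ∈ R, σ p ∉ fc k

variable {σ : I → I} {ε : I → F} {fc : κ → List I} {y : κ → I} {L₀ : List I}

theorem Sys.init (S : Sys σ ε fc y L₀) : Mst σ ε fc y L₀ L₀ Finset.univ where
  nd := S.nL
  dj := fun k _ p hp => S.d0 k p hp
  pun := fun p hp h => absurd h (S.fL p hp)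
  yin := fun k hk => absurd (Finset.mem_univ k) hk
  cl := by simpa using S.cl
  val := rfl
  gen := by simpa using S.gen
  len := by rw [Finset.card_univ]
  good := fun H => Iff.rfl
  old := by
    intro p hp
    rcases hp with h | ⟨k, hk, -⟩
    · exact Or.inl h
    · exact absurd (Finset.mem_univ k) hk

theorem Sys.y_notMem (S : Sys σ ε fc y L₀) (k k' : κ) : y k ∉ fc k' :=
  fun h => S.fp k' _ h (S.sy k)

section step

variable {L : List I} {R : Finset κ} {A B C D : List I} {x : I} {k : κ}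

/-- The data of a merging step. -/
structure Ms (σ : I → I) (ε : I → F) (fc : κ → List I) (y : κ → I) (L₀ : List I)
    (L : List I) (R : Finset κ) (A B C D : List I) (x : I) (k : κ) : Prop where
  S : Sys σ ε fc y L₀
  M : Mst σ ε fc y L₀ L R
  hL : L = A ++ x :: B
  hf : fc k = C ++ σ x :: D
  hk : k ∈ R

theorem Ms.y_notMem (h : Ms σ ε fc y L₀ L R A B C D x k) : y k ∉ L := by
  intro h1
  obtain ⟨k', h2, h3⟩ := h.M.pun _ h1 (h.S.sy k)
  have h4 := h.S.yi h3
  subst h4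
  exact h2 h.hk

theorem Ms.x_mem (h : Ms σ ε fc y L₀ L R A B C D x k) : x ∈ L := by rw [h.hL]; simp

theorem Ms.sx_mem (h : Ms σ ε fc y L₀ L R A B C D x k) : σ x ∈ fc k := by rw [h.hf]; simp

theorem Ms.sx_ne (h : Ms σ ε fc y L₀ L R A B C D x k) : σ x ≠ x := by
  intro h1
  exact h.S.fp k _ h.sx_mem (by rw [h1, h1])

theorem Ms.sx_notMem (h : Ms σ ε fc y L₀ L R A B C D x k) : σ x ∉ L := h.M.dj k h.hk _ h.sx_mem

theorem Ms.memL (h : Ms σ ε fc y L₀ L R A B C D x k) {p : I} : p ∈ L ↔ p ∈ A ∨ p = x ∨ p ∈ B := by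
  rw [h.hL]
  simp

theorem Ms.memf (h : Ms σ ε fc y L₀ L R A B C D x k) {p : I} :
    p ∈ fc k ↔ p ∈ C ∨ p = σ x ∨ p ∈ D := by
  rw [h.hf]
  simp

theorem mem_L' {A B C D : List I} {z p : I} : p ∈ A ++ (D ++ z :: (C ++ B)) ↔
    p ∈ A ∨ p ∈ D ∨ p = z ∨ p ∈ C ∨ p ∈ B := by
  simp

theorem Ms.x_notMem (h : Ms σ ε fc y L₀ L R A B C D x k) :
    x ∉ A ∧ x ∉ B ∧ x ∉ C ∧ x ∉ D ∧ σ x ∉ A ∧ σ x ∉ B ∧ σ x ∉ C ∧ σ x ∉ D := by
  have n1 := h.M.nd
  rw [h.hL] at n1
  have n2 := h.S.nf k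
  rw [h.hf] at n2
  have hx : x ∉ fc k := fun h1 => h.M.dj k h.hk _ h1 h.x_mem
  have hs := h.sx_notMem
  rw [h.memf, not_or, not_or] at hx
  rw [h.memL, not_or, not_or] at hs
  have m1 := List.nodup_append.1 n1
  have m2 := List.nodup_append.1 n2
  refine ⟨?_, ?_, hx.1, hx.2.2, hs.1, hs.2.2, ?_, ?_⟩
  · intro h1
    exact m1.2.2 _ h1 _ List.mem_cons_self rfl
  · exact (List.nodup_cons.1 m1.2.1).1
  · intro h1
    exact m2.2.2 _ h1 _ List.mem_cons_self rfl
  · exact (List.nodup_cons.1 m2.2.1).1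

theorem Ms.nodup (h : Ms σ ε fc y L₀ L R A B C D x k) : (A ++ (D ++ y k :: (C ++ B))).Nodup := by
  have n1 := h.M.nd
  rw [h.hL] at n1
  have n2 := h.S.nf k
  rw [h.hf] at n2
  have dj : ∀ p ∈ fc k, p ∉ L := h.M.dj k h.hk
  have yL := h.y_notMem
  have yf := h.S.y_notMem k k
  rw [h.memL, not_or, not_or] at yL
  rw [h.memf, not_or, not_or] at yf
  have m1 := List.nodup_append.1 n1
  have m2 := List.nodup_append.1 n2
  have a1 : A.Nodup := m1.1
  have b1 : B.Nodup := (List.nodup_cons.1 m1.2.1).2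
  have c1 : C.Nodup := m2.1
  have d1 : D.Nodup := (List.nodup_cons.1 m2.2.1).2
  have dA : ∀ p, p ∈ A → p ∉ C ∧ p ∉ D ∧ p ∉ B := by
    intro p hp
    refine ⟨fun hc => dj p (h.memf.2 (Or.inl hc)) (h.memL.2 (Or.inl hp)),
      fun hc => dj p (h.memf.2 (Or.inr (Or.inr hc))) (h.memL.2 (Or.inl hp)), fun hb => ?_⟩
    exact m1.2.2 p hp p (List.mem_cons_of_mem _ hb) rfl
  have dB : ∀ p, p ∈ B → p ∉ C ∧ p ∉ D := by
    intro p hp
    exact ⟨fun hc => dj p (h.memf.2 (Or.inl hc)) (h.memL.2 (Or.inr (Or.inr hp))),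
      fun hc => dj p (h.memf.2 (Or.inr (Or.inr hc))) (h.memL.2 (Or.inr (Or.inr hp)))⟩
  have dC : ∀ p, p ∈ C → p ∉ D := fun p hp hd =>
    m2.2.2 p hp p (List.mem_cons_of_mem _ hd) rfl
  rw [List.nodup_append]
  refine ⟨a1, ?_, ?_⟩
  · rw [List.nodup_append]
    refine ⟨d1, ?_, ?_⟩
    · rw [List.nodup_cons]
      refine ⟨?_, ?_⟩
      · rw [List.mem_append, not_or]
        exact ⟨yf.1, yL.2.2⟩
      · rw [List.nodup_append]
        refine ⟨c1, b1, ?_⟩
        intro p hp q hq hpq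
        subst hpq
        exact (dB p hq).1 hp
    · intro p hp q hq hpq
      subst hpq
      rw [List.mem_cons, List.mem_append] at hq
      rcases hq with h1 | h1 | h1
      · exact yf.2.2 (h1 ▸ hp)
      · exact dC p h1 hp
      · exact (dB p h1).2 hp
  · intro p hp q hq hpq
    subst hpq
    rw [List.mem_append, List.mem_cons, List.mem_append] at hq
    rcases hq with h1 | h1 | h1 | h1
    · exact (dA p hp).2.1 h1
    · exact yL.1 (h1 ▸ hp)
    · exact (dA p hp).1 h1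
    · exact (dA p hp).2.2 h1

/-- The letters of the new system. -/
theorem Ms.mem_iff (h : Ms σ ε fc y L₀ L R A B C D x k) {p : I} :
    (p ∈ A ++ (D ++ y k :: (C ++ B)) ∨ ∃ k' ∈ R.erase k, p ∈ fc k') ↔
      (p = y k ∨ ((p ∈ L ∨ ∃ k' ∈ R, p ∈ fc k') ∧ p ≠ x ∧ p ≠ σ x)) := by
  obtain ⟨x1, x2, x3, x4, x5, x6, x7, x8⟩ := h.x_notMem
  constructor
  · rintro (h1 | ⟨k', hk', hp⟩)
    · rw [mem_L'] at h1
      rcases h1 with h1 | h1 | h1 | h1 | h1
      · exact Or.inr ⟨Or.inl (h.memL.2 (Or.inl h1)), fun hh => x1 (hh ▸ h1), fun hh => x5 (hh ▸ h1)⟩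
      · exact Or.inr ⟨Or.inr ⟨k, h.hk, h.memf.2 (Or.inr (Or.inr h1))⟩, fun hh => x4 (hh ▸ h1),
          fun hh => x8 (hh ▸ h1)⟩
      · exact Or.inl h1
      · exact Or.inr ⟨Or.inr ⟨k, h.hk, h.memf.2 (Or.inl h1)⟩, fun hh => x3 (hh ▸ h1),
          fun hh => x7 (hh ▸ h1)⟩
      · exact Or.inr ⟨Or.inl (h.memL.2 (Or.inr (Or.inr h1))), fun hh => x2 (hh ▸ h1),
          fun hh => x6 (hh ▸ h1)⟩
    · rw [Finset.mem_erase] at hk'
      refine Or.inr ⟨Or.inr ⟨k', hk'.2, hp⟩, ?_, ?_⟩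
      · intro hh
        exact h.M.dj k' hk'.2 p hp (hh ▸ h.x_mem)
      · intro hh
        exact h.S.dj k' k hk'.1 p hp (hh ▸ h.sx_mem)
  · rintro (h1 | ⟨h1, n1, n2⟩)
    · left
      rw [mem_L']
      exact Or.inr (Or.inr (Or.inl h1))
    · rcases h1 with h1 | ⟨k', hk', hp⟩
      · left
        rw [mem_L']
        rcases h.memL.1 h1 with h2 | h2 | h2
        · exact Or.inl h2
        · exact absurd h2 n1
        · exact Or.inr (Or.inr (Or.inr (Or.inr h2)))
      · by_cases hkk : k' = k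
        · subst hkk
          left
          rw [mem_L']
          rcases h.memf.1 hp with h2 | h2 | h2
          · exact Or.inr (Or.inr (Or.inr (Or.inl h2)))
          · exact absurd h2 n2
          · exact Or.inr (Or.inl h2)
        · exact Or.inr ⟨k', Finset.mem_erase.2 ⟨hkk, hk'⟩, hp⟩

theorem Ms.eps_sx (h : Ms σ ε fc y L₀ L R A B C D x k) : ε (σ x) = (ε x)⁻¹ := h.S.eps x h.sx_ne

theorem Ms.vl_fc (h : Ms σ ε fc y L₀ L R A B C D x k) :
    vl ε (fc k) = vl ε C * (ε x)⁻¹ * vl ε D := by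
  rw [h.hf, vl_append, vl_cons, h.eps_sx, mul_assoc]

theorem Ms.eps_x (h : Ms σ ε fc y L₀ L R A B C D x k) :
    ε x = vl ε D * ε (y k) * vl ε C := by
  rw [h.S.ey, h.vl_fc]
  group

theorem Ms.val (h : Ms σ ε fc y L₀ L R A B C D x k) :
    vl ε (A ++ (D ++ y k :: (C ++ B))) = vl ε L := by
  rw [h.hL, vl_append, vl_append, vl_cons, vl_append, vl_append, vl_cons, h.eps_x]
  group

theorem Ms.gen (h : Ms σ ε fc y L₀ L R A B C D x k) :
    Subgroup.closure (ε '' {p | p ∈ A ++ (D ++ y k :: (C ++ B)) ∨ ∃ k' ∈ R.erase k, p ∈ fc k'}) =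
      ⊤ := by
  rw [← top_le_iff, ← h.M.gen, Subgroup.closure_le]
  set K := Subgroup.closure
    (ε '' {p | p ∈ A ++ (D ++ y k :: (C ++ B)) ∨ ∃ k' ∈ R.erase k, p ∈ fc k'}) with hK
  have hm : ∀ p, (p ∈ A ++ (D ++ y k :: (C ++ B)) ∨ ∃ k' ∈ R.erase k, p ∈ fc k') → ε p ∈ K :=
    fun p hp => Subgroup.subset_closure ⟨p, hp, rfl⟩
  have hx : ε x ∈ K := by
    rw [h.eps_x]
    refine K.mul_mem (K.mul_mem (vl_mem fun i hi => hm i (Or.inl ?_)) (hm _ (Or.inl ?_)))
      (vl_mem fun i hi => hm i (Or.inl ?_))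
    · rw [mem_L']; exact Or.inr (Or.inl hi)
    · rw [mem_L']; exact Or.inr (Or.inr (Or.inl rfl))
    · rw [mem_L']; exact Or.inr (Or.inr (Or.inr (Or.inl hi)))
  rintro _ ⟨p, hp, rfl⟩
  by_cases h1 : p = x
  · rw [h1]; exact hx
  by_cases h2 : p = σ x
  · rw [h2, h.eps_sx]; exact K.inv_mem hx
  exact hm p (h.mem_iff.2 (Or.inr ⟨hp, h1, h2⟩))

theorem Ms.good (h : Ms σ ε fc y L₀ L R A B C D x k) (H : Subgroup F) :
    Good σ ε fc (A ++ (D ++ y k :: (C ++ B))) (R.erase k) H ↔ Good σ ε fc L R H := by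
  obtain ⟨x1, x2, x3, x4, x5, x6, x7, x8⟩ := h.x_notMem
  have yL := h.y_notMem
  have yf := h.S.y_notMem k
  constructor
  · rintro ⟨b, β, w1, w2, w3, w4⟩
    rw [Wk_append, Wk_append, Wk_cons, Wk_append, one_mul] at w1
    obtain ⟨wA, wD, wy, wC, wB⟩ := w1
    have hy : Rl H (vl ε A * vl ε D * ε (y k)) (vl ε A * vl ε D) := by
      have h1 := w4 (y k) (h.mem_iff.2 (Or.inl rfl))
      rw [h.S.sy] at h1
      exact ((wy.mul (ε (y k))).symm.trans h1.symm).trans wy
    have hBx : vl ε A * vl ε D * ε (y k) * vl ε C = vl ε A * ε x := by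
      rw [h.eps_x]; group
    set b' : I → F := fun p => if p = x then vl ε A else if p = σ x then vl ε A * ε x else b p
      with hb'
    have b1 : b' x = vl ε A := by simp [hb']
    have b2 : b' (σ x) = vl ε A * ε x := by
      rw [hb']
      simp only [h.sx_ne, if_false, if_true]
    have b3 : ∀ p, p ≠ x → p ≠ σ x → b' p = b p := by
      intro p q1 q2
      simp only [hb', q1, q2, if_false]
    have b4 : ∀ l : List I, x ∉ l → σ x ∉ l → ∀ p ∈ l, b' p = b p := by
      intro l q1 q2 p hp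
      exact b3 p (fun hh => q1 (hh ▸ hp)) (fun hh => q2 (hh ▸ hp))
    refine ⟨b', Function.update β k (vl ε A * vl ε D * ε (y k)), ?_, ?_, ?_, ?_⟩
    · rw [h.hL, Wk_append, Wk_cons, one_mul, b1]
      refine ⟨wA.congr_b (b4 A x1 x5), Rl.refl _ _, ?_⟩
      rw [← hBx]
      exact wB.congr_b (b4 B x2 x6)
    · rw [← h.val]; exact w2
    · intro k' hk'
      by_cases hkk : k' = k
      · subst hkk
        rw [Function.update_self]
        constructor
        · have e1 : vl ε A * vl ε D * ε (y k') * vl ε (fc k') = vl ε A * vl ε D := by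
            rw [h.S.ey]; group
          rw [e1]
          exact hy.symm
        · rw [h.hf, Wk_append, Wk_cons, b2, hBx]
          refine ⟨wC.congr_b (b4 C x3 x7), Rl.refl _ _, ?_⟩
          have e1 : vl ε A * ε x * ε (σ x) = vl ε A := by rw [h.eps_sx]; group
          rw [e1]
          exact wD.congr_b (b4 D x4 x8)
      · rw [Function.update_of_ne hkk]
        obtain ⟨v1, v2⟩ := w3 k' (Finset.mem_erase.2 ⟨hkk, hk'⟩)
        refine ⟨v1, v2.congr_b (b4 _ ?_ ?_)⟩
        · intro hx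
          exact h.M.dj k' hk' x hx h.x_mem
        · intro hx
          exact h.S.dj k' k hkk _ hx h.sx_mem
    · intro p hp
      by_cases p1 : p = x
      · subst p1
        rw [b1, b2]
        exact Rl.refl _ _
      by_cases p2 : p = σ x
      · rw [p2, h.S.inv, b1, b2, h.eps_sx]
        have e1 : vl ε A * ε x * (ε x)⁻¹ = vl ε A := by group
        rw [e1]
        exact Rl.refl _ _
      · rw [b3 p p1 p2, b3 (σ p) (fun hh => p2 (by rw [← hh, h.S.inv]))
          (fun hh => p1 (by rw [← h.S.inv p, hh, h.S.inv]))]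
        exact w4 p (h.mem_iff.2 (Or.inr ⟨hp, p1, p2⟩))
  · rintro ⟨b, β, w1, w2, w3, w4⟩
    obtain ⟨v1, v2⟩ := w3 k h.hk
    rw [h.hL, Wk_append, Wk_cons, one_mul] at w1
    obtain ⟨wA, wx, wB⟩ := w1
    rw [h.hf, Wk_append, Wk_cons] at v2
    obtain ⟨wC, ws, wD⟩ := v2
    -- `b x ~ b (σ x) * ε (σ x)`
    have hx := w4 (σ x) (Or.inr ⟨k, h.hk, h.sx_mem⟩)
    rw [h.S.inv] at hx
    -- the start of `D`
    have hD : Rl H (β k * vl ε C * ε (σ x)) (vl ε A) :=
      ((ws.mul (ε (σ x))).symm.trans hx.symm).trans wx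
    have hF : Rl H (β k * vl ε (fc k)) (vl ε A * vl ε D) := by
      have h1 := hD.mul (vl ε D)
      have e1 : β k * vl ε C * ε (σ x) * vl ε D = β k * vl ε (fc k) := by
        rw [h.hf, vl_append, vl_cons]; group
      rwa [e1] at h1
    have hAD : Rl H (vl ε A * vl ε D) (β k) := hF.symm.trans v1
    have hy : Rl H (vl ε A * vl ε D * ε (y k)) (β k) := by
      have h1 := hF.mul (ε (y k))
      have e1 : β k * vl ε (fc k) * ε (y k) = β k := by rw [h.S.ey]; group
      rw [e1] at h1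
      exact h1.symm
    have b4 : ∀ l : List I, y k ∉ l → ∀ p ∈ l,
        Function.update b (y k) (vl ε A * vl ε D) p = b p := by
      intro l q p hp
      have hne : p ≠ y k := fun hh => q (hh ▸ hp)
      exact Function.update_of_ne hne _ _
    have yL' := yL
    have yf' := yf k
    rw [h.memL, not_or, not_or] at yL'
    rw [h.memf, not_or, not_or] at yf'
    refine ⟨Function.update b (y k) (vl ε A * vl ε D), β, ?_, ?_, ?_, ?_⟩
    · rw [Wk_append, Wk_append, Wk_cons, Wk_append, one_mul, Function.update_self]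
      refine ⟨wA.congr_b (b4 A yL'.1), (wD.congr hD).congr_b (b4 D yf'.2.2), Rl.refl _ _,
        (wC.congr hy.symm).congr_b (b4 C yf'.1), ?_⟩
      have hBx : vl ε A * vl ε D * ε (y k) * vl ε C = vl ε A * ε x := by
        rw [h.eps_x]; group
      rw [hBx]
      exact wB.congr_b (b4 B yL'.2.2)
    · rw [h.val]; exact w2
    · intro k' hk'
      obtain ⟨u1, u2⟩ := w3 k' (Finset.mem_of_mem_erase hk')
      exact ⟨u1, u2.congr_b (b4 _ (yf k'))⟩
    · intro p hp
      rcases h.mem_iff.1 hp with h1 | ⟨h1, -, -⟩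
      · subst h1
        rw [h.S.sy, Function.update_self]
        exact hAD.trans hy.symm
      · have n1 : p ≠ y k := by
          rintro rfl
          rcases h1 with h1 | ⟨k', -, h1⟩
          · exact yL h1
          · exact yf k' h1
        have n2 : σ p ≠ y k := by
          intro hh
          apply n1
          rw [← h.S.inv p, hh, h.S.sy]
        rw [Function.update_of_ne n1, Function.update_of_ne n2]
        exact w4 p h1

theorem Ms.next (h : Ms σ ε fc y L₀ L R A B C D x k) :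
    Mst σ ε fc y L₀ (A ++ (D ++ y k :: (C ++ B))) (R.erase k) where
  nd := h.nodup
  dj := by
    intro k' hk' p hp hL
    rw [Finset.mem_erase] at hk'
    have h1 := h.M.dj k' hk'.2 p hp
    have h2 := h.S.dj k' k hk'.1 p hp
    rw [h.memL, not_or, not_or] at h1
    rw [h.memf, not_or, not_or] at h2
    rcases mem_L'.1 hL with h3 | h3 | h3 | h3 | h3
    · exact h1.1 h3
    · exact h2.2.2 h3
    · exact h.S.y_notMem k k' (h3 ▸ hp)
    · exact h2.1 h3
    · exact h1.2.2 h3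
  pun := by
    intro p hp hs
    rcases mem_L'.1 hp with h3 | h3 | h3 | h3 | h3
    · obtain ⟨k', q1, q2⟩ := h.M.pun p (h.memL.2 (Or.inl h3)) hs
      exact ⟨k', fun hh => q1 (Finset.mem_of_mem_erase hh), q2⟩
    · exact absurd hs (h.S.fp k p (h.memf.2 (Or.inr (Or.inr h3))))
    · exact ⟨k, Finset.notMem_erase k R, h3⟩
    · exact absurd hs (h.S.fp k p (h.memf.2 (Or.inl h3)))
    · obtain ⟨k', q1, q2⟩ := h.M.pun p (h.memL.2 (Or.inr (Or.inr h3))) hs
      exact ⟨k', fun hh => q1 (Finset.mem_of_mem_erase hh), q2⟩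
  yin := by
    intro k' hk'
    rw [mem_L']
    by_cases hkk : k' = k
    · subst hkk
      exact Or.inr (Or.inr (Or.inl rfl))
    · have h1 : k' ∉ R := fun hh => hk' (Finset.mem_erase.2 ⟨hkk, hh⟩)
      rcases h.memL.1 (h.M.yin k' h1) with h2 | h2 | h2
      · exact Or.inl h2
      · exact absurd (by rw [← h2]; exact h.S.sy k') h.sx_ne
      · exact Or.inr (Or.inr (Or.inr (Or.inr h2)))
  cl := by
    intro p hp
    rcases h.mem_iff.1 hp with h1 | ⟨h1, n1, n2⟩
    · rw [h1, h.S.sy]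
      exact h.mem_iff.2 (Or.inl rfl)
    · refine h.mem_iff.2 (Or.inr ⟨h.M.cl p h1, fun hh => n2 ?_, fun hh => n1 ?_⟩)
      · rw [← hh, h.S.inv]
      · rw [← h.S.inv p, hh, h.S.inv]
  val := by rw [h.val, h.M.val]
  gen := h.gen
  len := by
    have h1 := h.M.len
    have h2 : ∑ k' ∈ R, (fc k').length = ∑ k' ∈ R.erase k, (fc k').length + (fc k).length :=
      (Finset.sum_erase_add R _ h.hk).symm
    have h3 := Finset.card_erase_of_mem h.hk
    have h4 := Finset.card_pos.2 ⟨k, h.hk⟩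
    have h5 : (fc k).length = C.length + D.length + 1 := by
      rw [h.hf]; simp; omega
    have h6 : L.length = A.length + B.length + 1 := by
      rw [h.hL]; simp; omega
    have h7 : (A ++ (D ++ y k :: (C ++ B))).length =
        A.length + B.length + C.length + D.length + 1 := by
      simp; omega
    rw [h7, h3]
    omega
  good := fun H => (h.good H).trans (h.M.good H)
  old := by
    intro p hp
    have key : (p ∈ L ∨ ∀ k' ∈ R, σ p ∉ fc k') →
        p ∈ A ++ (D ++ y k :: (C ++ B)) ∨ ∀ k' ∈ R.erase k, σ p ∉ fc k' := by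
      rintro (h1 | h1)
      · rcases h.memL.1 h1 with h2 | h2 | h2
        · exact Or.inl (mem_L'.2 (Or.inl h2))
        · right
          intro k' hk' hh
          rw [h2] at hh
          exact h.S.dj k' k (Finset.mem_erase.1 hk').1 _ hh h.sx_mem
        · exact Or.inl (mem_L'.2 (Or.inr (Or.inr (Or.inr (Or.inr h2)))))
      · exact Or.inr fun k' hk' => h1 k' (Finset.mem_of_mem_erase hk')
    rcases hp with hp | ⟨k', hk', hp⟩
    · exact key (h.M.old p (Or.inl hp))
    · by_cases hkk : k' = k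
      · subst hkk
        rcases h.memf.1 hp with h2 | h2 | h2
        · exact Or.inl (mem_L'.2 (Or.inr (Or.inr (Or.inr (Or.inl h2)))))
        · right
          intro k'' hk'' hh
          rw [h2, h.S.inv] at hh
          exact h.M.dj k'' (Finset.mem_of_mem_erase hk'') x hh h.x_mem
        · exact Or.inl (mem_L'.2 (Or.inr (Or.inl h2)))
      · exact key (h.M.old p (Or.inr ⟨k', fun hh => hk' (Finset.mem_erase.2 ⟨hkk, hh⟩), hp⟩))

end step

/-- All faces can be merged. -/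
theorem Sys.merge_all (S : Sys σ ε fc y L₀) : ∃ L, Mst σ ε fc y L₀ L ∅ := by
  have key : ∀ n : ℕ, ∀ R : Finset κ, R.card = n → (∃ L, Mst σ ε fc y L₀ L R) →
      ∃ L, Mst σ ε fc y L₀ L ∅ := by
    intro n
    induction n with
    | zero =>
      intro R hR hL
      rw [Finset.card_eq_zero] at hR
      subst hR
      exact hL
    | succ n ih =>
      rintro R hR ⟨L, M⟩
      obtain ⟨p, hp, k, hk, hs⟩ := S.conn R (Finset.card_pos.1 (by omega))
      have hpL : p ∈ L := by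
        rcases M.old p hp with h1 | h1
        · exact h1
        · exact absurd hs (h1 k hk)
      obtain ⟨A, B, hAB⟩ := List.append_of_mem hpL
      obtain ⟨C, D, hCD⟩ := List.append_of_mem hs
      have h : Ms σ ε fc y L₀ L R A B C D p k := ⟨S, M, hAB, hCD, hk⟩
      refine ih (R.erase k) ?_ ⟨_, h.next⟩
      rw [Finset.card_erase_of_mem hk, hR]
      rfl
  exact key _ Finset.univ rfl ⟨L₀, S.init⟩

theorem cprod_mem {K : Subgroup F} {H : List (F × F)} (h : ∀ z ∈ hset H, z ∈ K) :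
    cprod H ∈ K := by
  apply Subgroup.list_prod_mem
  intro z hz
  rw [List.mem_map] at hz
  obtain ⟨p, hp, rfl⟩ := hz
  have h1 := h p.1 ⟨p, hp, Or.inl rfl⟩
  have h2 := h p.2 ⟨p, hp, Or.inr rfl⟩
  exact K.mul_mem (K.mul_mem (K.mul_mem h1 h2) (K.inv_mem h1)) (K.inv_mem h2)

/-- **Merging of faces.** -/
theorem Sys.merge (S : Sys σ ε fc y L₀) : ∃ L, IsP L σ ε (vl ε L₀) ∧
    (L.filter fun i => σ i = i).Perm ((Finset.univ : Finset κ).toList.map y) ∧
    Subgroup.closure (ε '' {i | i ∈ L}) = ⊤ ∧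
    L.length + Fintype.card κ = L₀.length + ∑ k, (fc k).length ∧
    ∀ H, Subgroup.closure (hh L σ ε '' {i | i ∈ L}) ≤ H ↔ Good σ ε fc L₀ Finset.univ H := by
  obtain ⟨L, M⟩ := S.merge_all
  have hP : IsP L σ ε (vl ε L₀) := by
    refine ⟨M.nd, ?_, fun i _ => S.inv i, fun i _ => S.eps i, M.val⟩
    intro i hi
    have h1 := M.cl i (Or.inl hi)
    simpa using h1
  refine ⟨L, hP, ?_, ?_, ?_, ?_⟩
  · refine (List.perm_ext_iff_of_nodup (M.nd.filter _)
      ((Finset.nodup_toList _).map S.yi)).2 ?_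
    intro a
    simp only [List.mem_filter, List.mem_map, Finset.mem_toList, Finset.mem_univ, true_and,
      decide_eq_true_eq]
    constructor
    · rintro ⟨h1, h2⟩
      obtain ⟨k, -, hk⟩ := M.pun a h1 h2
      exact ⟨k, hk.symm⟩
    · rintro ⟨k, rfl⟩
      exact ⟨M.yin k (by simp), S.sy k⟩
  · have h1 := M.gen
    simpa using h1
  · have h1 := M.len
    simpa using h1
  · intro H
    rw [← M.good H]
    constructor
    · intro hH
      have hm : ∀ i ∈ L, hh L σ ε i ∈ H := fun i hi => hH (Subgroup.subset_closure ⟨i, hi, rfl⟩)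
      refine ⟨fun p => vl ε (pre L p), fun _ => 1, ?_, ?_, by simp, ?_⟩
      · refine Wk.of_pre M.nd fun p _ => ?_
        rw [one_mul]
        exact Rl.refl _ _
      · obtain ⟨H', Z, ε', D, r1, r2, r3, r4, r5, r6⟩ := normal_form L.length L ε _ rfl hP
        have hval : vl ε L ∈ H := by
          rw [M.val, r1]
          rw [r4] at hH
          refine H.mul_mem (cprod_mem fun z hz => hH (Subgroup.subset_closure (Or.inl hz)))
            (vl_mem fun i hi => hH (Subgroup.subset_closure (Or.inr ⟨i, hi, rfl⟩)))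
        unfold Rl
        simpa using hval
      · intro p hp
        have hp' : p ∈ L := by simpa using hp
        exact hm p hp'
    · rintro ⟨b, β, w1, w2, -, w4⟩
      rw [Subgroup.closure_le]
      rintro _ ⟨i, hi, rfl⟩
      have h1 := w1.pre i hi
      have h2 := w1.pre (σ i) (hP.mem i hi)
      rw [one_mul] at h1 h2
      have h3 := w4 i (Or.inl hi)
      exact h2.symm.trans (h3.trans (h1.mul _))

end Pool.MP_59b15d_al.H95
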