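import Pool.Agent.H.MP_59b15d_al.h95.Mf2

/-!
# The spokes

`FreeGroup (Fin N × A)` is the free group on the spokes; the spoke `(j, a)` goes from the vertex `a` to
the centre of the coset `a ⟨x_j⟩`.
-/

set_option autoImplicit false

namespace Pool.MP_59b15d_al.H95

/-- Cocycles with values in `S`. -/
@[ext] structure Wr (A S : Type*) where
  /-- the function -/
  f : A → S
  /-- the group element -/
  q : A

section Wr

variable {A S : Type*} [Group A] [Group S]

instance : Mul (Wr A S) := ⟨fun x y => ⟨fun a => x.f a * y.f (a * x.q), x.q * y.q⟩⟩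
instance : One (Wr A S) := ⟨⟨fun _ => 1, 1⟩⟩
instance : Inv (Wr A S) := ⟨fun x => ⟨fun a => (x.f (a * x.q⁻¹))⁻¹, x.q⁻¹⟩⟩

theorem Wr.mul_f (x y : Wr A S) (a : A) : (x * y).f a = x.f a * y.f (a * x.q) := rfl
theorem Wr.mul_q (x y : Wr A S) : (x * y).q = x.q * y.q := rfl
theorem Wr.one_f (a : A) : (1 : Wr A S).f a = 1 := rfl
theorem Wr.one_q : (1 : Wr A S).q = 1 := rfl
theorem Wr.inv_f (x : Wr A S) (a : A) : (x⁻¹).f a = (x.f (a * x.q⁻¹))⁻¹ := rfl
theorem Wr.inv_q (x : Wr A S) : (x⁻¹).q = x.q⁻¹ := rfl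

instance : Group (Wr A S) := Group.ofLeftAxioms
  (by
    intro x y z
    ext a
    · rw [Wr.mul_f, Wr.mul_f, Wr.mul_f, Wr.mul_f, Wr.mul_q, mul_assoc, mul_assoc a]
    · rw [Wr.mul_q, Wr.mul_q, Wr.mul_q, Wr.mul_q, mul_assoc])
  (by
    intro x
    ext a
    · rw [Wr.mul_f, Wr.one_f, Wr.one_q, one_mul, mul_one]
    · rw [Wr.mul_q, Wr.one_q, one_mul])
  (by
    intro x
    ext a
    · rw [Wr.mul_f, Wr.inv_f, Wr.inv_q, inv_mul_cancel, Wr.one_f]
    · rw [Wr.mul_q, Wr.inv_q, inv_mul_cancel, Wr.one_q])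

end Wr

section Th

variable {N : ℕ} {A : Type*} [Group A]

/-- The universal cocycle. -/
def thH (α : Fin N → A) : FreeGroup (Fin N) →* Wr A (FreeGroup (Fin N × A)) :=
  FreeGroup.lift fun j =>
    ⟨fun a => FreeGroup.of (j, a) * (FreeGroup.of (j, a * α j))⁻¹, α j⟩

/-- The element of the path `w` starting at `a`. -/
def Th (α : Fin N → A) (a : A) (w : FreeGroup (Fin N)) : FreeGroup (Fin N × A) := (thH α w).f a

theorem thH_q (α : Fin N → A) (w : FreeGroup (Fin N)) : (thH α w).q = FreeGroup.lift α w := by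
  induction w using FreeGroup.induction_on with
  | C1 => rw [map_one, map_one]; rfl
  | of j => simp [thH]
  | inv_of j _ => rw [map_inv, map_inv, Wr.inv_q]; simp [thH]
  | mul x y hx hy => rw [map_mul, map_mul, Wr.mul_q, hx, hy]

theorem Th_mul (α : Fin N → A) (a : A) (u v : FreeGroup (Fin N)) :
    Th α a (u * v) = Th α a u * Th α (a * FreeGroup.lift α u) v := by
  unfold Th
  rw [map_mul, Wr.mul_f, thH_q]

theorem Th_one (α : Fin N → A) (a : A) : Th α a 1 = 1 := by
  unfold Th
  rw [map_one, Wr.one_f]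

theorem Th_inv (α : Fin N → A) (a : A) (u : FreeGroup (Fin N)) :
    Th α a u⁻¹ = (Th α (a * (FreeGroup.lift α u)⁻¹) u)⁻¹ := by
  unfold Th
  rw [map_inv, Wr.inv_f, thH_q]

theorem Th_of (α : Fin N → A) (a : A) (j : Fin N) :
    Th α a (FreeGroup.of j) = FreeGroup.of (j, a) * (FreeGroup.of (j, a * α j))⁻¹ := by
  simp [Th, thH]

/-- The walk of a word. -/
def wd (α : Fin N → A) : A → List (Fin N) → List (Fin N × A × Bool)
  | _, [] => []
  | a, j :: w => (j, a, true) :: (j, a * α j, false) :: wd α (a * α j) w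

/-- The values of the darts. -/
def ep : Fin N × A × Bool → FreeGroup (Fin N × A)
  | (j, a, true) => FreeGroup.of (j, a)
  | (j, a, false) => (FreeGroup.of (j, a))⁻¹

theorem wd_append (α : Fin N → A) (w w' : List (Fin N)) : ∀ a : A,
    wd α a (w ++ w') = wd α a w ++ wd α (a * (w.map α).prod) w' := by
  induction w with
  | nil => intro a; simp [wd]
  | cons j w ih =>
    intro a
    rw [List.cons_append, wd, wd, ih, List.map_cons, List.prod_cons, mul_assoc]
    rfl

theorem wd_length (α : Fin N → A) (w : List (Fin N)) : ∀ a : A, (wd α a w).length = 2 * w.length := by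
  induction w with
  | nil => intro a; simp [wd]
  | cons j w ih =>
    intro a
    rw [wd, List.length_cons, List.length_cons, ih, List.length_cons]
    ring

theorem lift_prod (α : Fin N → A) (w : List (Fin N)) :
    FreeGroup.lift α (w.map FreeGroup.of).prod = (w.map α).prod := by
  rw [map_list_prod, List.map_map]
  congr 1
  apply List.map_congr_left
  intro j _
  simp

theorem vl_wd (α : Fin N → A) (w : List (Fin N)) : ∀ a : A,
    vl (ep (N := N) (A := A)) (wd α a w) = Th α a (w.map FreeGroup.of).prod := by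
  induction w with
  | nil => intro a; rw [List.map_nil, List.prod_nil, Th_one]; rfl
  | cons j w ih =>
    intro a
    rw [wd, vl_cons, vl_cons, ih, List.map_cons, List.prod_cons, Th_mul, Th_of, ep, ep,
      FreeGroup.lift_apply_of, mul_assoc]

theorem mem_wd (α : Fin N → A) (a : A) (w₁ w₂ : List (Fin N)) (j : Fin N) :
    (j, a * (w₁.map α).prod, true) ∈ wd α a (w₁ ++ j :: w₂) ∧
      (j, a * (w₁.map α).prod * α j, false) ∈ wd α a (w₁ ++ j :: w₂) := by
  rw [wd_append, wd]
  simp

end Th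

end Pool.MP_59b15d_al.H95
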