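import Pool.Agent.H.MP_59b15d_al.h95.Mf3

/-!
# The system of faces of the spokes
-/

set_option autoImplicit false

namespace Pool.MP_59b15d_al.H95

section sys

variable {N s : ℕ} {A : Type*} [Group A]

/-- Darts and punctures. -/
abbrev Dt (N s : ℕ) (A : Type*) : Type _ := (Fin N × A × Bool) ⊕ Fin s

/-- The flip. -/
def sg : Dt N s A → Dt N s A
  | Sum.inl (j, a, b) => Sum.inl (j, a, !b)
  | Sum.inr k => Sum.inr k

/-- The word `(x_1 ⋯ x_N) ^ m`. -/
def fw (N m : ℕ) : List (Fin N) := (List.replicate m (List.finRange N)).flatten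

/-- The face starting at `a`. -/
def fcl (s : ℕ) (α : Fin N → A) (m : ℕ) (a : A) : List (Dt N s A) :=
  (wd α a (fw N m)).map Sum.inl

/-- The values of darts and punctures. -/
def vv (α : Fin N → A) (m : ℕ) (g : Fin s → A) : Dt N s A → FreeGroup (Fin N × A)
  | Sum.inl p => ep p
  | Sum.inr k => (vl ep (wd α (g k) (fw N m)))⁻¹

/-- The image of `x_1 ⋯ x_N`. -/
def cc (α : Fin N → A) : A := ((List.finRange N).map α).prod

/-- The data of the faces. -/
structure Dat [Fintype A] (α : Fin N → A) (m : ℕ) (g₀ : A) (g : Fin s → A) : Prop where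
  hN : 0 < N
  gen : Subgroup.closure (Set.range α) = ⊤
  cov : ∀ a : A, (∃ t < m, a = g₀ * cc α ^ t) ∨ ∃ k, ∃ t < m, a = g k * cc α ^ t
  card : Fintype.card A = m * (s + 1)
  pm : cc α ^ m = 1

theorem fw_split {m t : ℕ} (ht : t < m) : fw N m = fw N t ++ (List.finRange N ++ fw N (m - t - 1)) := by
  unfold fw
  have h1 : m = t + (1 + (m - t - 1)) := by omega
  conv_lhs => rw [h1, List.replicate_add, List.replicate_add]
  rw [List.flatten_append, List.flatten_append]
  simp

theorem fw_prod (α : Fin N → A) (m : ℕ) : ((fw N m).map α).prod = cc α ^ m := by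
  induction m with
  | zero => simp [fw]
  | succ m ih =>
    have h1 : fw N (m + 1) = fw N m ++ List.finRange N := by
      rw [fw_split (Nat.lt_succ_self m)]
      simp [fw]
    rw [h1, List.map_append, List.prod_append, ih, pow_succ]
    rfl

theorem fw_length (N m : ℕ) : (fw N m).length = m * N := by
  induction m with
  | zero => simp [fw]
  | succ m ih =>
    have h1 : fw N (m + 1) = fw N m ++ List.finRange N := by
      rw [fw_split (Nat.lt_succ_self m)]
      simp [fw]
    rw [h1, List.length_append, ih, List.length_finRange]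
    ring

theorem fin_split (j : Fin N) :
    List.finRange N = (List.finRange N).take j ++ j :: (List.finRange N).drop (j + 1) := by
  conv_lhs => rw [← List.take_append_drop (j : ℕ) (List.finRange N)]
  congr 1
  rw [List.drop_eq_getElem_cons (by simp)]
  simp

/-- The image of `x_1 ⋯ x_{j-1}`. -/
def pp (α : Fin N → A) (j : Fin N) : A := (((List.finRange N).take j).map α).prod

/-- The block of the walk of a face. -/
theorem block (α : Fin N → A) {m t : ℕ} (ht : t < m) (a : A) :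
    wd α a (fw N m) = wd α a (fw N t) ++ (wd α (a * cc α ^ t) (List.finRange N) ++
      wd α (a * cc α ^ t * cc α) (fw N (m - t - 1))) := by
  rw [fw_split ht, wd_append, wd_append, fw_prod]
  rfl

theorem mem_block (α : Fin N → A) (a : A) (j : Fin N) :
    (j, a * pp α j, true) ∈ wd α a (List.finRange N) ∧
      (j, a * pp α j * α j, false) ∈ wd α a (List.finRange N) := by
  have h1 := mem_wd α a ((List.finRange N).take j) ((List.finRange N).drop (j + 1)) j
  rw [← fin_split j] at h1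
  exact h1

theorem mem_face (α : Fin N → A) {m t : ℕ} (ht : t < m) {a b : A} (hb : b = a * cc α ^ t)
    (j : Fin N) :
    (j, b * pp α j, true) ∈ wd α a (fw N m) ∧
      (j, b * pp α j * α j, false) ∈ wd α a (fw N m) := by
  obtain ⟨h1, h2⟩ := mem_block α b j
  rw [block α ht a, ← hb]
  exact ⟨List.mem_append_right _ (List.mem_append_left _ h1),
    List.mem_append_right _ (List.mem_append_left _ h2)⟩

variable [Fintype A] {α : Fin N → A} {m : ℕ} {g₀ : A} {g : Fin s → A}

/-- All darts are covered. -/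
theorem Dat.full (D : Dat α m g₀ g) (p : Fin N × A × Bool) :
    p ∈ wd α g₀ (fw N m) ∨ ∃ k, p ∈ wd α (g k) (fw N m) := by
  obtain ⟨j, b, e⟩ := p
  cases e with
  | true =>
    rcases D.cov (b * (pp α j)⁻¹) with ⟨t, ht, h1⟩ | ⟨k, t, ht, h1⟩
    · have h2 := (mem_face α ht h1 j).1
      rw [inv_mul_cancel_right] at h2
      exact Or.inl h2
    · have h2 := (mem_face α ht h1 j).1
      rw [inv_mul_cancel_right] at h2
      exact Or.inr ⟨k, h2⟩
  | false =>
    have e1 : b * (α j)⁻¹ * (pp α j)⁻¹ * pp α j * α j = b := by group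
    rcases D.cov (b * (α j)⁻¹ * (pp α j)⁻¹) with ⟨t, ht, h1⟩ | ⟨k, t, ht, h1⟩
    · have h2 := (mem_face α ht h1 j).2
      rw [e1] at h2
      exact Or.inl h2
    · have h2 := (mem_face α ht h1 j).2
      rw [e1] at h2
      exact Or.inr ⟨k, h2⟩

theorem Dat.nodup (D : Dat α m g₀ g) : (wd α g₀ (fw N m) ++
    (List.finRange s).flatMap fun k => wd α (g k) (fw N m)).Nodup := by
  classical
  have hfull : ∀ p, p ∈ wd α g₀ (fw N m) ++
      (List.finRange s).flatMap fun k => wd α (g k) (fw N m) := by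
    intro p
    rw [List.mem_append, List.mem_flatMap]
    rcases D.full p with h | ⟨k, h⟩
    · exact Or.inl h
    · exact Or.inr ⟨k, List.mem_finRange k, h⟩
  set l := wd α g₀ (fw N m) ++ (List.finRange s).flatMap fun k => wd α (g k) (fw N m) with hl
  have hlen : l.length = 2 * (m * N) * (s + 1) := by
    rw [hl, List.length_append, wd_length, fw_length, List.length_flatMap]
    simp only [wd_length, fw_length]
    simp
    ring
  have h1 : (l : Multiset (Fin N × A × Bool)).toFinset = Finset.univ := by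
    ext p
    simpa using hfull p
  have h2 : ((l : Multiset (Fin N × A × Bool)).toFinset).card =
      Multiset.card (l : Multiset (Fin N × A × Bool)) := by
    rw [h1, Finset.card_univ, Fintype.card_prod, Fintype.card_prod, Fintype.card_fin,
      Fintype.card_bool, D.card, Multiset.coe_card, hlen]
    ring
  exact Multiset.toFinset_card_eq_card_iff_nodup.1 h2

theorem sg_inl (q : Fin N × A × Bool) :
    (sg (Sum.inl q) : Dt N s A) = Sum.inl (q.1, q.2.1, !q.2.2) := rfl

omit [Group A] [Fintype A] in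
theorem sg_sg (p : Dt N s A) : sg (sg p) = p := by
  rcases p with ⟨j, a, b⟩ | k
  · simp [sg]
  · rfl

theorem mem_fcl {a : A} {p : Dt N s A} : p ∈ fcl s α m a ↔ ∃ q ∈ wd α a (fw N m), Sum.inl q = p := by
  unfold fcl
  rw [List.mem_map]

theorem vl_fcl (a : A) : vl (vv α m g) (fcl s α m a) = vl ep (wd α a (fw N m)) := by
  unfold fcl
  rw [vl_map]
  rfl

omit [Group A] [Fintype A] in
theorem sg_ne (q : Fin N × A × Bool) : (sg (Sum.inl q) : Dt N s A) ≠ Sum.inl q := by
  obtain ⟨j, a, b⟩ := q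
  intro h
  simp [sg] at h

theorem Dat.conn (D : Dat α m g₀ g) (R : Finset (Fin s)) (hR : R.Nonempty) :
    ∃ p : Dt N s A, (p ∈ fcl s α m g₀ ∨ ∃ k, k ∉ R ∧ p ∈ fcl s α m (g k)) ∧
      ∃ k ∈ R, sg p ∈ fcl s α m (g k) := by
  by_contra hcon
  -- the set of the blocks in the merged faces
  set M : Set A := {a | (∃ t < m, a = g₀ * cc α ^ t) ∨ ∃ k, k ∉ R ∧ ∃ t < m, a = g k * cc α ^ t}
    with hM
  have hmem : ∀ a ∈ M, ∀ j,
      ((Sum.inl (j, a * pp α j, true) : Dt N s A) ∈ fcl s α m g₀ ∨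
        ∃ k, k ∉ R ∧ (Sum.inl (j, a * pp α j, true) : Dt N s A) ∈ fcl s α m (g k)) ∧
      ((Sum.inl (j, a * pp α j * α j, false) : Dt N s A) ∈ fcl s α m g₀ ∨
        ∃ k, k ∉ R ∧ (Sum.inl (j, a * pp α j * α j, false) : Dt N s A) ∈ fcl s α m (g k)) := by
    intro a ha j
    rcases ha with ⟨t, ht, h1⟩ | ⟨k, hk, t, ht, h1⟩
    · obtain ⟨h2, h3⟩ := mem_face α ht h1 j
      exact ⟨Or.inl (mem_fcl.2 ⟨_, h2, rfl⟩), Or.inl (mem_fcl.2 ⟨_, h3, rfl⟩)⟩
    · obtain ⟨h2, h3⟩ := mem_face α ht h1 j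
      exact ⟨Or.inr ⟨k, hk, mem_fcl.2 ⟨_, h2, rfl⟩⟩, Or.inr ⟨k, hk, mem_fcl.2 ⟨_, h3, rfl⟩⟩⟩
  have hnot : ∀ p : Dt N s A, (p ∈ fcl s α m g₀ ∨ ∃ k, k ∉ R ∧ p ∈ fcl s α m (g k)) →
      ∀ k ∈ R, sg p ∉ fcl s α m (g k) := by
    intro p hp k hk h1
    exact hcon ⟨p, hp, k, hk, h1⟩
  have hin : ∀ a : A, ∀ j, (∀ k ∈ R,
      (Sum.inl (j, a * pp α j, true) : Dt N s A) ∉ fcl s α m (g k)) → a ∈ M := by
    intro a j h
    rcases D.cov a with h1 | ⟨k, t, ht, h1⟩
    · exact Or.inl h1
    · by_cases hk : k ∈ R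
      · exact absurd (mem_fcl.2 ⟨_, (mem_face α ht h1 j).1, rfl⟩) (h k hk)
      · exact Or.inr ⟨k, hk, t, ht, h1⟩
  have hin' : ∀ a : A, ∀ j, (∀ k ∈ R,
      (Sum.inl (j, a * pp α j * α j, false) : Dt N s A) ∉ fcl s α m (g k)) → a ∈ M := by
    intro a j h
    rcases D.cov a with h1 | ⟨k, t, ht, h1⟩
    · exact Or.inl h1
    · by_cases hk : k ∈ R
      · exact absurd (mem_fcl.2 ⟨_, (mem_face α ht h1 j).2, rfl⟩) (h k hk)
      · exact Or.inr ⟨k, hk, t, ht, h1⟩
  -- the moves
  have mv1 : ∀ a ∈ M, ∀ j, a * (pp α j * (α j)⁻¹ * (pp α j)⁻¹) ∈ M := by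
    intro a ha j
    refine hin' _ j fun k hk h1 => ?_
    refine hnot _ (hmem a ha j).1 k hk ?_
    have e1 : a * (pp α j * (α j)⁻¹ * (pp α j)⁻¹) * pp α j * α j = a * pp α j := by group
    rw [e1] at h1
    exact h1
  have mv2 : ∀ a ∈ M, ∀ j, a * (pp α j * α j * (pp α j)⁻¹) ∈ M := by
    intro a ha j
    refine hin _ j fun k hk h1 => ?_
    refine hnot _ (hmem a ha j).2 k hk ?_
    have e1 : a * (pp α j * α j * (pp α j)⁻¹) * pp α j = a * pp α j * α j := by group
    rw [e1] at h1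
    exact h1
  set St : Subgroup A :=
    { carrier := {h | ∀ a, a ∈ M ↔ a * h ∈ M}
      mul_mem' := by
        intro x y hx hy a
        rw [← mul_assoc]
        exact (hx a).trans (hy (a * x))
      one_mem' := by
        intro a
        rw [mul_one]
      inv_mem' := by
        intro x hx a
        have h1 := hx (a * x⁻¹)
        rw [inv_mul_cancel_right] at h1
        exact h1.symm } with hSt
  have hq : ∀ j, pp α j * α j * (pp α j)⁻¹ ∈ St := by
    intro j a
    refine ⟨fun ha => mv2 a ha j, fun ha => ?_⟩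
    have h1 := mv1 _ ha j
    have e1 : a * (pp α j * α j * (pp α j)⁻¹) * (pp α j * (α j)⁻¹ * (pp α j)⁻¹) = a := by group
    rwa [e1] at h1
  have hp : ∀ n : ℕ, (∀ j : Fin N, (j : ℕ) < n → α j ∈ St) ∧
      (((List.finRange N).take n).map α).prod ∈ St := by
    intro n
    induction n with
    | zero => exact ⟨fun j hj => absurd hj (Nat.not_lt_zero _), by simpa using St.one_mem⟩
    | succ n ih =>
      by_cases hn : n < N
      · have h1 := hq ⟨n, hn⟩
        have h2 : pp α ⟨n, hn⟩ ∈ St := ih.2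
        have h3 : α ⟨n, hn⟩ ∈ St := by
          have h4 := St.mul_mem (St.mul_mem (St.inv_mem h2) h1) h2
          have e1 : (pp α ⟨n, hn⟩)⁻¹ * (pp α ⟨n, hn⟩ * α ⟨n, hn⟩ * (pp α ⟨n, hn⟩)⁻¹) *
              pp α ⟨n, hn⟩ = α ⟨n, hn⟩ := by group
          rwa [e1] at h4
        refine ⟨?_, ?_⟩
        · intro j hj
          rcases Nat.lt_succ_iff_lt_or_eq.1 hj with h4 | h4
          · exact ih.1 j h4
          · have : j = ⟨n, hn⟩ := Fin.ext h4
            rw [this]; exact h3
        · rw [List.take_add_one, List.map_append, List.prod_append]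
          refine St.mul_mem ih.2 ?_
          have e1 : (List.finRange N)[n]?.toList = [⟨n, hn⟩] := by
            rw [List.getElem?_eq_getElem (by simpa using hn)]
            simp
          rw [e1]
          simpa using h3
      · refine ⟨fun j _ => ih.1 j (by omega), ?_⟩
        have e1 : (List.finRange N).take (n + 1) = (List.finRange N).take n := by
          rw [List.take_of_length_le (by simp; omega), List.take_of_length_le (by simp; omega)]
        rw [e1]
        exact ih.2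
  have htop : St = ⊤ := by
    rw [← top_le_iff, ← D.gen, Subgroup.closure_le]
    rintro _ ⟨j, rfl⟩
    exact (hp N).1 j j.2
  obtain ⟨k, hk⟩ := hR
  have hm0 : 0 < m := by
    rcases D.cov 1 with ⟨t, ht, -⟩ | ⟨-, t, ht, -⟩ <;> omega
  have h0 : g₀ ∈ M := Or.inl ⟨0, hm0, by simp⟩
  have hgk : g k ∈ M := by
    have h1 : g₀⁻¹ * g k ∈ St := by rw [htop]; trivial
    have h2 := (h1 g₀).1 h0
    rwa [mul_inv_cancel_left] at h2
  -- but the face of `g k` is not merged
  have j0 : Fin N := ⟨0, D.hN⟩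
  have h3 : (Sum.inl (j0, g k * pp α j0, true) : Dt N s A) ∈ fcl s α m (g k) :=
    mem_fcl.2 ⟨_, (mem_face α hm0 (by simp) j0).1, rfl⟩
  have hnd := D.nodup
  rw [List.nodup_append] at hnd
  obtain ⟨-, n2, n3⟩ := hnd
  rw [List.nodup_flatMap] at n2
  haveI hsy : Std.Symm (Function.onFun List.Disjoint fun k => wd α (g k) (fw N m)) :=
    ⟨fun a b h => List.Disjoint.symm h⟩
  have n4 := fun (a : Fin s) (ha : a ∈ List.finRange s) (b : Fin s) (hb : b ∈ List.finRange s)
    (hab : a ≠ b) => n2.2.forall ha hb hab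
  rcases (hmem _ hgk j0).1 with h4 | ⟨k', hk', h4⟩
  · rw [mem_fcl] at h3 h4
    obtain ⟨q, hq1, hq2⟩ := h3
    obtain ⟨q', hq1', hq2'⟩ := h4
    have : q = q' := Sum.inl_injective (hq2.trans hq2'.symm)
    subst this
    exact n3 q hq1' q (List.mem_flatMap.2 ⟨k, List.mem_finRange k, hq1⟩) rfl
  · rw [mem_fcl] at h3 h4
    obtain ⟨q, hq1, hq2⟩ := h3
    obtain ⟨q', hq1', hq2'⟩ := h4
    have : q = q' := Sum.inl_injective (hq2.trans hq2'.symm)
    subst this
    have hne : k ≠ k' := fun hh => hk' (hh ▸ hk)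
    exact n4 k (List.mem_finRange k) k' (List.mem_finRange k') hne hq1 hq1'

theorem Dat.sys (D : Dat α m g₀ g) :
    Sys (sg (N := N) (s := s) (A := A)) (vv α m g) (fun k => fcl s α m (g k)) Sum.inr
      (fcl s α m g₀) := by
  have hnd := D.nodup
  rw [List.nodup_append] at hnd
  obtain ⟨n1, n2, n3⟩ := hnd
  rw [List.nodup_flatMap] at n2
  haveI hsy : Std.Symm (Function.onFun List.Disjoint fun k => wd α (g k) (fw N m)) :=
    ⟨fun a b h => List.Disjoint.symm h⟩
  have n4 := fun (a : Fin s) (ha : a ∈ List.finRange s) (b : Fin s) (hb : b ∈ List.finRange s)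
    (hab : a ≠ b) => n2.2.forall ha hb hab
  have hful : ∀ q : Fin N × A × Bool, (Sum.inl q : Dt N s A) ∈ fcl s α m g₀ ∨
      ∃ k, (Sum.inl q : Dt N s A) ∈ fcl s α m (g k) := by
    intro q
    rcases D.full q with h | ⟨k, h⟩
    · exact Or.inl (mem_fcl.2 ⟨q, h, rfl⟩)
    · exact Or.inr ⟨k, mem_fcl.2 ⟨q, h, rfl⟩⟩
  refine ⟨sg_sg, ?_, fun k => rfl, ?_, ?_, ?_, ?_, ?_, ?_, ?_, Sum.inr_injective, ?_, ?_, D.conn⟩
  · rintro (⟨j, a, b⟩ | k) h
    · cases b <;> simp [sg, vv, ep]
    · exact absurd rfl h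
  · intro k
    rw [vl_fcl]
    rfl
  · intro k
    exact (n2.1 k (List.mem_finRange k)).map Sum.inl_injective
  · intro k k' hkk p hp hp'
    rw [mem_fcl] at hp hp'
    obtain ⟨q, hq1, hq2⟩ := hp
    obtain ⟨q', hq1', hq2'⟩ := hp'
    have : q = q' := Sum.inl_injective (hq2.trans hq2'.symm)
    subst this
    exact n4 k (List.mem_finRange k) k' (List.mem_finRange k') hkk hq1 hq1'
  · exact n1.map Sum.inl_injective
  · intro k p hp hp'
    rw [mem_fcl] at hp hp'
    obtain ⟨q, hq1, hq2⟩ := hp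
    obtain ⟨q', hq1', hq2'⟩ := hp'
    have : q = q' := Sum.inl_injective (hq2.trans hq2'.symm)
    subst this
    exact n3 q hq1' q (List.mem_flatMap.2 ⟨k, List.mem_finRange k, hq1⟩) rfl
  · intro k p hp
    obtain ⟨q, -, rfl⟩ := mem_fcl.1 hp
    exact sg_ne q
  · intro p hp
    obtain ⟨q, -, rfl⟩ := mem_fcl.1 hp
    exact sg_ne q
  · intro p hp
    rcases hp with hp | ⟨k, hp⟩
    · obtain ⟨q, -, rfl⟩ := mem_fcl.1 hp
      exact hful _
    · obtain ⟨q, -, rfl⟩ := mem_fcl.1 hp
      exact hful _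
  · rw [← top_le_iff, ← FreeGroup.closure_range_of, Subgroup.closure_le]
    rintro _ ⟨⟨j, a⟩, rfl⟩
    exact Subgroup.subset_closure ⟨Sum.inl (j, a, true), hful _, rfl⟩

end sys

end Pool.MP_59b15d_al.H95
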