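import Pool.Agent.H.MP_59b15d_al.h95.Mf4

/-!
# The closed paths of the spokes
-/

set_option autoImplicit false

namespace Pool.MP_59b15d_al.H95

section

variable {N s : ℕ} {A : Type*} [Group A] {α : Fin N → A}

/-- The closed path of an element of the kernel. -/
def Jh (α : Fin N → A) (g₀ : A) : (FreeGroup.lift α).ker →* FreeGroup (Fin N × A) where
  toFun k := Th α g₀ k
  map_one' := Th_one α g₀
  map_mul' := by
    rintro ⟨x, hx⟩ ⟨y, hy⟩
    change Th α g₀ (x * y) = Th α g₀ x * Th α g₀ y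
    rw [Th_mul, (MonoidHom.mem_ker).1 hx, mul_one]

theorem Th_mem_range {g₀ : A} {w : FreeGroup (Fin N)} (hw : FreeGroup.lift α w = 1) :
    Th α g₀ w ∈ (Jh α g₀).range := ⟨⟨w, hw⟩, rfl⟩

/-- A section on the vertices is compatible with all paths. -/
theorem sec_path {H : Subgroup (FreeGroup (Fin N × A))} {B : A → FreeGroup (Fin N × A)}
    (hB : ∀ a j, Rl H (B a * Th α a (FreeGroup.of j)) (B (a * α j))) (w : FreeGroup (Fin N)) :
    ∀ a, Rl H (B a * Th α a w) (B (a * FreeGroup.lift α w)) := by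
  induction w using FreeGroup.induction_on with
  | C1 =>
    intro a
    rw [Th_one, map_one, mul_one, mul_one]
    exact Rl.refl _ _
  | of j =>
    intro a
    rw [FreeGroup.lift_apply_of]
    exact hB a j
  | inv_of j _ =>
    intro a
    rw [Th_inv, map_inv, FreeGroup.lift_apply_of]
    have h1 := (hB (a * (α j)⁻¹) j).symm.mul (Th α (a * (α j)⁻¹) (FreeGroup.of j))⁻¹
    rw [inv_mul_cancel_right, mul_inv_cancel_right] at h1
    exact h1
  | mul x y hx hy =>
    intro a
    rw [Th_mul, ← mul_assoc, map_mul, ← mul_assoc]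
    exact ((hx a).mul _).trans (hy _)

variable [Fintype A] {m : ℕ} {g₀ : A} {g : Fin s → A}

theorem Dat.good_imp (D : Dat α m g₀ g) {H : Subgroup (FreeGroup (Fin N × A))}
    (hG : Good sg (vv α m g) (fun k => fcl s α m (g k)) (fcl s α m g₀) Finset.univ H) :
    (Jh α g₀).range ≤ H := by
  obtain ⟨b, β, w1, w2, w3, w4⟩ := hG
  have hm0 : 0 < m := by
    rcases D.cov 1 with ⟨t, ht, -⟩ | ⟨-, t, ht, -⟩ <;> omega
  have hful : ∀ q : Fin N × A × Bool, (Sum.inl q : Dt N s A) ∈ fcl s α m g₀ ∨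
      ∃ k ∈ (Finset.univ : Finset (Fin s)), (Sum.inl q : Dt N s A) ∈ fcl s α m (g k) := by
    intro q
    rcases D.full q with h | ⟨k, h⟩
    · exact Or.inl (mem_fcl.2 ⟨q, h, rfl⟩)
    · exact Or.inr ⟨k, Finset.mem_univ k, mem_fcl.2 ⟨q, h, rfl⟩⟩
  have hσ : ∀ j a, Rl H (b (Sum.inl (j, a, true)))
      (b (Sum.inl (j, a, false)) * (FreeGroup.of (j, a))⁻¹) := by
    intro j a
    exact w4 (Sum.inl (j, a, false)) (hful _)
  -- blocks
  have hb1 : ∀ (a' : A) (u : FreeGroup (Fin N × A)) (t : ℕ), t < m →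
      Wk H (vv α m g) b u (fcl s α m a') →
      ∃ u', Wk H (vv α m g) b u' ((wd α (a' * cc α ^ t) (List.finRange N)).map Sum.inl) ∧
        (t = 0 → u' = u) := by
    intro a' u t ht h
    unfold fcl at h
    rw [block α ht, List.map_append, List.map_append, Wk_append, Wk_append] at h
    refine ⟨_, h.2.1, ?_⟩
    rintro rfl
    simp [fw, wd]
  have hb2 : ∀ a : A, ∃ u, Wk H (vv α m g) b u ((wd α a (List.finRange N)).map Sum.inl) := by
    intro a
    rcases D.cov a with ⟨t, ht, rfl⟩ | ⟨k, t, ht, rfl⟩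
    · obtain ⟨u, hu, -⟩ := hb1 g₀ 1 t ht w1
      exact ⟨u, hu⟩
    · obtain ⟨u, hu, -⟩ := hb1 (g k) (β k) t ht (w3 k (Finset.mem_univ k)).2
      exact ⟨u, hu⟩
  -- the letter `j` of a block
  have hb3 : ∀ (a : A) (u : FreeGroup (Fin N × A)) (j : Fin N),
      Wk H (vv α m g) b u ((wd α a (List.finRange N)).map Sum.inl) →
      ∃ u', Rl H (b (Sum.inl (j, a * pp α j, true))) u' ∧
        Rl H (b (Sum.inl (j, a * pp α j * α j, false))) (u' * FreeGroup.of (j, a * pp α j)) ∧
        (∀ j' : Fin N, (j' : ℕ) = j + 1 → Rl H (b (Sum.inl (j', a * pp α j * α j, true)))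
          (u' * FreeGroup.of (j, a * pp α j) * (FreeGroup.of (j, a * pp α j * α j))⁻¹)) ∧
        ((j : ℕ) = 0 → u' = u) := by
    intro a u j h
    rw [fin_split j, wd_append, List.map_append, Wk_append, wd, List.map_cons, List.map_cons,
      Wk_cons, Wk_cons] at h
    obtain ⟨-, h1, h2, h3⟩ := h
    refine ⟨_, h1, h2, ?_, ?_⟩
    · intro j' hj'
      have h4 : (List.finRange N).drop (j + 1) = j' :: (List.finRange N).drop (j' + 1) := by
        rw [← hj', List.drop_eq_getElem_cons (by simp)]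
        simp
      rw [h4, wd, List.map_cons, Wk_cons] at h3
      exact h3.1
    · intro hj
      rw [hj]
      simp [wd]
  have hpp : ∀ a j, a * (pp α j)⁻¹ * pp α j = a := fun a j => inv_mul_cancel_right a _
  have R1 : ∀ a j, Rl H (b (Sum.inl (j, a * α j, false)))
      (b (Sum.inl (j, a, true)) * FreeGroup.of (j, a)) := by
    intro a j
    obtain ⟨u, hu⟩ := hb2 (a * (pp α j)⁻¹)
    obtain ⟨u', h1, h2, -, -⟩ := hb3 _ u j hu
    rw [hpp] at h1 h2
    exact h2.trans (h1.symm.mul _)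
  have R3 : ∀ a (j j' : Fin N), (j' : ℕ) = j + 1 →
      Rl H (b (Sum.inl (j', a, true))) (b (Sum.inl (j, a, true))) := by
    intro a j j' hj
    obtain ⟨u, hu⟩ := hb2 (a * (α j)⁻¹ * (pp α j)⁻¹)
    obtain ⟨u', h1, h2, h3, -⟩ := hb3 _ u j hu
    rw [hpp, inv_mul_cancel_right] at h2 
    have h4 := h3 j' hj
    rw [hpp, inv_mul_cancel_right] at h4
    exact (h4.trans (h2.symm.mul _)).trans (hσ j a).symm
  set z0 : Fin N := ⟨0, D.hN⟩ with hz0
  have hV : ∀ n : ℕ, ∀ hn : n < N, ∀ a,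
      Rl H (b (Sum.inl (⟨n, hn⟩, a, true))) (b (Sum.inl (z0, a, true))) := by
    intro n
    induction n with
    | zero => intro hn a; exact Rl.refl _ _
    | succ n ih =>
      intro hn a
      exact (R3 a ⟨n, by omega⟩ ⟨n + 1, hn⟩ rfl).trans (ih (by omega) a)
  have hstep : ∀ a j, Rl H (b (Sum.inl (z0, a, true)) * Th α a (FreeGroup.of j))
      (b (Sum.inl (z0, a * α j, true))) := by
    intro a j
    rw [Th_of, ← mul_assoc]
    have h1 := ((hV j j.2 a).symm.mul (FreeGroup.of (j, a))).trans (R1 a j).symm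
    exact ((h1.mul (FreeGroup.of (j, a * α j))⁻¹).trans (hσ j (a * α j)).symm).trans (hV j j.2 _)
  have hbase : Rl H (b (Sum.inl (z0, g₀, true))) 1 := by
    obtain ⟨u, hu, hu0⟩ := hb1 g₀ 1 0 hm0 w1
    obtain ⟨u', h1, -, -, h2⟩ := hb3 _ u z0 hu
    have e1 : g₀ * cc α ^ 0 * pp α z0 = g₀ := by simp [pp, hz0]
    rw [e1, h2 rfl, hu0 rfl] at h1
    exact h1
  rintro _ ⟨⟨w, hw⟩, rfl⟩
  have h1 := sec_path hstep w g₀
  rw [MonoidHom.mem_ker] at hw
  rw [hw, mul_one] at h1
  have h2 := ((hbase.mul (Th α g₀ w)).symm.trans h1).trans hbase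
  unfold Rl at h2
  rw [one_mul, inv_one, mul_one] at h2
  exact h2

theorem Dat.lift_surj (D : Dat α m g₀ g) : Function.Surjective (FreeGroup.lift α) := by
  rw [← MonoidHom.range_eq_top, FreeGroup.range_lift_eq_closure, D.gen]

/-- Sections modulo the closed paths. -/
theorem Dat.exists_sec (D : Dat α m g₀ g) : ∃ (u : A → FreeGroup (Fin N)),
    (∀ a, FreeGroup.lift α (u a) = g₀⁻¹ * a) ∧
    ∀ (H : Subgroup (FreeGroup (Fin N × A))), (Jh α g₀).range ≤ H → ∀ a w,
      Rl H (Th α g₀ (u a) * Th α a w) (Th α g₀ (u (a * FreeGroup.lift α w))) := by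
  choose u hu using fun a => D.lift_surj (g₀⁻¹ * a)
  refine ⟨u, hu, fun H hH a w => ?_⟩
  have h1 : FreeGroup.lift α (u a * w * (u (a * FreeGroup.lift α w))⁻¹) = 1 := by
    rw [map_mul, map_mul, map_inv, hu, hu]
    group
  have h2 := hH (Th_mem_range (g₀ := g₀) h1)
  rw [Th_mul, Th_mul, Th_inv, map_mul, hu, hu] at h2
  have e1 : g₀ * (g₀⁻¹ * a) = a := by group
  have e2 : g₀ * (g₀⁻¹ * a * FreeGroup.lift α w) * (g₀⁻¹ * (a * FreeGroup.lift α w))⁻¹ = g₀ := by
    group
  rw [e1, e2] at h2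
  exact h2

theorem Dat.imp_good (D : Dat α m g₀ g) {H : Subgroup (FreeGroup (Fin N × A))}
    (hH : (Jh α g₀).range ≤ H) :
    Good sg (vv α m g) (fun k => fcl s α m (g k)) (fcl s α m g₀) Finset.univ H := by
  obtain ⟨u, hu, hsec⟩ := D.exists_sec
  have hsec := hsec H hH
  set B : A → FreeGroup (Fin N × A) := fun a => Th α g₀ (u a) with hB
  set b : Dt N s A → FreeGroup (Fin N × A) := fun p => match p with
    | Sum.inl (_, a, true) => B a
    | Sum.inl (j, a, false) => B a * FreeGroup.of (j, a)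
    | Sum.inr _ => 1 with hb
  have b1 : ∀ j a, b (Sum.inl (j, a, true)) = B a := fun _ _ => rfl
  have b2 : ∀ j a, b (Sum.inl (j, a, false)) = B a * FreeGroup.of (j, a) := fun _ _ => rfl
  have hof : ∀ a j, Rl H (B a * Th α a (FreeGroup.of j)) (B (a * α j)) := by
    intro a j
    have h1 := hsec a (FreeGroup.of j)
    rwa [FreeGroup.lift_apply_of] at h1
  have hbase : Rl H (B g₀) 1 := by
    have h1 : FreeGroup.lift α (u g₀) = 1 := by rw [hu]; group
    have h2 := hH (Th_mem_range (g₀ := g₀) h1)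
    unfold Rl
    rw [inv_one, mul_one]
    exact h2
  have hwk : ∀ (w : List (Fin N)) (a : A) (v : FreeGroup (Fin N × A)), Rl H v (B a) →
      Wk H (vv α m g) b v ((wd α a w).map Sum.inl) := by
    intro w
    induction w with
    | nil => intro a v _; exact trivial
    | cons j w ih =>
      intro a v hv
      rw [wd, List.map_cons, List.map_cons, Wk_cons, Wk_cons, b1 j a, b2 j (a * α j)]
      have h1 : vv α m g (Sum.inl (j, a, true) : Dt N s A) = FreeGroup.of (j, a) := rfl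
      have h2 : vv α m g (Sum.inl (j, a * α j, false) : Dt N s A) =
        (FreeGroup.of (j, a * α j))⁻¹ := rfl
      rw [h1, h2]
      refine ⟨hv.symm, ?_, ih _ _ ?_⟩
      · have h3 := (hof a j).symm.mul (FreeGroup.of (j, a * α j))
        rw [Th_of, ← mul_assoc, inv_mul_cancel_right] at h3
        exact h3.trans (hv.symm.mul _)
      · rw [mul_assoc, ← Th_of]
        exact (hv.mul _).trans (hof a j)
  have hface : ∀ a, Rl H (B a * vl (vv α m g) (fcl s α m a)) (B a) := by
    intro a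
    rw [vl_fcl, vl_wd]
    have h1 := hsec a ((fw N m).map FreeGroup.of).prod
    rw [lift_prod, fw_prod α, D.pm, mul_one] at h1
    exact h1
  refine ⟨b, fun k => B (g k), hwk _ _ _ hbase.symm, ?_, ?_, ?_⟩
  · have h1 := ((hbase.mul (vl (vv α m g) (fcl s α m g₀))).symm.trans (hface g₀)).trans hbase
    rwa [one_mul] at h1
  · intro k _
    exact ⟨hface (g k), hwk _ _ _ (Rl.refl _ _)⟩
  · intro p hp
    rcases p with ⟨j, a, e⟩ | k
    · cases e with
      | true => exact Rl.refl _ _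
      | false =>
        change Rl H (B a) (B a * FreeGroup.of (j, a) * (FreeGroup.of (j, a))⁻¹)
        rw [mul_inv_cancel_right]
        exact Rl.refl _ _
    · exfalso
      rcases hp with h1 | ⟨k', -, h1⟩
      · obtain ⟨q, -, hq⟩ := mem_fcl.1 h1
        cases hq
      · obtain ⟨q, -, hq⟩ := mem_fcl.1 h1
        cases hq

theorem Dat.good_iff (D : Dat α m g₀ g) (H : Subgroup (FreeGroup (Fin N × A))) :
    Good sg (vv α m g) (fun k => fcl s α m (g k)) (fcl s α m g₀) Finset.univ H ↔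
      (Jh α g₀).range ≤ H := ⟨D.good_imp, D.imp_good⟩

end

end Pool.MP_59b15d_al.H95
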