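import Pool.Agent.H.MP_59b15d_al.h95.Mf5
import Pool.Agent.H.MP_59b15d_al.sym.Defs

/-!
# The kernel of the closed paths
-/

set_option autoImplicit false

namespace Pool.MP_59b15d_al.H95

open Pool.MP_59b15d_al.Sym

variable {N : ℕ} {A : Type*} [Group A] {α : Fin N → A}

theorem Th_pow (α : Fin N → A) (a : A) (j : Fin N) (n : ℕ) :
    Th α a (FreeGroup.of j ^ n) = FreeGroup.of (j, a) * (FreeGroup.of (j, a * α j ^ n))⁻¹ := by
  induction n with
  | zero => rw [pow_zero, Th_one, pow_zero, mul_one, mul_inv_cancel]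
  | succ n ih =>
    rw [pow_succ, Th_mul, ih, Th_of, map_pow, FreeGroup.lift_apply_of, pow_succ, ← mul_assoc,
      inv_mul_cancel_right, mul_assoc a]

theorem Th_zpow (α : Fin N → A) (a : A) (j : Fin N) (n : ℤ) :
    Th α a (FreeGroup.of j ^ n) = FreeGroup.of (j, a) * (FreeGroup.of (j, a * α j ^ n))⁻¹ := by
  obtain ⟨k, rfl | rfl⟩ := n.eq_nat_or_neg
  · rw [zpow_natCast, zpow_natCast, Th_pow]
  · rw [zpow_neg, zpow_natCast, zpow_neg, zpow_natCast, Th_inv, map_pow, FreeGroup.lift_apply_of,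
      Th_pow, inv_mul_cancel_right, mul_inv_rev, inv_inv]

theorem rel_le_ker {e : Fin N → ℕ} (h1 : ∀ j, α j ^ e j = 1) : Rel' e ≤ (thH α).ker := by
  apply Subgroup.normalClosure_le_normal
  rintro _ ⟨j, rfl⟩
  rw [SetLike.mem_coe, MonoidHom.mem_ker]
  ext a
  · have h2 := Th_pow α a j (e j)
    rw [h1, mul_one, mul_inv_cancel] at h2
    exact h2
  · rw [thH_q, map_pow, FreeGroup.lift_apply_of, h1]
    rfl

/-- The kernel of the closed paths. -/
theorem Jh_ker {e : Fin N → ℕ} (h1 : ∀ j, α j ^ e j = 1) (o1 : ∀ j (k : ℕ), α j ^ k = 1 → e j ∣ k)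
    (g₀ : A) (k : (FreeGroup.lift α).ker) : Jh α g₀ k = 1 ↔ (k : FreeGroup (Fin N)) ∈ Rel' e := by
  constructor
  · intro hk
    haveI : (Rel' e).Normal := Subgroup.normalClosure_normal
    have hz : ∀ (j : Fin N) (a : A), ∃ z : ℤ, ((a : A ⧸ Subgroup.zpowers (α j))).out = a * α j ^ z := by
      intro j a
      obtain ⟨⟨h, hh⟩, h2⟩ := QuotientGroup.mk_out_eq_mul (Subgroup.zpowers (α j)) a
      obtain ⟨z, rfl⟩ := Subgroup.mem_zpowers_iff.1 hh
      exact ⟨z, h2⟩
    choose z hz using hz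
    have hrel : ∀ j (n : ℤ), α j ^ n = 1 → FreeGroup.of j ^ n ∈ Rel' e := by
      intro j n hn
      have h2 : α j ^ n.natAbs = 1 := by
        obtain ⟨k, rfl | rfl⟩ := n.eq_nat_or_neg
        · rwa [zpow_natCast] at hn
        · rw [zpow_neg, zpow_natCast, inv_eq_one] at hn
          simpa using hn
      have h3 : (e j : ℤ) ∣ n := Int.natCast_dvd.2 (o1 j _ h2)
      obtain ⟨t, ht⟩ := h3
      rw [ht, zpow_mul, zpow_natCast]
      have h4 : (FreeGroup.of j : FreeGroup (Fin N)) ^ e j ∈ Rel' e :=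
        Subgroup.subset_normalClosure ⟨j, rfl⟩
      exact Subgroup.zpow_mem _ h4 _
    set lam : FreeGroup (Fin N × A) →* FreeGroup (Fin N) ⧸ Rel' e :=
      FreeGroup.lift fun p => ((FreeGroup.of p.1 ^ z p.1 p.2 : FreeGroup (Fin N)) :
        FreeGroup (Fin N) ⧸ Rel' e) with hlam
    have lof : ∀ j a, lam (FreeGroup.of (j, a)) =
        ((FreeGroup.of j ^ z j a : FreeGroup (Fin N)) : FreeGroup (Fin N) ⧸ Rel' e) := by
      intro j a
      rw [hlam, FreeGroup.lift_apply_of]
    have key : ∀ a j, lam (Th α a (FreeGroup.of j)) =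
        ((FreeGroup.of j : FreeGroup (Fin N)) : FreeGroup (Fin N) ⧸ Rel' e) := by
      intro a j
      rw [Th_of, map_mul, map_inv, lof, lof, ← QuotientGroup.mk_inv, ← QuotientGroup.mk_mul]
      rw [QuotientGroup.eq]
      have h2 : ((a * α j : A) : A ⧸ Subgroup.zpowers (α j)) = (a : A ⧸ Subgroup.zpowers (α j)) := by
        rw [QuotientGroup.eq]
        rw [mul_inv_rev, inv_mul_cancel_right]
        exact Subgroup.inv_mem _ (Subgroup.mem_zpowers _)
      have h3 := hz j (a * α j)
      rw [h2, hz j a, mul_assoc, mul_right_inj] at h3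
      have h4 : α j ^ (z j (a * α j) + 1 - z j a) = 1 := by
        rw [zpow_sub, zpow_add, zpow_one, h3]
        have : Commute (α j ^ z j (a * α j)) (α j) := (Commute.refl _).zpow_left _
        rw [this.eq, mul_inv_cancel]
      have h5 := hrel j _ h4
      have e1 : (FreeGroup.of j ^ z j a * (FreeGroup.of j ^ z j (a * α j))⁻¹)⁻¹ *
          FreeGroup.of j = FreeGroup.of j ^ (z j (a * α j) + 1 - z j a) := by
        rw [mul_inv_rev, inv_inv, ← zpow_neg, ← zpow_add, ← zpow_add_one]
        congr 1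
        ring
      rw [e1]
      exact h5
    have key2 : ∀ (w : FreeGroup (Fin N)) (a : A), lam (Th α a w) =
        (w : FreeGroup (Fin N) ⧸ Rel' e) := by
      intro w
      induction w using FreeGroup.induction_on with
      | C1 => intro a; rw [Th_one, map_one]; rfl
      | of j => exact fun a => key a j
      | inv_of j _ =>
        intro a
        rw [Th_inv, map_inv, key]
        rfl
      | mul x y hx hy =>
        intro a
        rw [Th_mul, map_mul, hx, hy]
        rfl
    have h2 := key2 k g₀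
    have h3 : Th α g₀ k = 1 := hk
    rw [h3, map_one] at h2
    exact (QuotientGroup.eq_one_iff _).1 h2.symm
  · intro hk
    have h2 := rel_le_ker h1 hk
    rw [MonoidHom.mem_ker] at h2
    change (thH α k).f g₀ = 1
    rw [h2]
    rfl

end Pool.MP_59b15d_al.H95
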