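import Pool.Agent.H.MP_59b15d_al.h95.Nf3

/-!
# Reordering of punctures
-/

set_option autoImplicit false

namespace Pool.MP_59b15d_al.H95

theorem perm_vl {I F : Type*} [DecidableEq I] [Group F] {Z Z' : List I} (h : Z.Perm Z') :
    ∀ (_ : Z.Nodup) (ε : I → F), ∃ ε' : I → F, vl ε' Z' = vl ε Z ∧
      (∀ z, ∃ g, ε' z = g * ε z * g⁻¹) ∧
      Subgroup.closure (ε' '' {i | i ∈ Z'}) = Subgroup.closure (ε '' {i | i ∈ Z}) := by
  induction h with
  | nil => exact fun _ ε => ⟨ε, rfl, fun z => ⟨1, by group⟩, rfl⟩
  | @cons x l₁ l₂ hl ih =>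
    intro nd ε
    rw [List.nodup_cons] at nd
    obtain ⟨ε', t1, t2, t3⟩ := ih nd.2 ε
    have hx2 : x ∉ l₂ := fun hh => nd.1 (hl.symm.subset hh)
    have e1 : ∀ j ∈ l₂, Function.update ε' x (ε x) j = ε' j := by
      intro j hj
      have hne : j ≠ x := fun hh => hx2 (hh ▸ hj)
      exact Function.update_of_ne hne _ _
    refine ⟨Function.update ε' x (ε x), ?_, ?_, ?_⟩
    · rw [vl_cons, vl_cons, Function.update_self, vl_congr e1, t1]
    · intro z
      by_cases hz : z = x
      · subst hz
        rw [Function.update_self]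
        exact ⟨1, by group⟩
      · rw [Function.update_of_ne hz]
        exact t2 z
    · have s1 : (Function.update ε' x (ε x)) '' {i | i ∈ x :: l₂} =
          {ε x} ∪ ε' '' {i | i ∈ l₂} := by
        ext w
        constructor
        · rintro ⟨i, hi, rfl⟩
          rcases List.mem_cons.1 hi with h1 | h1
          · subst h1
            left
            rw [Function.update_self]
            rfl
          · right
            rw [e1 i h1]
            exact ⟨i, h1, rfl⟩
        · rintro (h1 | ⟨i, hi, rfl⟩)
          · refine ⟨x, List.mem_cons_self, ?_⟩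
            rw [Function.update_self]
            exact h1.symm
          · exact ⟨i, List.mem_cons_of_mem _ hi, e1 i hi⟩
      have s2 : ε '' {i | i ∈ x :: l₁} = {ε x} ∪ ε '' {i | i ∈ l₁} := by
        ext w
        constructor
        · rintro ⟨i, hi, rfl⟩
          rcases List.mem_cons.1 hi with h1 | h1
          · subst h1
            exact Or.inl rfl
          · exact Or.inr ⟨i, h1, rfl⟩
        · rintro (h1 | ⟨i, hi, rfl⟩)
          · exact ⟨x, List.mem_cons_self, h1.symm⟩
          · exact ⟨i, List.mem_cons_of_mem _ hi, rfl⟩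
      rw [s1, s2]
      exact closure_union_congr t3
  | swap x y l =>
    intro nd ε
    have hxy : x ≠ y := by
      rintro rfl
      simp at nd
    have hxl : x ∉ l := by
      intro hh
      rw [List.nodup_cons, List.nodup_cons] at nd
      exact nd.2.1 hh
    have e1 : ∀ j, j ≠ x → Function.update ε x (ε y * ε x * (ε y)⁻¹) j = ε j :=
      fun j hj => Function.update_of_ne hj _ _
    have e2 : ∀ j ∈ l, Function.update ε x (ε y * ε x * (ε y)⁻¹) j = ε j := by
      intro j hj
      exact e1 j fun hh => hxl (hh ▸ hj)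
    refine ⟨Function.update ε x (ε y * ε x * (ε y)⁻¹), ?_, ?_, ?_⟩
    · rw [vl_cons, vl_cons, vl_cons, vl_cons, Function.update_self, e1 y hxy.symm, vl_congr e2]
      group
    · intro z
      by_cases hz : z = x
      · subst hz
        rw [Function.update_self]
        exact ⟨ε y, rfl⟩
      · rw [e1 z hz]
        exact ⟨1, by group⟩
    · apply le_antisymm
      · rw [Subgroup.closure_le]
        rintro _ ⟨i, hi, rfl⟩
        set K := Subgroup.closure (ε '' {i | i ∈ y :: x :: l}) with hK
        have hm : ∀ i ∈ y :: x :: l, ε i ∈ K := fun i hi => Subgroup.subset_closure ⟨i, hi, rfl⟩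
        have hx := hm x (by simp)
        have hy := hm y (by simp)
        by_cases h1 : i = x
        · subst h1
          rw [Function.update_self]
          exact K.mul_mem (K.mul_mem hy hx) (K.inv_mem hy)
        · rw [e1 i h1]
          refine hm i ?_
          simp only [Set.mem_setOf_eq, List.mem_cons] at hi ⊢
          tauto
      · rw [Subgroup.closure_le]
        rintro _ ⟨i, hi, rfl⟩
        set K := Subgroup.closure
          ((Function.update ε x (ε y * ε x * (ε y)⁻¹)) '' {i | i ∈ x :: y :: l}) with hK
        have hm : ∀ i ∈ x :: y :: l, Function.update ε x (ε y * ε x * (ε y)⁻¹) i ∈ K :=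
          fun i hi => Subgroup.subset_closure ⟨i, hi, rfl⟩
        have hx := hm x (by simp)
        have hy := hm y (by simp)
        rw [Function.update_self] at hx
        rw [e1 y hxy.symm] at hy
        by_cases h1 : i = x
        · subst h1
          have h2 := K.mul_mem (K.mul_mem (K.inv_mem hy) hx) hy
          have e3 : (ε y)⁻¹ * (ε y * ε i * (ε y)⁻¹) * ε y = ε i := by group
          rwa [e3] at h2
        · have h2 := hm i (by
            simp only [Set.mem_setOf_eq, List.mem_cons] at hi ⊢
            tauto)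
          rwa [e1 i h1] at h2
  | @trans l₁ l₂ l₃ h1 h2 ih1 ih2 =>
    intro nd ε
    obtain ⟨ε', t1, t2, t3⟩ := ih1 nd ε
    obtain ⟨ε'', u1, u2, u3⟩ := ih2 (h1.nodup_iff.1 nd) ε'
    refine ⟨ε'', u1.trans t1, ?_, u3.trans t3⟩
    intro z
    obtain ⟨a, ha⟩ := t2 z
    obtain ⟨b, hb⟩ := u2 z
    exact ⟨b * a, by rw [hb, ha]; group⟩

end Pool.MP_59b15d_al.H95
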