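import Pool.Agent.H.MP_59b15d_al.h95.Mf7
import Pool.Agent.H.MP_59b15d_al.h95.Mfp
import Pool.Agent.H.MP_59b15d_al.h19s.Hopf

/-!
# The surface group of the closed paths
-/

set_option autoImplicit false

namespace Pool.MP_59b15d_al.H95

open Pool.MP_59b15d_al.Sym

variable {N s : ℕ} {A : Type*} [Group A] [Fintype A] {α : Fin N → A} {m : ℕ} {g₀ : A}
  {g : Fin s → A}

/-- The generators. -/
def gn {S : Type*} (H : List (S × S)) (δ : Fin s → S) (Dl : List S) :
    (((Fin H.length ⊕ Fin H.length) ⊕ Fin s) ⊕ Fin Dl.length) → S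
  | Sum.inl (Sum.inl (Sum.inl i)) => (H.get i).1
  | Sum.inl (Sum.inl (Sum.inr i)) => (H.get i).2
  | Sum.inl (Sum.inr k) => δ k
  | Sum.inr i => Dl.get i

theorem range_gn {S : Type*} (H : List (S × S)) (δ : Fin s → S) (Dl : List S) :
    Set.range (gn H δ Dl) = hset H ∪ (Set.range δ ∪ {x | x ∈ Dl}) := by
  ext z
  constructor
  · rintro ⟨((i | i) | k) | i, rfl⟩
    · exact Or.inl ⟨_, H.get_mem i, Or.inl rfl⟩
    · exact Or.inl ⟨_, H.get_mem i, Or.inr rfl⟩
    · exact Or.inr (Or.inl ⟨k, rfl⟩)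
    · exact Or.inr (Or.inr (Dl.get_mem i))
  · rintro (⟨p, hp, h⟩ | ⟨k, rfl⟩ | h)
    · obtain ⟨i, rfl⟩ := List.get_of_mem hp
      rcases h with rfl | rfl
      · exact ⟨Sum.inl (Sum.inl (Sum.inl i)), rfl⟩
      · exact ⟨Sum.inl (Sum.inl (Sum.inr i)), rfl⟩
    · exact ⟨Sum.inl (Sum.inr k), rfl⟩
    · obtain ⟨i, rfl⟩ := List.get_of_mem h
      exact ⟨Sum.inr i, rfl⟩

theorem range_gn_inl {S : Type*} (H : List (S × S)) (δ : Fin s → S) (Dl : List S) :
    Set.range (fun x => gn H δ Dl (Sum.inl x)) = hset H ∪ Set.range δ := by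
  ext z
  constructor
  · rintro ⟨(i | i) | k, rfl⟩
    · exact Or.inl ⟨_, H.get_mem i, Or.inl rfl⟩
    · exact Or.inl ⟨_, H.get_mem i, Or.inr rfl⟩
    · exact Or.inr ⟨k, rfl⟩
  · rintro (⟨p, hp, h⟩ | ⟨k, rfl⟩)
    · obtain ⟨i, rfl⟩ := List.get_of_mem hp
      rcases h with rfl | rfl
      · exact ⟨Sum.inl (Sum.inl i), rfl⟩
      · exact ⟨Sum.inl (Sum.inr i), rfl⟩
    · exact ⟨Sum.inr k, rfl⟩

/-- The normal form of the closed paths of the spokes. -/
theorem Dat.surface (D : Dat α m g₀ g) : ∃ (p d : ℕ)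
    (φ : FreeGroup (((Fin p ⊕ Fin p) ⊕ Fin s) ⊕ Fin d) ≃* FreeGroup (Fin N × A)),
    (((FreeGroup.lift fun x => φ (FreeGroup.of (Sum.inl x))) :
      Gg p s →* FreeGroup (Fin N × A)).range = (Jh α g₀).range) ∧
    Th α g₀ ((fw N m).map FreeGroup.of).prod =
      (FreeGroup.lift fun x => φ (FreeGroup.of (Sum.inl x))) (cW p s) ∧
    (∀ k : Fin s, ∃ q : FreeGroup (Fin N × A), φ (FreeGroup.of (Sum.inl (Sum.inr k))) =
      q * (Th α (g k) ((fw N m).map FreeGroup.of).prod)⁻¹ * q⁻¹) ∧
    2 * p + s + d = N * Fintype.card A := by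
  classical
  obtain ⟨L, hP, hperm, hgen, hlen, hgood⟩ := D.sys.merge
  obtain ⟨H, Z, ε', Dl, r1, r2, r3, r4, r5, r6⟩ := normal_form L.length L (vv α m g) _ rfl hP
  have hZ : Z.Perm ((List.finRange s).map (Sum.inr : Fin s → Dt N s A)) := by
    refine (r3.trans hperm).trans (List.Perm.map _ ?_)
    refine (List.perm_ext_iff_of_nodup (Finset.nodup_toList _) (List.nodup_finRange s)).2 ?_
    intro a
    simp
  have hZn : Z.Nodup := hZ.nodup_iff.2 ((List.nodup_finRange s).map Sum.inr_injective)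
  obtain ⟨ε'', t1, t2, t3⟩ := perm_vl hZ hZn ε'
  set δ : Fin s → FreeGroup (Fin N × A) := fun k => ε'' (Sum.inr k) with hδ
  have him : ε'' '' {i | i ∈ (List.finRange s).map (Sum.inr : Fin s → Dt N s A)} = Set.range δ := by
    ext z
    simp [hδ]
  rw [him] at t3
  have hcl : Subgroup.closure (Set.range (gn H δ Dl)) = ⊤ := by
    rw [range_gn, ← Set.union_assoc, Subgroup.closure_union, Subgroup.closure_union, t3,
      ← Subgroup.closure_union, ← Subgroup.closure_union, Set.union_assoc]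
    rw [r5] at hgen
    exact hgen
  have hsurj : Function.Surjective (FreeGroup.lift (gn H δ Dl)) := by
    rw [← MonoidHom.range_eq_top, FreeGroup.range_lift_eq_closure, hcl]
  have hL0 : (fcl s α m g₀).length = 2 * (m * N) := by
    unfold fcl
    rw [List.length_map, wd_length, fw_length]
  have hLk : ∀ k, (fcl s α m (g k)).length = 2 * (m * N) := by
    intro k
    unfold fcl
    rw [List.length_map, wd_length, fw_length]
  have hZl : Z.length = s := by
    rw [hZ.length_eq]
    simp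
  have hcard : 2 * H.length + s + Dl.length = N * Fintype.card A := by
    rw [hL0] at hlen
    simp only [hLk, Finset.sum_const, Finset.card_univ, Fintype.card_fin, smul_eq_mul] at hlen
    rw [D.card]
    have e1 : N * (m * (s + 1)) = m * N + s * (m * N) := by ring
    have e2 : s * (2 * (m * N)) = 2 * (s * (m * N)) := by ring
    rw [e2] at hlen
    omega
  have hinj : Function.Injective (FreeGroup.lift (gn H δ Dl)) := by
    refine Pool.MP_59b15d_al.H19S.hopf ?_ _ hsurj
    rw [Nat.card_eq_fintype_card, Nat.card_eq_fintype_card]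
    simp only [Fintype.card_sum, Fintype.card_fin, Fintype.card_prod]
    rw [← hcard]
    ring
  set φ : FreeGroup (((Fin H.length ⊕ Fin H.length) ⊕ Fin s) ⊕ Fin Dl.length) ≃*
    FreeGroup (Fin N × A) := MulEquiv.ofBijective _ ⟨hinj, hsurj⟩ with hφ
  have hφof : ∀ x, φ (FreeGroup.of x) = gn H δ Dl x := by
    intro x
    rw [hφ]
    simp
  refine ⟨H.length, Dl.length, φ, ?_, ?_, ?_, hcard⟩
  · rw [FreeGroup.range_lift_eq_closure]
    have e1 : (fun x => φ (FreeGroup.of (Sum.inl x))) = fun x => gn H δ Dl (Sum.inl x) := by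
      funext x
      exact hφof _
    rw [e1, range_gn_inl, Subgroup.closure_union, t3, ← Subgroup.closure_union, ← r4]
    have h1 := fun K => (hgood K).trans (D.good_iff K)
    exact le_antisymm ((h1 _).2 le_rfl) ((h1 _).1 le_rfl)
  · rw [vl_fcl, vl_wd] at r1
    rw [r1, cW, map_mul, ← t1]
    congr 1
    · rw [map_list_prod, cprod]
      congr 1
      rw [List.map_ofFn]
      apply List.ext_getElem
      · simp
      · intro n h1 h2
        simp [hφof, gn]
    · rw [map_list_prod, vl]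
      congr 1
      rw [List.map_ofFn, List.map_map]
      apply List.ext_getElem
      · simp
      · intro n h1 h2
        simp [hφof, gn, hδ]
  · intro k
    obtain ⟨q1, h1⟩ := r2 (Sum.inr k)
    obtain ⟨q2, h2⟩ := t2 (Sum.inr k)
    refine ⟨q2 * q1, ?_⟩
    rw [hφof]
    change ε'' (Sum.inr k) = _
    rw [h2, h1]
    have h3 : vv α m g (Sum.inr k : Dt N s A) =
        (Th α (g k) ((fw N m).map FreeGroup.of).prod)⁻¹ := by
      rw [← vl_wd]
      rfl
    rw [h3]
    group

end Pool.MP_59b15d_al.H95
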