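import Pool.Agent.H.MP_59b15d_al.h95.Mf8

/-!
# The surface group of a finite-index subgroup
-/

set_option autoImplicit false

namespace Pool.MP_59b15d_al.H95

open Pool.MP_59b15d_al.Sym

section

variable {N s : ℕ} {A : Type*} [Group A] [Fintype A] {α : Fin N → A} {m : ℕ} {g₀ : A}
  {g : Fin s → A}

theorem Dat.card_d (_D : Dat α m g₀ g) {p d : ℕ}
    (φ : FreeGroup (((Fin p ⊕ Fin p) ⊕ Fin s) ⊕ Fin d) ≃* FreeGroup (Fin N × A))
    (hr : ((FreeGroup.lift fun x => φ (FreeGroup.of (Sum.inl x))) :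
      Gg p s →* FreeGroup (Fin N × A)).range = (Jh α g₀).range) :
    d + 1 = Nat.card A + ∑ j, Nat.card (A ⧸ Subgroup.zpowers (α j)) := by
  have h1 := card_homs_basis φ
  have h2 := _D.card_homs
  have h3 : ∀ ψ : FreeGroup (Fin N × A) →* T2,
      (∀ x, ψ (φ (FreeGroup.of (Sum.inl x))) = 1) ↔ ∀ z ∈ (Jh α g₀).range, ψ z = 1 := by
    intro ψ
    constructor
    · intro h z hz
      rw [← hr] at hz
      obtain ⟨w, rfl⟩ := hz
      have h4 : ψ.comp (FreeGroup.lift fun x => φ (FreeGroup.of (Sum.inl x))) = 1 := by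
        ext x
        simp [h x]
      have h5 := congrArg (fun f => f w) h4
      exact h5
    · intro h x
      apply h
      rw [← hr]
      exact ⟨FreeGroup.of x, by simp⟩
  have h4 : Nat.card {ψ : FreeGroup (Fin N × A) →* T2 //
      ∀ x, ψ (φ (FreeGroup.of (Sum.inl x))) = 1} =
      Nat.card {ψ : FreeGroup (Fin N × A) →* T2 // ∀ z ∈ (Jh α g₀).range, ψ z = 1} :=
    Nat.card_congr (Equiv.subtypeEquivRight h3)
  rw [h1, h2] at h4
  have h5 : d = Nat.card (Vx α g₀) := Nat.pow_right_injective (le_refl 2) h4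
  rw [h5, card_Vx]

end

variable {N : ℕ}

theorem cc_of (N : ℕ) : cc (FreeGroup.of : Fin N → FF N) = (xn N)⁻¹ := by
  rw [xn, inv_inv, cc, List.ofFn_eq_map]

theorem mfFull (hN : 0 < N) (e : Fin N → ℕ) (he : ∀ j, 1 ≤ e j) (K : Subgroup (FF N))
    (hK : K.Normal) (hKf : K.FiniteIndex) (h1 : ∀ j, FreeGroup.of j ^ e j ∈ K)
    (o1 : ∀ j (k : ℕ), FreeGroup.of j ^ k ∈ K → e j ∣ k) (m : ℕ) (hm : 1 ≤ m) (h2 : xn N ^ m ∈ K)
    (o2 : ∀ k : ℕ, xn N ^ k ∈ K → m ∣ k) (g₀ : FF N) (s : ℕ) (g : Fin s → FF N)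
    (hg : ∀ z : FF N, (∃ a : ℤ, z * xn N ^ a * g₀⁻¹ ∈ K) ∨ ∃ i, ∃ a : ℤ, z * xn N ^ a * (g i)⁻¹ ∈ K)
    (hg₀ : ∀ i, ∀ a : ℤ, g i * xn N ^ a * g₀⁻¹ ∉ K)
    (hgg : ∀ i j, i ≠ j → ∀ a : ℤ, g i * xn N ^ a * (g j)⁻¹ ∉ K) :
    ∃ (p : ℕ) (J : ↥K →* Gg p s), Function.Surjective J ∧
      (∀ z : ↥K, J z = 1 ↔ (z : FF N) ∈ Rel' e) ∧
      (∀ z : ↥K, (z : FF N) = g₀ * xn N ^ m * g₀⁻¹ → J z = (cW p s)⁻¹) ∧
      (∀ (i : Fin s) (z : ↥K), (z : FF N) = g i * xn N ^ m * (g i)⁻¹ →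
        ∃ w : Gg p s, J z = w * FreeGroup.of (Sum.inr i) * w⁻¹) ∧
      (2 * p - 2 : ℚ) = K.index * (N - 1 - ∑ j, (1 / e j : ℚ) - 1 / m) := by
  classical
  haveI := hK
  haveI := hKf
  haveI : Finite (FF N ⧸ K) := Subgroup.finite_quotient_of_finiteIndex
  letI : Fintype (FF N ⧸ K) := Fintype.ofFinite _
  set α : Fin N → FF N ⧸ K := fun j => ((FreeGroup.of j : FF N) : FF N ⧸ K) with hα
  have hlift : ∀ w : FF N, FreeGroup.lift α w = (w : FF N ⧸ K) := by
    intro w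
    have h3 : (FreeGroup.lift α : FF N →* FF N ⧸ K) = QuotientGroup.mk' K := by
      ext j
      simp [hα]
    rw [h3]
    rfl
  have hone : ∀ w : FF N, FreeGroup.lift α w = 1 ↔ w ∈ K := by
    intro w
    rw [hlift]
    exact QuotientGroup.eq_one_iff w
  have hcc : cc α = (((xn N)⁻¹ : FF N) : FF N ⧸ K) := by
    rw [← hlift, ← cc_of, cc, cc, lift_prod]
  -- equality of elements of the quotient
  have heq : ∀ (x y : FF N) (a : ℤ), (x : FF N ⧸ K) * cc α ^ a = (y : FF N ⧸ K) ↔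
      x * xn N ^ (-a) * y⁻¹ ∈ K := by
    intro x y a
    rw [hcc, ← QuotientGroup.mk_zpow, ← QuotientGroup.mk_mul, inv_zpow', ← mul_inv_eq_one,
      ← QuotientGroup.mk_inv, ← QuotientGroup.mk_mul, QuotientGroup.eq_one_iff]
  have hpm : cc α ^ m = 1 := by
    rw [hcc, ← QuotientGroup.mk_pow, inv_pow]
    exact (QuotientGroup.eq_one_iff _).2 (K.inv_mem h2)
  have hmod : ∀ a : ℤ, ∃ t < m, cc α ^ a = cc α ^ t := by
    intro a
    have hm' : (0 : ℤ) < m := by exact_mod_cast hm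
    refine ⟨(a % m).toNat, ?_, ?_⟩
    · have h3 := Int.emod_lt_of_pos a hm'
      have h4 := Int.emod_nonneg a hm'.ne'
      omega
    · have h4 := Int.emod_nonneg a hm'.ne'
      rw [← zpow_natCast, Int.toNat_of_nonneg h4]
      conv_lhs => rw [← Int.emod_add_mul_ediv a m, zpow_add, zpow_mul, zpow_natCast, hpm, one_zpow,
        mul_one]
  have hord : ∀ a : ℤ, cc α ^ a = 1 → (m : ℤ) ∣ a := by
    intro a ha
    have h3 : xn N ^ a.natAbs ∈ K := by
      have h4 : cc α ^ a.natAbs = 1 := by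
        obtain ⟨k, rfl | rfl⟩ := a.eq_nat_or_neg
        · rwa [zpow_natCast] at ha
        · rw [zpow_neg, zpow_natCast, inv_eq_one] at ha
          simpa using ha
      rw [hcc, ← QuotientGroup.mk_pow, inv_pow] at h4
      exact (K.inv_mem_iff).1 ((QuotientGroup.eq_one_iff _).1 h4)
    exact Int.natCast_dvd.2 (o2 _ h3)
  set γ : Fin s → FF N ⧸ K := fun i => ((g i : FF N) : FF N ⧸ K) with hγ
  have hcov : ∀ a : FF N ⧸ K, (∃ t < m, a = (g₀ : FF N ⧸ K) * cc α ^ t) ∨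
      ∃ k, ∃ t < m, a = γ k * cc α ^ t := by
    intro a
    obtain ⟨z, rfl⟩ := QuotientGroup.mk_surjective a
    rcases hg z with ⟨a, ha⟩ | ⟨i, a, ha⟩
    · left
      have h3 := (heq z g₀ (-a)).2 (by rwa [neg_neg])
      obtain ⟨t, ht, h4⟩ := hmod a
      refine ⟨t, ht, ?_⟩
      rw [← h3, ← h4, mul_assoc, ← zpow_add, neg_add_cancel, zpow_zero, mul_one]
    · right
      have h3 := (heq z (g i) (-a)).2 (by rwa [neg_neg])
      obtain ⟨t, ht, h4⟩ := hmod a
      refine ⟨i, t, ht, ?_⟩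
      rw [hγ]
      simp only
      rw [← h3, ← h4, mul_assoc, ← zpow_add, neg_add_cancel, zpow_zero, mul_one]
  have hcard : Fintype.card (FF N ⧸ K) = m * (s + 1) := by
    set f : Option (Fin s) × Fin m → FF N ⧸ K := fun x => match x with
      | (none, t) => (g₀ : FF N ⧸ K) * cc α ^ (t : ℕ)
      | (some i, t) => γ i * cc α ^ (t : ℕ) with hf
    have hbij : Function.Bijective f := by
      constructor
      · have hpair : ∀ (x y : FF N) (t t' : Fin m), (x : FF N ⧸ K) * cc α ^ (t : ℕ) =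
            (y : FF N ⧸ K) * cc α ^ (t' : ℕ) → ∃ a : ℤ, x * xn N ^ a * y⁻¹ ∈ K := by
          intro x y t t' h
          refine ⟨-((t : ℤ) - (t' : ℤ)), (heq x y _).1 ?_⟩
          rw [zpow_sub, ← mul_assoc, zpow_natCast, zpow_natCast, h, mul_inv_cancel_right]
        have hsame : ∀ (x : FF N ⧸ K) (t t' : Fin m), x * cc α ^ (t : ℕ) = x * cc α ^ (t' : ℕ) →
            t = t' := by
          intro x t t' h
          have h3 := mul_left_cancel h
          have h4 := hord ((t : ℤ) - (t' : ℤ)) (by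
            rw [zpow_sub, zpow_natCast, zpow_natCast, h3, mul_inv_cancel])
          have h5 := t.2
          have h6 := t'.2
          apply Fin.ext
          obtain ⟨c, hc⟩ := h4
          have hc0 : c = 0 := by
            by_contra hne
            rcases lt_or_gt_of_ne hne with h7 | h7
            · nlinarith
            · nlinarith
          rw [hc0, mul_zero] at hc
          omega
        rintro ⟨o, t⟩ ⟨o', t'⟩ h
        rcases o with - | i <;> rcases o' with - | i'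
        · rw [hsame _ t t' h]
        · obtain ⟨a, ha⟩ := hpair (g i') g₀ t' t h.symm
          exact absurd ha (hg₀ i' a)
        · obtain ⟨a, ha⟩ := hpair (g i) g₀ t t' h
          exact absurd ha (hg₀ i a)
        · by_cases hii : i = i'
          · subst hii
            rw [hsame _ t t' h]
          · obtain ⟨a, ha⟩ := hpair (g i) (g i') t t' h
            exact absurd ha (hgg i i' hii a)
      · intro a
        rcases hcov a with ⟨t, ht, h3⟩ | ⟨k, t, ht, h3⟩
        · exact ⟨(none, ⟨t, ht⟩), h3.symm⟩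
        · exact ⟨(some k, ⟨t, ht⟩), h3.symm⟩
    rw [← Fintype.card_of_bijective hbij]
    simp
    ring
  have D : Dat α m (g₀ : FF N ⧸ K) γ := by
    refine ⟨hN, ?_, hcov, hcard, hpm⟩
    rw [← FreeGroup.range_lift_eq_closure, MonoidHom.range_eq_top]
    intro a
    obtain ⟨z, rfl⟩ := QuotientGroup.mk_surjective a
    exact ⟨z, hlift z⟩
  obtain ⟨p, d, φ, c1, c2, c3, c4⟩ := D.surface
  have hd := D.card_d φ c1
  set ι : Gg p s →* FreeGroup (Fin N × (FF N ⧸ K)) :=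
    FreeGroup.lift fun x => φ (FreeGroup.of (Sum.inl x)) with hι
  set ρ : FreeGroup (Fin N × (FF N ⧸ K)) →* Gg p s :=
    (FreeGroup.lift (Sum.elim FreeGroup.of fun _ => 1)).comp φ.symm.toMonoidHom with hρ
  have hρφ : ∀ x, ρ (φ (FreeGroup.of (Sum.inl x))) = FreeGroup.of x := by
    intro x
    rw [hρ]
    simp
  have hρι : ∀ z, ρ (ι z) = z := by
    intro z
    have h3 : ρ.comp ι = MonoidHom.id _ := by
      ext x
      simp [hι, hρφ]
    exact congrArg (fun f => f z) h3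
  -- the conjugation by `g₀`
  set cj : ↥K →* (FreeGroup.lift α).ker :=
    { toFun := fun z => ⟨g₀⁻¹ * z * g₀, by
        rw [MonoidHom.mem_ker, hone]
        have h3 := hK.conj_mem z z.2 g₀⁻¹
        rwa [inv_inv] at h3⟩
      map_one' := by
        apply Subtype.ext
        simp
      map_mul' := by
        intro x y
        apply Subtype.ext
        change g₀⁻¹ * ((x : FF N) * y) * g₀ = g₀⁻¹ * x * g₀ * (g₀⁻¹ * y * g₀)
        group } with hcj
  have hcjv : ∀ z : ↥K, ((cj z : (FreeGroup.lift α).ker) : FF N) = g₀⁻¹ * z * g₀ := fun z => rfl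
  set J₀ := Jh α (g₀ : FF N ⧸ K) with hJ₀
  have hJv : ∀ k : (FreeGroup.lift α).ker, J₀ k = Th α (g₀ : FF N ⧸ K) k := fun k => rfl
  have hcm : ((fw N m).map (FreeGroup.of : Fin N → FF N)).prod = (xn N ^ m)⁻¹ := by
    rw [fw_prod, cc_of, inv_pow]
  have hxm : ∀ a : FF N ⧸ K, Th α a (xn N ^ m) =
      (Th α a ((fw N m).map (FreeGroup.of : Fin N → FF N)).prod)⁻¹ := by
    intro a
    rw [hcm, Th_inv, inv_inv, (hone _).2 h2, inv_one, mul_one]
  have hmemι : ∀ k, ∃ y, ι y = J₀ k := by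
    intro k
    have h3 : J₀ k ∈ ι.range := by rw [c1]; exact ⟨k, rfl⟩
    exact h3
  refine ⟨p, (ρ.comp J₀).comp cj, ?_, ?_, ?_, ?_, ?_⟩
  · intro x
    have h3 : ι x ∈ J₀.range := by rw [← c1]; exact ⟨x, rfl⟩
    obtain ⟨⟨k, hk⟩, h4⟩ := h3
    have h5 : g₀ * k * g₀⁻¹ ∈ K := hK.conj_mem k ((hone k).1 hk) g₀
    refine ⟨⟨g₀ * k * g₀⁻¹, h5⟩, ?_⟩
    have h6 : cj ⟨g₀ * k * g₀⁻¹, h5⟩ = ⟨k, hk⟩ := by
      apply Subtype.ext
      rw [hcjv]
      group
    change ρ (J₀ (cj _)) = x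
    rw [h6, h4, hρι]
  · intro z
    have e1 : ∀ j, α j ^ e j = 1 := by
      intro j
      rw [hα]
      simp only
      rw [← QuotientGroup.mk_pow]
      exact (QuotientGroup.eq_one_iff _).2 (h1 j)
    have e2 : ∀ j (k : ℕ), α j ^ k = 1 → e j ∣ k := by
      intro j k hk
      rw [hα] at hk
      simp only at hk
      rw [← QuotientGroup.mk_pow] at hk
      exact o1 j k ((QuotientGroup.eq_one_iff _).1 hk)
    have h3 := Jh_ker e1 e2 (g₀ : FF N ⧸ K) (cj z)
    rw [hcjv] at h3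
    have h4 : g₀⁻¹ * (z : FF N) * g₀ ∈ Rel' e ↔ (z : FF N) ∈ Rel' e := by
      have hn : (Rel' e).Normal := Subgroup.normalClosure_normal
      constructor
      · intro h
        have h5 := hn.conj_mem _ h g₀
        have e3 : g₀ * (g₀⁻¹ * (z : FF N) * g₀) * g₀⁻¹ = z := by group
        rwa [e3] at h5
      · intro h
        have h5 := hn.conj_mem _ h g₀⁻¹
        rwa [inv_inv] at h5
    rw [← h4, ← h3]
    change ρ (J₀ (cj z)) = 1 ↔ J₀ (cj z) = 1
    obtain ⟨y, hy⟩ := hmemι (cj z)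
    rw [← hy, hρι]
    constructor
    · rintro rfl
      exact map_one ι
    · intro h
      rw [← hρι y, h, map_one]
  · intro z hz
    change ρ (Th α (g₀ : FF N ⧸ K) (g₀⁻¹ * z * g₀)) = _
    have e1 : g₀⁻¹ * (z : FF N) * g₀ = xn N ^ m := by rw [hz]; group
    rw [e1, hxm, c2, map_inv, hρι]
  · intro i z hz
    obtain ⟨q, hq⟩ := c3 i
    change ∃ w, ρ (Th α (g₀ : FF N ⧸ K) (g₀⁻¹ * z * g₀)) = _
    have e1 : g₀⁻¹ * (z : FF N) * g₀ = (g₀⁻¹ * g i) * xn N ^ m * (g₀⁻¹ * g i)⁻¹ := by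
      rw [hz]; group
    have e2 : (g₀ : FF N ⧸ K) * FreeGroup.lift α (g₀⁻¹ * g i) = γ i := by
      rw [hlift, ← QuotientGroup.mk_mul, mul_inv_cancel_left]
    have e3 : Th α (g₀ : FF N ⧸ K) ((g₀⁻¹ * g i) * xn N ^ m * (g₀⁻¹ * g i)⁻¹) =
        Th α (g₀ : FF N ⧸ K) (g₀⁻¹ * g i) * Th α (γ i) (xn N ^ m) *
          (Th α (g₀ : FF N ⧸ K) (g₀⁻¹ * g i))⁻¹ := by
      rw [Th_mul, Th_mul, Th_inv, e2, map_mul, (hone _).2 h2, mul_one]
      congr 3
      rw [mul_assoc, mul_inv_cancel, mul_one]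
    refine ⟨ρ (Th α (g₀ : FF N ⧸ K) (g₀⁻¹ * g i)) * (ρ q)⁻¹, ?_⟩
    have e4 : (Th α (γ i) ((fw N m).map (FreeGroup.of : Fin N → FF N)).prod)⁻¹ =
        q⁻¹ * φ (FreeGroup.of (Sum.inl (Sum.inr i))) * q := by
      rw [hq]; group
    rw [e1, e3, hxm, e4, map_mul, map_mul, map_inv, map_mul, map_mul, map_inv, hρφ]
    group
  · have hidx : (K.index : ℚ) = Fintype.card (FF N ⧸ K) := by
      rw [Subgroup.index, Nat.card_eq_fintype_card]
    have hq : ∀ j, (Nat.card ((FF N ⧸ K) ⧸ Subgroup.zpowers (α j)) : ℚ) =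
        (Fintype.card (FF N ⧸ K) : ℚ) * (1 / e j) := by
      intro j
      have h3 := Subgroup.card_eq_card_quotient_mul_card_subgroup (Subgroup.zpowers (α j))
      have h4 : Nat.card (Subgroup.zpowers (α j)) = e j := by
        rw [Nat.card_zpowers]
        apply Nat.dvd_antisymm
        · apply orderOf_dvd_of_pow_eq_one
          rw [hα]
          simp only
          rw [← QuotientGroup.mk_pow]
          exact (QuotientGroup.eq_one_iff _).2 (h1 j)
        · apply o1 j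
          have h5 := pow_orderOf_eq_one (α j)
          rw [hα] at h5
          simp only at h5
          rw [← QuotientGroup.mk_pow] at h5
          exact (QuotientGroup.eq_one_iff _).1 h5
      rw [h4, Nat.card_eq_fintype_card] at h3
      have h5 : (e j : ℚ) ≠ 0 := by
        have := he j
        positivity
      rw [h3]
      push_cast
      field_simp
    have hm0 : (m : ℚ) ≠ 0 := by positivity
    have hd' : (d : ℚ) + 1 = (Fintype.card (FF N ⧸ K) : ℚ) +
        ∑ j, (Fintype.card (FF N ⧸ K) : ℚ) * (1 / e j) := by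
      rw [Finset.sum_congr rfl fun j _ => (hq j).symm]
      have h3 : ((d + 1 : ℕ) : ℚ) = ((Nat.card (FF N ⧸ K) +
          ∑ j, Nat.card ((FF N ⧸ K) ⧸ Subgroup.zpowers (α j)) : ℕ) : ℚ) := by rw [hd]
      rw [Nat.card_eq_fintype_card] at h3
      push_cast at h3
      rw [h3]
    have hs : (s : ℚ) + 1 = (Fintype.card (FF N ⧸ K) : ℚ) * (1 / m) := by
      rw [hcard]
      push_cast
      field_simp
    have h4 : (2 * p + s + d : ℚ) = N * Fintype.card (FF N ⧸ K) := by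
      exact_mod_cast congrArg (fun n : ℕ => (n : ℚ)) c4
    rw [hidx]
    have h5 : (Fintype.card (FF N ⧸ K) : ℚ) * (N - 1 - ∑ j, (1 / e j : ℚ) - 1 / m) =
        N * Fintype.card (FF N ⧸ K) - Fintype.card (FF N ⧸ K) -
          ∑ j, (Fintype.card (FF N ⧸ K) : ℚ) * (1 / e j) -
          (Fintype.card (FF N ⧸ K) : ℚ) * (1 / m) := by
      rw [← Finset.mul_sum]
      ring
    rw [h5]
    linarith

end Pool.MP_59b15d_al.H95
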