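import Pool.Agent.H.MP_59b15d_al.h95.Fd2

/-!
# Normal form of diagrams with punctures, part 1: chords

A position `i` of a punctured diagram with `σ i = i` is a puncture.
-/

set_option autoImplicit false

namespace Pool.MP_59b15d_al.H95

variable {I F : Type*} [DecidableEq I] [Group F]

/-- Diagrams with punctures. -/
structure IsP (L : List I) (σ : I → I) (ε : I → F) (c : F) : Prop where
  nd : L.Nodup
  mem : ∀ i ∈ L, σ i ∈ L
  inv : ∀ i ∈ L, σ (σ i) = i
  eps : ∀ i ∈ L, σ i ≠ i → ε (σ i) = (ε i)⁻¹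
  val : vl ε L = c

theorem IsD.isP {L : List I} {σ : I → I} {ε : I → F} {c : F} (h : IsD L σ ε c) : IsP L σ ε c :=
  ⟨h.nd, h.mem, h.inv, fun i hi _ => h.eps i hi, h.val⟩

omit [DecidableEq I] in
/-- The three possibilities for a diagram. -/
theorem chord_cases {L : List I} {σ : I → I} (nd : L.Nodup) (mem : ∀ i ∈ L, σ i ∈ L)
    (inv : ∀ i ∈ L, σ (σ i) = i) :
    (∀ i ∈ L, σ i = i) ∨
    (∃ A x M B, L = A ++ x :: (M ++ σ x :: B) ∧ ∀ z ∈ M, σ z = z) ∨
    (∃ P x Q y R S T, L = P ++ x :: (Q ++ y :: (R ++ σ x :: (S ++ σ y :: T)))) := by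
  classical
  by_cases h0 : ∀ i ∈ L, σ i = i
  · exact Or.inl h0
  right
  push Not at h0
  obtain ⟨i, hi, hne⟩ := h0
  have hex : ∃ k, ∃ A x M B, L = A ++ x :: (M ++ σ x :: B) ∧ M.length = k := by
    obtain ⟨A, R, hAR⟩ := List.append_of_mem hi
    have h1 := mem i hi
    have h1' := h1
    rw [hAR, List.mem_append, List.mem_cons] at h1'
    rcases h1' with h2 | h2 | h2
    · obtain ⟨A1, A2, hA⟩ := List.append_of_mem h2
      refine ⟨_, A1, σ i, A2, R, ?_, rfl⟩
      rw [hAR, hA, inv i hi]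
      simp
    · exact absurd h2 hne
    · obtain ⟨M, B, hB⟩ := List.append_of_mem h2
      exact ⟨_, A, i, M, B, by rw [hAR, hB], rfl⟩
  obtain ⟨A, x, M, B, hL, hM⟩ := Nat.find_spec hex
  have hmin : ∀ A' x' M' B', L = A' ++ x' :: (M' ++ σ x' :: B') → M.length ≤ M'.length := by
    intro A' x' M' B' h'
    rw [hM]
    exact Nat.find_min' hex ⟨A', x', M', B', h', rfl⟩
  by_cases hfix : ∀ z ∈ M, σ z = z
  · exact Or.inl ⟨A, x, M, B, hL, hfix⟩
  right
  push Not at hfix
  obtain ⟨z, hz, hzne⟩ := hfix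
  obtain ⟨M1, M2, hMs⟩ := List.append_of_mem hz
  have hzL : z ∈ L := by rw [hL]; simp [hz]
  have hxL : x ∈ L := by rw [hL]; simp
  have hsz := mem z hzL
  have hL' : L = A ++ x :: (M1 ++ z :: (M2 ++ σ x :: B)) := by rw [hL, hMs]; simp
  have hnd := nd
  rw [hL'] at hnd
  have hsz' := hsz
  rw [hL'] at hsz'
  simp only [List.mem_append, List.mem_cons] at hsz'
  rcases hsz' with h1 | h1 | h1 | h1 | h1 | h1 | h1
  · -- `σ z ∈ A`
    obtain ⟨A1, A2, hA⟩ := List.append_of_mem h1
    refine ⟨A1, σ z, A2, x, M1, M2, B, ?_⟩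
    rw [hL', hA, inv z hzL]
    simp
  · -- `σ z = x`
    exfalso
    have h2 : σ x = z := by rw [← h1, inv z hzL]
    rw [h2] at hnd
    have h3 := (List.nodup_append.1 hnd).2.1
    have h4 := (List.nodup_cons.1 h3).2
    have h5 := (List.nodup_append.1 h4).2.1
    exact (List.nodup_cons.1 h5).1 (by simp)
  · -- `σ z ∈ M1`
    exfalso
    obtain ⟨M11, M12, hM1⟩ := List.append_of_mem h1
    have h2 := hmin (A ++ x :: M11) (σ z) M12 (M2 ++ σ x :: B) (by
      rw [hL', hM1, inv z hzL]; simp)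
    rw [hMs, hM1] at h2
    simp at h2
    omega
  · exact absurd h1 hzne
  · -- `σ z ∈ M2`
    exfalso
    obtain ⟨M21, M22, hM2⟩ := List.append_of_mem h1
    have h2 := hmin (A ++ x :: M1) z M21 (M22 ++ σ x :: B) (by
      rw [hL', hM2]; simp)
    rw [hMs, hM2] at h2
    simp at h2
    omega
  · -- `σ z = σ x`
    exfalso
    have h2 : z = x := by rw [← inv z hzL, h1, inv x hxL]
    rw [h2] at hnd
    have h3 := (List.nodup_append.1 hnd).2.1
    exact (List.nodup_cons.1 h3).1 (by simp)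
  · -- `σ z ∈ B`
    obtain ⟨B1, B2, hB⟩ := List.append_of_mem h1
    refine ⟨A, x, M1, z, M2, B1, B2, ?_⟩
    rw [hL', hB]

/-- In a diagram with punctures only, the steps and the side pairing elements generate the same
subgroup. -/
theorem punct_closure {L : List I} {σ : I → I} {ε : I → F} (nd : L.Nodup)
    (hσ : ∀ i ∈ L, σ i = i) :
    Subgroup.closure (hh L σ ε '' {i | i ∈ L}) = Subgroup.closure (ε '' {i | i ∈ L}) := by
  have hval : ∀ i ∈ L, hh L σ ε i = vl ε (pre L i) * (ε i)⁻¹ * (vl ε (pre L i))⁻¹ := by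
    intro i hi
    unfold hh
    rw [hσ i hi]
    group
  have hvl : ∀ (K : Subgroup F), (∀ i ∈ L, ε i ∈ K) → ∀ l : List I, (∀ i ∈ l, i ∈ L) →
      vl ε l ∈ K := by
    intro K hK l
    induction l with
    | nil => intro _; rw [vl_nil]; exact K.one_mem
    | cons a l ih =>
      intro h
      rw [vl_cons]
      exact K.mul_mem (hK a (h a (by simp))) (ih fun i hi => h i (by simp [hi]))
  apply le_antisymm
  · rw [Subgroup.closure_le]
    rintro _ ⟨i, hi, rfl⟩
    set K := Subgroup.closure (ε '' {i | i ∈ L}) with hK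
    have hm : ∀ i ∈ L, ε i ∈ K := fun i hi => Subgroup.subset_closure ⟨i, hi, rfl⟩
    have hp : vl ε (pre L i) ∈ K := hvl K hm _ fun j hj => mem_pre hj
    rw [SetLike.mem_coe, hval i hi]
    exact K.mul_mem (K.mul_mem hp (K.inv_mem (hm i hi))) (K.inv_mem hp)
  · rw [Subgroup.closure_le]
    set K := Subgroup.closure (hh L σ ε '' {i | i ∈ L}) with hK
    have hm : ∀ i ∈ L, hh L σ ε i ∈ K := fun i hi => Subgroup.subset_closure ⟨i, hi, rfl⟩
    have key : ∀ l, l <+: L → vl ε l ∈ K := by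
      intro l
      induction l using List.reverseRecOn with
      | nil => intro _; rw [vl_nil]; exact K.one_mem
      | append_singleton l j ih =>
        intro h
        have h1 := ih ((List.prefix_append l [j]).trans h)
        have hpre := pre_of_prefix nd h
        have hj : j ∈ L := h.subset (by simp)
        have h2 := hm j hj
        rw [hval j hj, hpre] at h2
        rw [vl_append, vl_cons, vl_nil, mul_one]
        have h3 : vl ε l * ε j = (vl ε l * (ε j)⁻¹ * (vl ε l)⁻¹)⁻¹ * vl ε l := by group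
        rw [h3]
        exact K.mul_mem (K.inv_mem h2) h1
    rintro _ ⟨i, hi, rfl⟩
    have h1 := key _ (preq_prefix hi)
    have h2 := key _ (pre_prefix L i)
    rw [vl_append, vl_cons, vl_nil, mul_one] at h1
    rw [SetLike.mem_coe]
    have h3 : ε i = (vl ε (pre L i))⁻¹ * (vl ε (pre L i) * ε i) := by group
    rw [h3]
    exact K.mul_mem (K.inv_mem h2) h1

end Pool.MP_59b15d_al.H95
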