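import Pool.Agent.H.MP_59b15d_al.h95.Nf1

/-!
# Normal form of diagrams with punctures, part 2: the two moves
-/

set_option autoImplicit false

namespace Pool.MP_59b15d_al.H95

variable {I F : Type*} [DecidableEq I] [Group F]

/-- The steps after deleting a chord `x` around the punctures `M`. -/
def cst (ε : I → F) (x : I) (M : List I) (z : I) : F :=
  if z ∈ M then ε x * ε z * (ε x)⁻¹ else ε z

theorem vl_cst_M (ε : I → F) (x : I) (M l : List I) (hl : ∀ z ∈ l, z ∈ M) :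
    vl (cst ε x M) l = ε x * vl ε l * (ε x)⁻¹ := by
  induction l with
  | nil => simp
  | cons a l ih =>
    rw [vl_cons, vl_cons, ih fun z hz => hl z (by simp [hz]), cst, if_pos (hl a (by simp))]
    group

theorem vl_cst_ne (ε : I → F) (x : I) (M l : List I) (hl : ∀ z ∈ l, z ∉ M) :
    vl (cst ε x M) l = vl ε l := vl_congr fun z hz => by rw [cst, if_neg (hl z hz)]

section chord

variable {A M B : List I} {x : I} {σ : I → I} {ε : I → F} {c : F}

/-- Data of the first move. -/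
structure IsCh (A : List I) (x : I) (M B : List I) (σ : I → I) (ε : I → F) (c : F) : Prop where
  hP : IsP (A ++ x :: (M ++ σ x :: B)) σ ε c
  fix : ∀ z ∈ M, σ z = z

theorem IsCh.facts (h : IsCh A x M B σ ε c) :
    (A ++ (M ++ B)).Nodup ∧ x ∉ A ∧ x ∉ M ∧ x ∉ B ∧ σ x ∉ A ∧ σ x ∉ M ∧ σ x ∉ B ∧ σ x ≠ x ∧
      (∀ z ∈ A, z ∉ M) ∧ (∀ z ∈ B, z ∉ M) := by
  have h1 := h.hP.nd
  rw [List.nodup_append, List.nodup_cons, List.nodup_append, List.nodup_cons] at h1
  obtain ⟨h2, ⟨h3, h4, ⟨h5, h6⟩, h7⟩, h8⟩ := h1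
  simp only [List.mem_append, List.mem_cons, not_or] at h3
  refine ⟨?_, ?_, h3.1, h3.2.2, ?_, ?_, h5, Ne.symm h3.2.1, ?_, ?_⟩
  · rw [List.nodup_append, List.nodup_append]
    refine ⟨h2, ⟨h4, h6, fun a ha b hb => h7 a ha b (by simp [hb])⟩, fun a ha b hb => h8 a ha b ?_⟩
    rcases List.mem_append.1 hb with hb | hb <;> simp [hb]
  · intro hx
    exact h8 x hx x (by simp) rfl
  · intro hx
    exact h8 _ hx (σ x) (by simp) rfl
  · intro hx
    exact h7 _ hx (σ x) (by simp) rfl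
  · intro z hz hz'
    exact h8 z hz z (by simp [hz']) rfl
  · intro z hz hz'
    exact h7 z hz' z (by simp [hz]) rfl

theorem IsCh.mem_iff (h : IsCh A x M B σ ε c) {z : I} :
    z ∈ A ++ x :: (M ++ σ x :: B) ↔ z ∈ A ++ (M ++ B) ∨ z = x ∨ z = σ x := by
  simp only [List.mem_append, List.mem_cons]
  tauto

theorem IsCh.s_mem (h : IsCh A x M B σ ε c) {z : I} (hz : z ∈ A ++ (M ++ B)) :
    σ z ∈ A ++ (M ++ B) := by
  obtain ⟨-, f1, f2, f3, f4, f5, f6, -⟩ := h.facts
  have hzL := h.mem_iff.2 (Or.inl hz)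
  have hx : z ≠ x := by
    rintro rfl
    simp only [List.mem_append] at hz
    tauto
  have hx' : z ≠ σ x := by
    rintro rfl
    simp only [List.mem_append] at hz
    tauto
  rcases h.mem_iff.1 (h.hP.mem z hzL) with h1 | h1 | h1
  · exact h1
  · exfalso
    apply hx'
    rw [← h1, h.hP.inv z hzL]
  · exfalso
    apply hx
    rw [← h.hP.inv z hzL, h1, h.hP.inv x (by simp)]

theorem IsCh.eps_sx (h : IsCh A x M B σ ε c) : ε (σ x) = (ε x)⁻¹ :=
  h.hP.eps x (by simp) h.facts.2.2.2.2.2.2.2.1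

theorem IsCh.s_notMem (h : IsCh A x M B σ ε c) {z : I} (hz : z ∈ A ++ (M ++ B)) (hM : z ∉ M) :
    σ z ∉ M := by
  intro h1
  have h2 := h.fix _ h1
  rw [h.hP.inv z (h.mem_iff.2 (Or.inl hz))] at h2
  rw [h2] at hM
  exact hM h1

/-- The diagram after the first move. -/
theorem IsCh.isP (h : IsCh A x M B σ ε c) : IsP (A ++ (M ++ B)) σ (cst ε x M) c := by
  obtain ⟨f0, f1, f2, f3, f4, f5, f6, f7, f8, f9⟩ := h.facts
  refine ⟨f0, fun i hi => h.s_mem hi, fun i hi => h.hP.inv i (h.mem_iff.2 (Or.inl hi)), ?_, ?_⟩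
  · intro i hi hne
    have hi1 : i ∉ M := fun hM => hne (h.fix i hM)
    have hi2 : σ i ∉ M := h.s_notMem hi hi1
    rw [cst, if_neg hi2, cst, if_neg hi1]
    exact h.hP.eps i (h.mem_iff.2 (Or.inl hi)) hne
  · have h1 := h.hP.val
    rw [← h1]
    simp only [vl_append, vl_cons, h.eps_sx]
    rw [vl_cst_M ε x M M fun z hz => hz, vl_cst_ne ε x M A f8, vl_cst_ne ε x M B f9]
    group

/-- Side pairing elements do not change. -/
theorem IsCh.hh_eq (h : IsCh A x M B σ ε c) {z : I} (hz : z ∈ A ++ (M ++ B)) :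
    hh (A ++ (M ++ B)) σ (cst ε x M) z = hh (A ++ x :: (M ++ σ x :: B)) σ ε z := by
  obtain ⟨f0, f1, f2, f3, f4, f5, f6, f7, f8, f9⟩ := h.facts
  -- prefixes outside `M`
  have key : ∀ w, w ∈ A ++ (M ++ B) → w ∉ M →
      vl (cst ε x M) (pre (A ++ (M ++ B)) w) = vl ε (pre (A ++ x :: (M ++ σ x :: B)) w) := by
    intro w hw hwM
    by_cases hA : w ∈ A
    · rw [pre_append_mem _ hA, pre_append_mem _ hA]
      exact vl_cst_ne ε x M _ fun z hz => f8 z (mem_pre hz)
    · have hB : w ∈ B := by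
        simp only [List.mem_append] at hw
        tauto
      have hwx : x ≠ w := by rintro rfl; exact f3 hB
      have hwx' : σ x ≠ w := by rintro rfl; exact f6 hB
      rw [pre_append_notMem _ hA, pre_append_notMem _ hA, pre_append_notMem _ hwM,
        pre_cons_ne _ hwx, pre_append_notMem _ hwM, pre_cons_ne _ hwx']
      simp only [vl_append, vl_cons, h.eps_sx]
      rw [vl_cst_M ε x M M fun z hz => hz, vl_cst_ne ε x M A f8,
        vl_cst_ne ε x M _ fun z hz => f9 z (mem_pre hz)]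
      group
  by_cases hM : z ∈ M
  · have hzA : z ∉ A := fun hA => f8 z hA hM
    have hwx : x ≠ z := by rintro rfl; exact f2 hM
    unfold hh
    rw [h.fix z hM, pre_append_notMem _ hzA, pre_append_notMem _ hzA, pre_cons_ne _ hwx,
      pre_append_mem _ hM, pre_append_mem _ hM]
    simp only [vl_append, vl_cons]
    rw [vl_cst_M ε x M _ fun z hz => mem_pre hz, vl_cst_ne ε x M A f8, cst, if_pos hM]
    group
  · unfold hh
    rw [key z hz hM, key _ (h.s_mem hz) (h.s_notMem hz hM), cst, if_neg hM]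

theorem IsCh.hh_x (h : IsCh A x M B σ ε c) :
    hh (A ++ x :: (M ++ σ x :: B)) σ ε x = vl ε A * ε x * vl ε M * (vl ε A * ε x)⁻¹ := by
  obtain ⟨f0, f1, f2, f3, f4, f5, f6, f7, f8, f9⟩ := h.facts
  unfold hh
  rw [pre_append_notMem _ f4, pre_append_notMem _ f1, pre_cons_self, pre_cons_ne _ (Ne.symm f7),
    pre_append_notMem _ f5, pre_cons_self]
  simp only [vl_append, vl_cons, vl_nil, mul_one, mul_assoc]

/-- The side pairing elements generate the same subgroup. -/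
theorem IsCh.closure_hh (h : IsCh A x M B σ ε c) :
    Subgroup.closure (hh (A ++ x :: (M ++ σ x :: B)) σ ε '' {i | i ∈ A ++ x :: (M ++ σ x :: B)}) =
      Subgroup.closure (hh (A ++ (M ++ B)) σ (cst ε x M) '' {i | i ∈ A ++ (M ++ B)}) := by
  obtain ⟨f0, f1, f2, f3, f4, f5, f6, f7, f8, f9⟩ := h.facts
  apply le_antisymm
  · rw [Subgroup.closure_le]
    set K := Subgroup.closure (hh (A ++ (M ++ B)) σ (cst ε x M) '' {i | i ∈ A ++ (M ++ B)}) with hK
    have hm : ∀ z ∈ A ++ (M ++ B), hh (A ++ x :: (M ++ σ x :: B)) σ ε z ∈ K := by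
      intro z hz
      rw [← h.hh_eq hz]
      exact Subgroup.subset_closure ⟨z, hz, rfl⟩
    have key : ∀ l, l <+: M → vl ε A * ε x * vl ε l * (vl ε A * ε x)⁻¹ ∈ K := by
      intro l
      induction l using List.reverseRecOn with
      | nil =>
        intro _
        have e : vl ε A * ε x * vl ε [] * (vl ε A * ε x)⁻¹ = 1 := by rw [vl_nil]; group
        rw [e]
        exact K.one_mem
      | append_singleton l j ih =>
        intro hl
        have h1 := ih ((List.prefix_append l [j]).trans hl)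
        have hMnd : M.Nodup := (List.nodup_append.1 (List.nodup_append.1 f0).2.1).1
        have hpre := pre_of_prefix hMnd hl
        have hj : j ∈ M := hl.subset (by simp)
        have h2 := hm j (by simp [hj])
        have hjA : j ∉ A := fun hA => f8 j hA hj
        have hjx : x ≠ j := by rintro rfl; exact f2 hj
        unfold hh at h2
        rw [h.fix j hj, pre_append_notMem _ hjA, pre_cons_ne _ hjx, pre_append_mem _ hj, hpre] at h2
        simp only [vl_append, vl_cons] at h2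
        rw [vl_append, vl_cons, vl_nil, mul_one]
        have e : vl ε A * ε x * (vl ε l * ε j) * (vl ε A * ε x)⁻¹ =
            (vl ε A * (ε x * vl ε l) * (vl ε A * (ε x * vl ε l) * ε j)⁻¹)⁻¹ *
              (vl ε A * ε x * vl ε l * (vl ε A * ε x)⁻¹) := by group
        rw [e]
        exact K.mul_mem (K.inv_mem h2) h1
    have hx : hh (A ++ x :: (M ++ σ x :: B)) σ ε x ∈ K := by
      rw [h.hh_x]
      exact key M (List.prefix_refl M)
    rintro _ ⟨z, hz, rfl⟩
    rcases h.mem_iff.1 hz with h1 | rfl | rfl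
    · exact hm z h1
    · exact hx
    · have h2 : hh (A ++ x :: (M ++ σ x :: B)) σ ε (σ x) =
          (hh (A ++ x :: (M ++ σ x :: B)) σ ε x)⁻¹ := by
        unfold hh
        rw [h.hP.inv x (by simp), h.eps_sx]
        group
      rw [SetLike.mem_coe, h2]
      exact K.inv_mem hx
  · rw [Subgroup.closure_le]
    rintro _ ⟨z, hz, rfl⟩
    rw [SetLike.mem_coe, h.hh_eq hz]
    exact Subgroup.subset_closure ⟨z, h.mem_iff.2 (Or.inl hz), rfl⟩

/-- The steps generate the same subgroup, up to the deleted step. -/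
theorem IsCh.closure_eps (h : IsCh A x M B σ ε c) :
    Subgroup.closure (ε '' {i | i ∈ A ++ x :: (M ++ σ x :: B)}) =
      Subgroup.closure (cst ε x M '' {i | i ∈ A ++ (M ++ B)} ∪ {ε x}) := by
  apply le_antisymm
  · rw [Subgroup.closure_le]
    set K := Subgroup.closure (cst ε x M '' {i | i ∈ A ++ (M ++ B)} ∪ {ε x}) with hK
    have hx : ε x ∈ K := Subgroup.subset_closure (Or.inr rfl)
    rintro _ ⟨z, hz, rfl⟩
    rw [SetLike.mem_coe]
    rcases h.mem_iff.1 hz with h1 | rfl | rfl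
    · have h2 : cst ε x M z ∈ K := Subgroup.subset_closure (Or.inl ⟨z, h1, rfl⟩)
      unfold cst at h2
      split_ifs at h2 with h3
      · have h4 := K.mul_mem (K.mul_mem (K.inv_mem hx) h2) hx
        have e : (ε x)⁻¹ * (ε x * ε z * (ε x)⁻¹) * ε x = ε z := by group
        rwa [e] at h4
      · exact h2
    · exact hx
    · rw [h.eps_sx]
      exact K.inv_mem hx
  · rw [Subgroup.closure_le]
    set K := Subgroup.closure (ε '' {i | i ∈ A ++ x :: (M ++ σ x :: B)}) with hK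
    have hx : ε x ∈ K := Subgroup.subset_closure ⟨x, by simp, rfl⟩
    rintro _ (⟨z, hz, rfl⟩ | rfl)
    · have hz' : ε z ∈ K := Subgroup.subset_closure ⟨z, h.mem_iff.2 (Or.inl hz), rfl⟩
      rw [SetLike.mem_coe]
      unfold cst
      split_ifs
      · exact K.mul_mem (K.mul_mem hx hz') (K.inv_mem hx)
      · exact hz'
    · exact hx

end chord

section handle

variable {P Q R S T : List I} {x y : I} {σ : I → I} {ε : I → F} {c : F}

/-- Data of the second move. -/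
structure IsHd (P : List I) (x : I) (Q : List I) (y : I) (R S T : List I) (σ : I → I) (ε : I → F)
    (c : F) : Prop where
  hP : IsP (P ++ x :: (Q ++ y :: (R ++ σ x :: (S ++ σ y :: T)))) σ ε c

/-- The first element of the new handle. -/
def hal (P : List I) (x : I) (R S : List I) (ε : I → F) : F :=
  vl ε P * ε x * (vl ε P * vl ε S * vl ε R)⁻¹

/-- The second element of the new handle. -/
def hbe (P Q : List I) (y : I) (R S : List I) (ε : I → F) : F :=
  vl ε P * vl ε S * vl ε R * vl ε Q * ε y * (vl ε P * vl ε S)⁻¹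

theorem IsHd.facts (h : IsHd P x Q y R S T σ ε c) :
    (P ++ (S ++ (R ++ (Q ++ T)))).Nodup ∧ (∀ z ∈ P, z ∉ Q ∧ z ∉ R ∧ z ∉ S ∧ z ∉ T) ∧
    (∀ z ∈ Q, z ∉ P ∧ z ∉ R ∧ z ∉ S ∧ z ∉ T) ∧ (∀ z ∈ R, z ∉ P ∧ z ∉ Q ∧ z ∉ S ∧ z ∉ T) ∧
    (∀ z ∈ S, z ∉ P ∧ z ∉ Q ∧ z ∉ R ∧ z ∉ T) ∧ (∀ z ∈ T, z ∉ P ∧ z ∉ Q ∧ z ∉ R ∧ z ∉ S) ∧
    (∀ z ∈ P ++ (S ++ (R ++ (Q ++ T))), z ≠ x ∧ z ≠ y ∧ z ≠ σ x ∧ z ≠ σ y) ∧
    x ≠ y ∧ x ≠ σ x ∧ x ≠ σ y ∧ y ≠ σ x ∧ y ≠ σ y ∧ σ x ≠ σ y := by
  have h1 := h.hP.nd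
  have h2 : (x :: y :: σ x :: σ y :: (P ++ (S ++ (R ++ (Q ++ T))))).Nodup := by
    refine (List.Perm.nodup_iff ?_).1 h1
    rw [List.perm_iff_count]
    intro a
    simp only [List.count_append, List.count_cons]
    omega
  simp only [List.nodup_cons, List.mem_cons, not_or] at h2
  obtain ⟨⟨a1, a2, a3, a4⟩, ⟨b1, b2, b3⟩, ⟨c1, c2⟩, d1, d2⟩ := h2
  have d3 := d2
  rw [List.nodup_append, List.nodup_append, List.nodup_append, List.nodup_append] at d3
  obtain ⟨-, ⟨-, ⟨-, ⟨-, -, e4⟩, e3⟩, e2⟩, e1⟩ := d3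
  refine ⟨d2, ?_, ?_, ?_, ?_, ?_, ?_, a1, a2, a3, b1, b2, c1⟩
  · intro z hz
    refine ⟨?_, ?_, ?_, ?_⟩ <;> intro hz' <;> exact e1 z hz z (by simp [hz']) rfl
  · intro z hz
    refine ⟨?_, ?_, ?_, ?_⟩ <;> intro hz'
    · exact e1 z hz' z (by simp [hz]) rfl
    · exact e3 z hz' z (by simp [hz]) rfl
    · exact e2 z hz' z (by simp [hz]) rfl
    · exact e4 z hz z hz' rfl
  · intro z hz
    refine ⟨?_, ?_, ?_, ?_⟩ <;> intro hz'
    · exact e1 z hz' z (by simp [hz]) rfl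
    · exact e3 z hz z (by simp [hz']) rfl
    · exact e2 z hz' z (by simp [hz]) rfl
    · exact e3 z hz z (by simp [hz']) rfl
  · intro z hz
    refine ⟨?_, ?_, ?_, ?_⟩ <;> intro hz'
    · exact e1 z hz' z (by simp [hz]) rfl
    · exact e2 z hz z (by simp [hz']) rfl
    · exact e2 z hz z (by simp [hz']) rfl
    · exact e2 z hz z (by simp [hz']) rfl
  · intro z hz
    refine ⟨?_, ?_, ?_, ?_⟩ <;> intro hz'
    · exact e1 z hz' z (by simp [hz]) rfl
    · exact e4 z hz' z hz rfl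
    · exact e3 z hz' z (by simp [hz]) rfl
    · exact e2 z hz' z (by simp [hz]) rfl
  · intro z hz
    refine ⟨?_, ?_, ?_, ?_⟩
    · rintro rfl; exact a4 hz
    · rintro rfl; exact b3 hz
    · rintro rfl; exact c2 hz
    · rintro rfl; exact d1 hz

theorem IsHd.mem_iff (_h : IsHd P x Q y R S T σ ε c) {z : I} :
    z ∈ P ++ x :: (Q ++ y :: (R ++ σ x :: (S ++ σ y :: T))) ↔
      z ∈ P ++ (S ++ (R ++ (Q ++ T))) ∨ z = x ∨ z = y ∨ z = σ x ∨ z = σ y := by
  simp only [List.mem_append, List.mem_cons]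
  tauto

theorem IsHd.eps_x (h : IsHd P x Q y R S T σ ε c) : ε (σ x) = (ε x)⁻¹ :=
  h.hP.eps x (by simp) (Ne.symm h.facts.2.2.2.2.2.2.2.2.1)

theorem IsHd.eps_y (h : IsHd P x Q y R S T σ ε c) : ε (σ y) = (ε y)⁻¹ := by
  obtain ⟨-, -, -, -, -, -, -, -, -, -, -, h1, -⟩ := h.facts
  exact h.hP.eps y (by simp) (Ne.symm h1)

theorem IsHd.inv_x (h : IsHd P x Q y R S T σ ε c) : σ (σ x) = x := h.hP.inv x (by simp)

theorem IsHd.inv_y (h : IsHd P x Q y R S T σ ε c) : σ (σ y) = y := h.hP.inv y (by simp)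

theorem IsHd.s_mem (h : IsHd P x Q y R S T σ ε c) {z : I} (hz : z ∈ P ++ (S ++ (R ++ (Q ++ T)))) :
    σ z ∈ P ++ (S ++ (R ++ (Q ++ T))) := by
  obtain ⟨-, -, -, -, -, -, hne, -⟩ := h.facts
  have hzL := h.mem_iff.2 (Or.inl hz)
  obtain ⟨n1, n2, n3, n4⟩ := hne z hz
  have hzz := h.hP.inv z hzL
  rcases h.mem_iff.1 (h.hP.mem z hzL) with h1 | h1 | h1 | h1 | h1
  · exact h1
  · exact absurd (by rw [← hzz, h1]) n3
  · exact absurd (by rw [← hzz, h1]) n4
  · exact absurd (by rw [← hzz, h1, h.inv_x]) n1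
  · exact absurd (by rw [← hzz, h1, h.inv_y]) n2

theorem IsHd.val (h : IsHd P x Q y R S T σ ε c) :
    c = hal P x R S ε * hbe P Q y R S ε * (hal P x R S ε)⁻¹ * (hbe P Q y R S ε)⁻¹ *
      vl ε (P ++ (S ++ (R ++ (Q ++ T)))) := by
  have h1 := h.hP.val
  rw [← h1]
  simp only [vl_append, vl_cons, h.eps_x, h.eps_y, hal, hbe]
  group

/-- The diagram after the second move. -/
theorem IsHd.isP (h : IsHd P x Q y R S T σ ε c) :
    IsP (P ++ (S ++ (R ++ (Q ++ T)))) σ ε (vl ε (P ++ (S ++ (R ++ (Q ++ T))))) :=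
  ⟨h.facts.1, fun _ hi => h.s_mem hi, fun i hi => h.hP.inv i (h.mem_iff.2 (Or.inl hi)),
    fun i hi => h.hP.eps i (h.mem_iff.2 (Or.inl hi)), rfl⟩

/-- Comparison of the prefixes. -/
theorem IsHd.pre_eq (h : IsHd P x Q y R S T σ ε c) {z : I} (hz : z ∈ P ++ (S ++ (R ++ (Q ++ T)))) :
    ∃ γ ∈ Subgroup.closure {hal P x R S ε, hbe P Q y R S ε},
      vl ε (pre (P ++ x :: (Q ++ y :: (R ++ σ x :: (S ++ σ y :: T)))) z) =
        γ * vl ε (pre (P ++ (S ++ (R ++ (Q ++ T)))) z) := by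
  set K := Subgroup.closure {hal P x R S ε, hbe P Q y R S ε} with hK
  have ha : hal P x R S ε ∈ K := Subgroup.subset_closure (by simp)
  have hb : hbe P Q y R S ε ∈ K := Subgroup.subset_closure (by simp)
  obtain ⟨f0, fP, fQ, fR, fS, fT, hne, -⟩ := h.facts
  obtain ⟨n1, n2, n3, n4⟩ := hne z hz
  simp only [List.mem_append] at hz
  rcases hz with hz | hz | hz | hz | hz
  · refine ⟨1, K.one_mem, ?_⟩
    rw [pre_append_mem _ hz, pre_append_mem _ hz, one_mul]
  · obtain ⟨m1, m2, m3, m4⟩ := fS z hz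
    refine ⟨hal P x R S ε * hbe P Q y R S ε * (hal P x R S ε)⁻¹,
      K.mul_mem (K.mul_mem ha hb) (K.inv_mem ha), ?_⟩
    rw [pre_append_notMem _ m1, pre_append_notMem _ m1, pre_cons_ne _ n1.symm,
      pre_append_notMem _ m2, pre_cons_ne _ n2.symm, pre_append_notMem _ m3, pre_cons_ne _ n3.symm,
      pre_append_mem _ hz, pre_append_mem _ hz]
    simp only [vl_append, vl_cons, h.eps_x, hal, hbe]
    group
  · obtain ⟨m1, m2, m3, m4⟩ := fR z hz
    refine ⟨hal P x R S ε * hbe P Q y R S ε, K.mul_mem ha hb, ?_⟩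
    rw [pre_append_notMem _ m1, pre_append_notMem _ m1, pre_append_notMem _ m3,
      pre_cons_ne _ n1.symm, pre_append_notMem _ m2, pre_cons_ne _ n2.symm,
      pre_append_mem _ hz, pre_append_mem _ hz]
    simp only [vl_append, vl_cons, hal, hbe]
    group
  · obtain ⟨m1, m2, m3, m4⟩ := fQ z hz
    refine ⟨hal P x R S ε, ha, ?_⟩
    rw [pre_append_notMem _ m1, pre_append_notMem _ m1, pre_append_notMem _ m3,
      pre_append_notMem _ m2, pre_cons_ne _ n1.symm, pre_append_mem _ hz, pre_append_mem _ hz]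
    simp only [vl_append, vl_cons, hal]
    group
  · obtain ⟨m1, m2, m3, m4⟩ := fT z hz
    refine ⟨hal P x R S ε * hbe P Q y R S ε * (hal P x R S ε)⁻¹ * (hbe P Q y R S ε)⁻¹,
      K.mul_mem (K.mul_mem (K.mul_mem ha hb) (K.inv_mem ha)) (K.inv_mem hb), ?_⟩
    rw [pre_append_notMem _ m1, pre_append_notMem _ m1, pre_append_notMem _ m4,
      pre_append_notMem _ m3, pre_append_notMem _ m2, pre_cons_ne _ n1.symm,
      pre_append_notMem _ m2, pre_cons_ne _ n2.symm, pre_append_notMem _ m3, pre_cons_ne _ n3.symm,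
      pre_append_notMem _ m4, pre_cons_ne _ n4.symm]
    simp only [vl_append, vl_cons, h.eps_x, h.eps_y, hal, hbe]
    group

end handle

end Pool.MP_59b15d_al.H95
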