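import Pool.Agent.H.MP_59b15d_al.h95.Nf2

/-!
# Normal form of diagrams with punctures, part 3: the normal form
-/

set_option autoImplicit false

namespace Pool.MP_59b15d_al.H95

variable {I F : Type*} [DecidableEq I] [Group F]

omit [DecidableEq I] in
theorem vl_mem {ε : I → F} {K : Subgroup F} {l : List I} (h : ∀ i ∈ l, ε i ∈ K) : vl ε l ∈ K := by
  induction l with
  | nil => rw [vl_nil]; exact K.one_mem
  | cons a l ih =>
    rw [vl_cons]
    exact K.mul_mem (h a (by simp)) (ih fun i hi => h i (by simp [hi]))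

section handle

variable {P Q R S T : List I} {x y : I} {σ : I → I} {ε : I → F} {c : F}

theorem IsHd.hh_x (h : IsHd P x Q y R S T σ ε c) :
    hh (P ++ x :: (Q ++ y :: (R ++ σ x :: (S ++ σ y :: T)))) σ ε x =
      hal P x R S ε * hbe P Q y R S ε * (hal P x R S ε)⁻¹ := by
  obtain ⟨f0, fP, fQ, fR, fS, fT, hne, n1, n2, n3, n4, n5, n6⟩ := h.facts
  have hx : x ∉ P := fun hx => (hne x (by simp [hx])).1 rfl
  have hsP : σ x ∉ P := fun hx => (hne (σ x) (by simp [hx])).2.2.1 rfl
  have hsQ : σ x ∉ Q := fun hx => (hne (σ x) (by simp [hx])).2.2.1 rfl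
  have hsR : σ x ∉ R := fun hx => (hne (σ x) (by simp [hx])).2.2.1 rfl
  unfold hh
  rw [pre_append_notMem _ hx, pre_cons_self, pre_append_notMem _ hsP, pre_cons_ne _ n2,
    pre_append_notMem _ hsQ, pre_cons_ne _ n4, pre_append_notMem _ hsR, pre_cons_self]
  simp only [vl_append, vl_cons, vl_nil, hal, hbe]
  group

theorem IsHd.hh_y (h : IsHd P x Q y R S T σ ε c) :
    hh (P ++ x :: (Q ++ y :: (R ++ σ x :: (S ++ σ y :: T)))) σ ε y =
      hal P x R S ε * hbe P Q y R S ε * (hal P x R S ε)⁻¹ * (hbe P Q y R S ε)⁻¹ *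
        (hal P x R S ε)⁻¹ := by
  obtain ⟨f0, fP, fQ, fR, fS, fT, hne, n1, n2, n3, n4, n5, n6⟩ := h.facts
  have hyP : y ∉ P := fun hx => (hne y (by simp [hx])).2.1 rfl
  have hyQ : y ∉ Q := fun hx => (hne y (by simp [hx])).2.1 rfl
  have hsP : σ y ∉ P := fun hx => (hne (σ y) (by simp [hx])).2.2.2 rfl
  have hsQ : σ y ∉ Q := fun hx => (hne (σ y) (by simp [hx])).2.2.2 rfl
  have hsR : σ y ∉ R := fun hx => (hne (σ y) (by simp [hx])).2.2.2 rfl
  have hsS : σ y ∉ S := fun hx => (hne (σ y) (by simp [hx])).2.2.2 rfl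
  unfold hh
  rw [pre_append_notMem _ hyP, pre_cons_ne _ n1, pre_append_notMem _ hyQ, pre_cons_self,
    pre_append_notMem _ hsP, pre_cons_ne _ n3, pre_append_notMem _ hsQ, pre_cons_ne _ n5,
    pre_append_notMem _ hsR, pre_cons_ne _ n6, pre_append_notMem _ hsS, pre_cons_self]
  simp only [vl_append, vl_cons, vl_nil, hal, hbe, h.eps_x]
  group

theorem IsP.hh_inv {L : List I} (h : IsP L σ ε c) {i : I} (hi : i ∈ L) (hne : σ i ≠ i) :
    hh L σ ε (σ i) = (hh L σ ε i)⁻¹ := by
  unfold hh
  rw [h.inv i hi, h.eps i hi hne]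
  group

/-- The side pairing elements and the new handle. -/
theorem IsHd.closure_hh (h : IsHd P x Q y R S T σ ε c) :
    Subgroup.closure (hh (P ++ x :: (Q ++ y :: (R ++ σ x :: (S ++ σ y :: T)))) σ ε ''
        {i | i ∈ P ++ x :: (Q ++ y :: (R ++ σ x :: (S ++ σ y :: T)))}) =
      Subgroup.closure ({hal P x R S ε, hbe P Q y R S ε} ∪
        hh (P ++ (S ++ (R ++ (Q ++ T)))) σ ε '' {i | i ∈ P ++ (S ++ (R ++ (Q ++ T)))}) := by
  obtain ⟨-, -, -, -, -, -, -, -, n2, -, -, n5, -⟩ := h.facts
  -- the relation between the two kinds of side pairing elements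
  have key : ∀ z ∈ P ++ (S ++ (R ++ (Q ++ T))),
      ∃ γ ∈ Subgroup.closure {hal P x R S ε, hbe P Q y R S ε},
      ∃ γ' ∈ Subgroup.closure {hal P x R S ε, hbe P Q y R S ε},
      hh (P ++ x :: (Q ++ y :: (R ++ σ x :: (S ++ σ y :: T)))) σ ε z =
        γ * hh (P ++ (S ++ (R ++ (Q ++ T)))) σ ε z * γ' := by
    intro z hz
    obtain ⟨γ, h1, h2⟩ := h.pre_eq hz
    obtain ⟨γ', h3, h4⟩ := h.pre_eq (h.s_mem hz)
    refine ⟨γ', h3, γ⁻¹, Subgroup.inv_mem _ h1, ?_⟩
    unfold hh
    rw [h2, h4]
    group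
  apply le_antisymm
  · rw [Subgroup.closure_le]
    set K := Subgroup.closure ({hal P x R S ε, hbe P Q y R S ε} ∪
        hh (P ++ (S ++ (R ++ (Q ++ T)))) σ ε '' {i | i ∈ P ++ (S ++ (R ++ (Q ++ T)))}) with hK
    have hab : Subgroup.closure {hal P x R S ε, hbe P Q y R S ε} ≤ K :=
      Subgroup.closure_mono Set.subset_union_left
    have ha : hal P x R S ε ∈ K := hab (Subgroup.subset_closure (by simp))
    have hb : hbe P Q y R S ε ∈ K := hab (Subgroup.subset_closure (by simp))
    have hx : hh (P ++ x :: (Q ++ y :: (R ++ σ x :: (S ++ σ y :: T)))) σ ε x ∈ K := by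
      rw [h.hh_x]
      exact K.mul_mem (K.mul_mem ha hb) (K.inv_mem ha)
    have hy : hh (P ++ x :: (Q ++ y :: (R ++ σ x :: (S ++ σ y :: T)))) σ ε y ∈ K := by
      rw [h.hh_y]
      exact K.mul_mem (K.mul_mem (K.mul_mem (K.mul_mem ha hb) (K.inv_mem ha)) (K.inv_mem hb))
        (K.inv_mem ha)
    rintro _ ⟨z, hz, rfl⟩
    rw [SetLike.mem_coe]
    rcases h.mem_iff.1 hz with h1 | rfl | rfl | rfl | rfl
    · obtain ⟨γ, h2, γ', h3, h4⟩ := key z h1
      rw [h4]
      exact K.mul_mem (K.mul_mem (hab h2) (Subgroup.subset_closure (Or.inr ⟨z, h1, rfl⟩))) (hab h3)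
    · exact hx
    · exact hy
    · rw [h.hP.hh_inv (by simp) n2.symm]
      exact K.inv_mem hx
    · rw [h.hP.hh_inv (by simp) n5.symm]
      exact K.inv_mem hy
  · rw [Subgroup.closure_le]
    set K := Subgroup.closure (hh (P ++ x :: (Q ++ y :: (R ++ σ x :: (S ++ σ y :: T)))) σ ε ''
        {i | i ∈ P ++ x :: (Q ++ y :: (R ++ σ x :: (S ++ σ y :: T)))}) with hK
    have hx : hh (P ++ x :: (Q ++ y :: (R ++ σ x :: (S ++ σ y :: T)))) σ ε x ∈ K :=
      Subgroup.subset_closure ⟨x, by simp, rfl⟩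
    have hy : hh (P ++ x :: (Q ++ y :: (R ++ σ x :: (S ++ σ y :: T)))) σ ε y ∈ K :=
      Subgroup.subset_closure ⟨y, by simp, rfl⟩
    have h1 := K.mul_mem (K.inv_mem hy) hx
    have e1 : (hh (P ++ x :: (Q ++ y :: (R ++ σ x :: (S ++ σ y :: T)))) σ ε y)⁻¹ *
        hh (P ++ x :: (Q ++ y :: (R ++ σ x :: (S ++ σ y :: T)))) σ ε x =
        hal P x R S ε * hbe P Q y R S ε := by
      rw [h.hh_x, h.hh_y]
      group
    rw [e1] at h1
    have ha : hal P x R S ε ∈ K := by
      have h2 := K.mul_mem (K.inv_mem hx) h1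
      have e2 : (hh (P ++ x :: (Q ++ y :: (R ++ σ x :: (S ++ σ y :: T)))) σ ε x)⁻¹ *
          (hal P x R S ε * hbe P Q y R S ε) = hal P x R S ε := by
        rw [h.hh_x]
        group
      rwa [e2] at h2
    have hb : hbe P Q y R S ε ∈ K := by
      have h2 := K.mul_mem (K.inv_mem ha) h1
      rwa [inv_mul_cancel_left] at h2
    have hab : Subgroup.closure {hal P x R S ε, hbe P Q y R S ε} ≤ K := by
      rw [Subgroup.closure_le]
      rintro _ (rfl | rfl)
      · exact ha
      · exact hb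
    rintro _ (h2 | ⟨z, hz, rfl⟩)
    · exact hab (Subgroup.subset_closure h2)
    · obtain ⟨γ, h2, γ', h3, h4⟩ := key z hz
      have h5 : hh (P ++ x :: (Q ++ y :: (R ++ σ x :: (S ++ σ y :: T)))) σ ε z ∈ K :=
        Subgroup.subset_closure ⟨z, h.mem_iff.2 (Or.inl hz), rfl⟩
      rw [h4] at h5
      have h6 := K.mul_mem (K.mul_mem (K.inv_mem (hab h2)) h5) (K.inv_mem (hab h3))
      have e3 : γ⁻¹ * (γ * hh (P ++ (S ++ (R ++ (Q ++ T)))) σ ε z * γ') * γ'⁻¹ =
          hh (P ++ (S ++ (R ++ (Q ++ T)))) σ ε z := by group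
      rwa [e3] at h6

/-- The steps and the new handle. -/
theorem IsHd.closure_eps (h : IsHd P x Q y R S T σ ε c) :
    Subgroup.closure (ε '' {i | i ∈ P ++ x :: (Q ++ y :: (R ++ σ x :: (S ++ σ y :: T)))}) =
      Subgroup.closure ({hal P x R S ε, hbe P Q y R S ε} ∪
        ε '' {i | i ∈ P ++ (S ++ (R ++ (Q ++ T)))}) := by
  apply le_antisymm
  · rw [Subgroup.closure_le]
    set K := Subgroup.closure ({hal P x R S ε, hbe P Q y R S ε} ∪
        ε '' {i | i ∈ P ++ (S ++ (R ++ (Q ++ T)))}) with hK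
    have ha : hal P x R S ε ∈ K := Subgroup.subset_closure (Or.inl (by simp))
    have hb : hbe P Q y R S ε ∈ K := Subgroup.subset_closure (Or.inl (by simp))
    have hm : ∀ z ∈ P ++ (S ++ (R ++ (Q ++ T))), ε z ∈ K := fun z hz =>
      Subgroup.subset_closure (Or.inr ⟨z, hz, rfl⟩)
    have hp : vl ε P ∈ K := vl_mem fun z hz => hm z (by simp [hz])
    have hq : vl ε Q ∈ K := vl_mem fun z hz => hm z (by simp [hz])
    have hr : vl ε R ∈ K := vl_mem fun z hz => hm z (by simp [hz])
    have hs : vl ε S ∈ K := vl_mem fun z hz => hm z (by simp [hz])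
    have hpsr := K.mul_mem (K.mul_mem hp hs) hr
    have hx : ε x ∈ K := by
      have h1 := K.mul_mem (K.mul_mem (K.inv_mem hp) ha) hpsr
      have e : (vl ε P)⁻¹ * hal P x R S ε * (vl ε P * vl ε S * vl ε R) = ε x := by
        rw [hal]; group
      rwa [e] at h1
    have hy : ε y ∈ K := by
      have h1 := K.mul_mem (K.mul_mem (K.inv_mem (K.mul_mem hpsr hq)) hb) (K.mul_mem hp hs)
      have e : (vl ε P * vl ε S * vl ε R * vl ε Q)⁻¹ * hbe P Q y R S ε * (vl ε P * vl ε S) =
          ε y := by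
        rw [hbe]; group
      rwa [e] at h1
    rintro _ ⟨z, hz, rfl⟩
    rw [SetLike.mem_coe]
    rcases h.mem_iff.1 hz with h1 | rfl | rfl | rfl | rfl
    · exact hm z h1
    · exact hx
    · exact hy
    · rw [h.eps_x]
      exact K.inv_mem hx
    · rw [h.eps_y]
      exact K.inv_mem hy
  · rw [Subgroup.closure_le]
    set K := Subgroup.closure
      (ε '' {i | i ∈ P ++ x :: (Q ++ y :: (R ++ σ x :: (S ++ σ y :: T)))}) with hK
    have hm : ∀ z ∈ P ++ x :: (Q ++ y :: (R ++ σ x :: (S ++ σ y :: T))), ε z ∈ K := fun z hz =>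
      Subgroup.subset_closure ⟨z, hz, rfl⟩
    have hp : vl ε P ∈ K := vl_mem fun z hz => hm z (by simp [hz])
    have hq : vl ε Q ∈ K := vl_mem fun z hz => hm z (by simp [hz])
    have hr : vl ε R ∈ K := vl_mem fun z hz => hm z (by simp [hz])
    have hs : vl ε S ∈ K := vl_mem fun z hz => hm z (by simp [hz])
    have hx := hm x (by simp)
    have hy := hm y (by simp)
    rintro _ ((rfl | rfl) | ⟨z, hz, rfl⟩)
    · exact K.mul_mem (K.mul_mem hp hx) (K.inv_mem (K.mul_mem (K.mul_mem hp hs) hr))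
    · exact K.mul_mem (K.mul_mem (K.mul_mem (K.mul_mem (K.mul_mem hp hs) hr) hq) hy)
        (K.inv_mem (K.mul_mem hp hs))
    · exact hm z (h.mem_iff.2 (Or.inl hz))

end handle

/-- Product of the commutators of a list of handles. -/
def cprod (H : List (F × F)) : F := (H.map fun p => p.1 * p.2 * p.1⁻¹ * p.2⁻¹).prod

/-- The elements of a list of handles. -/
def hset (H : List (F × F)) : Set F := {z | ∃ p ∈ H, z = p.1 ∨ z = p.2}

omit [Group F] in
theorem hset_nil : hset ([] : List (F × F)) = ∅ := by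
  ext z
  simp [hset]

omit [Group F] in
theorem hset_cons (p : F × F) (H : List (F × F)) : hset (p :: H) = {p.1, p.2} ∪ hset H := by
  ext z
  simp only [hset, List.mem_cons, exists_eq_or_imp, Set.mem_setOf_eq, Set.mem_union,
    Set.mem_insert_iff, Set.mem_singleton_iff]

theorem closure_union_congr {s t u : Set F}
    (h : Subgroup.closure s = Subgroup.closure t) :
    Subgroup.closure (u ∪ s) = Subgroup.closure (u ∪ t) := by
  rw [Subgroup.closure_union, Subgroup.closure_union, h]

/-- **Normal form of diagrams with punctures.** -/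
theorem normal_form {σ : I → I} (n : ℕ) : ∀ (L : List I) (ε : I → F) (c : F), L.length = n →
    IsP L σ ε c → ∃ (H : List (F × F)) (Z : List I) (ε' : I → F) (D : List F),
      c = cprod H * vl ε' Z ∧
      (∀ z, ∃ g, ε' z = g * ε z * g⁻¹) ∧
      Z.Perm (L.filter fun i => σ i = i) ∧
      Subgroup.closure (hh L σ ε '' {i | i ∈ L}) =
        Subgroup.closure (hset H ∪ ε' '' {i | i ∈ Z}) ∧
      Subgroup.closure (ε '' {i | i ∈ L}) =
        Subgroup.closure (hset H ∪ (ε' '' {i | i ∈ Z} ∪ {d | d ∈ D})) ∧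
      L.length = 4 * H.length + 2 * D.length + Z.length := by
  induction n using Nat.strong_induction_on with
  | _ n ih =>
    intro L ε c hn hP
    rcases chord_cases hP.nd hP.mem hP.inv with h0 | ⟨A, x, M, B, hL, hfix⟩ |
      ⟨P, x, Q, y, R, S, T, hL⟩
    · refine ⟨[], L, ε, [], ?_, fun z => ⟨1, by group⟩, ?_, ?_, ?_, by simp⟩
      · rw [cprod, List.map_nil, List.prod_nil, one_mul, hP.val]
      · rw [List.filter_eq_self.2 (by simpa using h0)]
      · rw [hset_nil, Set.empty_union]
        exact punct_closure hP.nd h0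
      · rw [hset_nil, Set.empty_union]
        simp
    · -- a chord around punctures
      subst hL
      have h : IsCh A x M B σ ε c := ⟨hP, hfix⟩
      have hlt : (A ++ (M ++ B)).length < n := by
        rw [← hn]
        simp only [List.length_append, List.length_cons]
        omega
      obtain ⟨H, Z, ε', D, r1, r2, r3, r4, r5, r6⟩ :=
        ih _ hlt (A ++ (M ++ B)) (cst ε x M) c rfl h.isP
      have hsx := h.facts.2.2.2.2.2.2.2.1
      refine ⟨H, Z, ε', ε x :: D, r1, ?_, ?_, ?_, ?_, ?_⟩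
      · intro z
        obtain ⟨g, hg⟩ := r2 z
        by_cases hz : z ∈ M
        · refine ⟨g * ε x, ?_⟩
          rw [hg, cst, if_pos hz]
          group
        · refine ⟨g, ?_⟩
          rw [hg, cst, if_neg hz]
      · have e1 : ((A ++ x :: (M ++ σ x :: B)).filter fun i => decide (σ i = i)) =
            ((A ++ (M ++ B)).filter fun i => decide (σ i = i)) := by
          have hss : σ (σ x) ≠ σ x := by
            rw [hP.inv x (by simp)]
            exact hsx.symm
          simp only [List.filter_append, List.filter_cons, hsx, hss, decide_false]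
          simp
        rw [e1]
        exact r3
      · rw [h.closure_hh, r4]
      · rw [h.closure_eps, Set.union_comm, closure_union_congr r5]
        congr 1
        ext z
        simp only [Set.mem_union, Set.mem_singleton_iff, Set.mem_setOf_eq, List.mem_cons]
        tauto
      · simp only [List.length_append, List.length_cons] at r6 ⊢
        omega
    · -- a handle
      subst hL
      have h : IsHd P x Q y R S T σ ε c := ⟨hP⟩
      have hlt : (P ++ (S ++ (R ++ (Q ++ T)))).length < n := by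
        rw [← hn]
        simp only [List.length_append, List.length_cons]
        omega
      obtain ⟨H, Z, ε', D, r1, r2, r3, r4, r5, r6⟩ :=
        ih _ hlt (P ++ (S ++ (R ++ (Q ++ T)))) ε _ rfl h.isP
      obtain ⟨-, -, -, -, -, -, -, -, n2, -, -, n5, -⟩ := h.facts
      refine ⟨(hal P x R S ε, hbe P Q y R S ε) :: H, Z, ε', D, ?_, r2, ?_, ?_, ?_, ?_⟩
      · rw [h.val, r1, cprod, cprod, List.map_cons, List.prod_cons]
        group
      · refine r3.trans ?_
        rw [List.perm_iff_count]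
        intro a
        have hxx : σ (σ x) ≠ σ x := by rw [h.inv_x]; exact n2
        have hyy : σ (σ y) ≠ σ y := by rw [h.inv_y]; exact n5
        simp only [List.filter_append, List.filter_cons, n2.symm, n5.symm, hxx, hyy, decide_false,
          List.count_append]
        simp
        omega
      · rw [h.closure_hh, closure_union_congr r4, hset_cons, Set.union_assoc]
      · rw [h.closure_eps, closure_union_congr r5, hset_cons, Set.union_assoc]
      · simp only [List.length_append, List.length_cons] at r6 ⊢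
        omega

end Pool.MP_59b15d_al.H95
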